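import Pool.Agent.X28.Wolf.Sieve

/-!
The pairs below 408 and the twin prime constant.
-/

set_option autoImplicit false

namespace Pool.Agent.X28.Wolf

theorem gap_small : ∀ p ∈ ({23, 31, 47, 53, 61, 73, 83, 131, 151, 157, 167, 173, 233, 251, 257, 263,
    271, 331, 353, 367, 373, 383} : Finset ℕ), IsGap 6 p := by
  intro p hp
  simp only [Finset.mem_insert, Finset.mem_singleton] at hp
  rcases hp with rfl | rfl | rfl | rfl | rfl | rfl | rfl | rfl | rfl | rfl | rfl | rfl | rfl | rfl |
    rfl | rfl | rfl | rfl | rfl | rfl | rfl | rfl <;>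
  · refine ⟨by norm_num, by norm_num, ?_⟩
    intro m h1 h2
    interval_cases m <;> norm_num

theorem S_small : (4241101199 / 10000000000 : ℝ) ≤ S 0 408 := by
  unfold S
  have hs : ({23, 31, 47, 53, 61, 73, 83, 131, 151, 157, 167, 173, 233, 251, 257, 263,
    271, 331, 353, 367, 373, 383} : Finset ℕ) ⊆ Finset.Ico 0 408 := by
    intro x hx
    simp only [Finset.mem_insert, Finset.mem_singleton] at hx
    rw [Finset.mem_Ico]
    omega
  refine le_trans ?_ (Finset.sum_le_sum_of_subset_of_nonneg hs fun p _ _ => F_nonneg p)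
  rw [Finset.sum_congr rfl (fun p hp => show F p = 1 / (p : ℝ) + 1 / ((p : ℝ) + 6) by
    unfold F; rw [if_pos (gap_small p hp)])]
  simp only [Finset.sum_insert, Finset.mem_insert, Finset.mem_singleton, Finset.sum_singleton,
    OfNat.ofNat_eq_ofNat, Nat.reduceEqDiff, or_self, not_false_eq_true]
  norm_num

end Pool.Agent.X28.Wolf
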