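import Pool.Agent.X28.Wolf.CertOk
import Pool.Agent.X28.Wolf.Data000
import Pool.Agent.X28.Wolf.Data001
import Pool.Agent.X28.Wolf.Data002
import Pool.Agent.X28.Wolf.Data003
import Pool.Agent.X28.Wolf.Data004
import Pool.Agent.X28.Wolf.Data005
import Pool.Agent.X28.Wolf.Data006
import Pool.Agent.X28.Wolf.Data007
import Pool.Agent.X28.Wolf.Data008
import Pool.Agent.X28.Wolf.Data009
import Pool.Agent.X28.Wolf.Data010
import Pool.Agent.X28.Wolf.Data011
import Pool.Agent.X28.Wolf.Data012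
import Pool.Agent.X28.Wolf.Data013
import Pool.Agent.X28.Wolf.Data014
import Pool.Agent.X28.Wolf.Data015
import Pool.Agent.X28.Wolf.Data016
import Pool.Agent.X28.Wolf.Data017
import Pool.Agent.X28.Wolf.Data018
import Pool.Agent.X28.Wolf.Data019
import Pool.Agent.X28.Wolf.Data020
import Pool.Agent.X28.Wolf.Data021
import Pool.Agent.X28.Wolf.Data022
import Pool.Agent.X28.Wolf.Data023
import Pool.Agent.X28.Wolf.Data024
import Pool.Agent.X28.Wolf.Data025
import Pool.Agent.X28.Wolf.Data026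
import Pool.Agent.X28.Wolf.Data027
import Pool.Agent.X28.Wolf.Data028
import Pool.Agent.X28.Wolf.Data029
import Pool.Agent.X28.Wolf.Data030
import Pool.Agent.X28.Wolf.Data031
import Pool.Agent.X28.Wolf.Data032
import Pool.Agent.X28.Wolf.Data033
import Pool.Agent.X28.Wolf.Data034
import Pool.Agent.X28.Wolf.Data035
import Pool.Agent.X28.Wolf.Data036
import Pool.Agent.X28.Wolf.Data037
import Pool.Agent.X28.Wolf.Data038
import Pool.Agent.X28.Wolf.Data039
import Pool.Agent.X28.Wolf.Data040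
import Pool.Agent.X28.Wolf.Data041
import Pool.Agent.X28.Wolf.Data042
import Pool.Agent.X28.Wolf.Data043
import Pool.Agent.X28.Wolf.Data044
import Pool.Agent.X28.Wolf.Data045
import Pool.Agent.X28.Wolf.Data046
import Pool.Agent.X28.Wolf.Data047
import Pool.Agent.X28.Wolf.Data048
import Pool.Agent.X28.Wolf.Data049
import Pool.Agent.X28.Wolf.Data050
import Pool.Agent.X28.Wolf.Data051
import Pool.Agent.X28.Wolf.Data052
import Pool.Agent.X28.Wolf.Data053
import Pool.Agent.X28.Wolf.Data054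
import Pool.Agent.X28.Wolf.Data055
import Pool.Agent.X28.Wolf.Data056
import Pool.Agent.X28.Wolf.Data057
import Pool.Agent.X28.Wolf.Data058
import Pool.Agent.X28.Wolf.Data059
import Pool.Agent.X28.Wolf.Data060
import Pool.Agent.X28.Wolf.Data061
import Pool.Agent.X28.Wolf.Data062
import Pool.Agent.X28.Wolf.Data063
import Pool.Agent.X28.Wolf.Data064
import Pool.Agent.X28.Wolf.Data065
import Pool.Agent.X28.Wolf.Data066
import Pool.Agent.X28.Wolf.Data067
import Pool.Agent.X28.Wolf.Data068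
import Pool.Agent.X28.Wolf.Data069
import Pool.Agent.X28.Wolf.Data070
import Pool.Agent.X28.Wolf.Data071
import Pool.Agent.X28.Wolf.Data072
import Pool.Agent.X28.Wolf.Data073
import Pool.Agent.X28.Wolf.Data074
import Pool.Agent.X28.Wolf.Data075
import Pool.Agent.X28.Wolf.Data076
import Pool.Agent.X28.Wolf.Data077
import Pool.Agent.X28.Wolf.Data078
import Pool.Agent.X28.Wolf.Data079
import Pool.Agent.X28.Wolf.Data080
import Pool.Agent.X28.Wolf.Data081
import Pool.Agent.X28.Wolf.Data082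
import Pool.Agent.X28.Wolf.Data083
import Pool.Agent.X28.Wolf.Data084
import Pool.Agent.X28.Wolf.Data085
import Pool.Agent.X28.Wolf.Data086
import Pool.Agent.X28.Wolf.Data087
import Pool.Agent.X28.Wolf.Data088
import Pool.Agent.X28.Wolf.Data089
import Pool.Agent.X28.Wolf.Data090
import Pool.Agent.X28.Wolf.Data091
import Pool.Agent.X28.Wolf.Data092
import Pool.Agent.X28.Wolf.Data093
import Pool.Agent.X28.Wolf.Data094
import Pool.Agent.X28.Wolf.Data095
import Pool.Agent.X28.Wolf.Data096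
import Pool.Agent.X28.Wolf.Data097
import Pool.Agent.X28.Wolf.Data098
import Pool.Agent.X28.Wolf.Data099
import Pool.Agent.X28.Wolf.Data100
import Pool.Agent.X28.Wolf.Data101
import Pool.Agent.X28.Wolf.Data102
import Pool.Agent.X28.Wolf.Data103
import Pool.Agent.X28.Wolf.Data104
import Pool.Agent.X28.Wolf.Data105
import Pool.Agent.X28.Wolf.Data106
import Pool.Agent.X28.Wolf.Data107
import Pool.Agent.X28.Wolf.Data108
import Pool.Agent.X28.Wolf.Data109
import Pool.Agent.X28.Wolf.Data110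
import Pool.Agent.X28.Wolf.Data111
import Pool.Agent.X28.Wolf.Data112
import Pool.Agent.X28.Wolf.Data113
import Pool.Agent.X28.Wolf.Data114
import Pool.Agent.X28.Wolf.Data115
import Pool.Agent.X28.Wolf.Data116
import Pool.Agent.X28.Wolf.Data117
import Pool.Agent.X28.Wolf.Data118
import Pool.Agent.X28.Wolf.Data119
import Pool.Agent.X28.Wolf.Data120
import Pool.Agent.X28.Wolf.Data121
import Pool.Agent.X28.Wolf.Data122
import Pool.Agent.X28.Wolf.Data123
import Pool.Agent.X28.Wolf.Data124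
import Pool.Agent.X28.Wolf.Data125

/-!
The sum over all pairs of the lists.
-/

set_option autoImplicit false

namespace Pool.Agent.X28.Wolf

theorem okA : Good pA 407 := good_of_goodP (by norm_num) goodA

theorem okB : Good pB 17307 := good_of_goodP (by norm_num) goodB

/-- the side conditions of a step -/
def chk (A V A' X Y B : ℕ) : Bool :=
  Nat.beq A' (A + V) && (Nat.ble 408 X && (Nat.ble X Y && (Nat.ble (B + 1) X && Nat.ble (Y + 6) ((B + 1) * (B + 1)))))

theorem chain {A X : ℕ} (hA : (A : ℝ) ≤ ((1000000000000000000 : ℕ) : ℝ) * S 408 X)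
    {V P B Y d C : ℕ} (hP : Good P B) (h : Nat.ble V (cval P X Y d C) = true) (A' : ℕ)
    (hc : chk A V A' X Y B = true) :
    (A' : ℝ) ≤ ((1000000000000000000 : ℕ) : ℝ) * S 408 Y := by
  unfold chk at hc
  rw [Bool.and_eq_true, Bool.and_eq_true, Bool.and_eq_true, Bool.and_eq_true] at hc
  obtain ⟨h1, h2, h3, h4, h5⟩ := hc
  have h1 := Nat.eq_of_beq_eq_true h1
  have h2 := Nat.le_of_ble_eq_true h2
  have h3 := Nat.le_of_ble_eq_true h3
  have h4 := Nat.le_of_ble_eq_true h4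
  have h5 := Nat.le_of_ble_eq_true h5
  subst h1
  rw [← S_add h2 h3, mul_add, Nat.cast_add]
  have hV : (V : ℝ) ≤ (cval P X Y d C : ℕ) := by
    exact_mod_cast Nat.le_of_ble_eq_true h
  exact add_le_add hA (hV.trans (cval_le hP (by omega) (by omega) (by rw [sq]; exact h5)))

theorem t0 : ((0 : ℕ) : ℝ) ≤ ((1000000000000000000 : ℕ) : ℝ) * S 408 408 := by
  simp [S]

theorem t1 : ((299445720465945794 : ℕ) : ℝ) ≤ ((1000000000000000000 : ℕ) : ℝ) * S 408 108631 :=
  chain t0 okA seg0 _ rfl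

theorem t2 : ((323951448277912634 : ℕ) : ℝ) ≤ ((1000000000000000000 : ℕ) : ℝ) * S 408 248783 :=
  chain t1 okB seg1 _ rfl

theorem t3 : ((336910496631161688 : ℕ) : ℝ) ≤ ((1000000000000000000 : ℕ) : ℝ) * S 408 398143 :=
  chain t2 okB seg2 _ rfl

theorem t4 : ((345556219324865319 : ℕ) : ℝ) ≤ ((1000000000000000000 : ℕ) : ℝ) * S 408 559877 :=
  chain t3 okB seg3 _ rfl

theorem t5 : ((351973173339224247 : ℕ) : ℝ) ≤ ((1000000000000000000 : ℕ) : ℝ) * S 408 725071 :=
  chain t4 okB seg4 _ rfl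

theorem t6 : ((357051039511062925 : ℕ) : ℝ) ≤ ((1000000000000000000 : ℕ) : ℝ) * S 408 893603 :=
  chain t5 okB seg5 _ rfl

theorem t7 : ((361234908809188507 : ℕ) : ℝ) ≤ ((1000000000000000000 : ℕ) : ℝ) * S 408 1070933 :=
  chain t6 okB seg6 _ rfl

theorem t8 : ((364776380937201499 : ℕ) : ℝ) ≤ ((1000000000000000000 : ℕ) : ℝ) * S 408 1249133 :=
  chain t7 okB seg7 _ rfl

theorem t9 : ((367834655189125204 : ℕ) : ℝ) ≤ ((1000000000000000000 : ℕ) : ℝ) * S 408 1434991 :=
  chain t8 okB seg8 _ rfl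

theorem t10 : ((370523937290115769 : ℕ) : ℝ) ≤ ((1000000000000000000 : ℕ) : ℝ) * S 408 1617557 :=
  chain t9 okB seg9 _ rfl

theorem t11 : ((372916400161869759 : ℕ) : ℝ) ≤ ((1000000000000000000 : ℕ) : ℝ) * S 408 1811533 :=
  chain t10 okB seg10 _ rfl

theorem t12 : ((375064533706032598 : ℕ) : ℝ) ≤ ((1000000000000000000 : ℕ) : ℝ) * S 408 2005937 :=
  chain t11 okB seg11 _ rfl

theorem t13 : ((377014564077601688 : ℕ) : ℝ) ≤ ((1000000000000000000 : ℕ) : ℝ) * S 408 2197361 :=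
  chain t12 okB seg12 _ rfl

theorem t14 : ((378800997354684309 : ℕ) : ℝ) ≤ ((1000000000000000000 : ℕ) : ℝ) * S 408 2393653 :=
  chain t13 okB seg13 _ rfl

theorem t15 : ((380444334392634037 : ℕ) : ℝ) ≤ ((1000000000000000000 : ℕ) : ℝ) * S 408 2594437 :=
  chain t14 okB seg14 _ rfl

theorem t16 : ((381966541787132388 : ℕ) : ℝ) ≤ ((1000000000000000000 : ℕ) : ℝ) * S 408 2792137 :=
  chain t15 okB seg15 _ rfl

theorem t17 : ((383384212462028436 : ℕ) : ℝ) ≤ ((1000000000000000000 : ℕ) : ℝ) * S 408 2994637 :=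
  chain t16 okB seg16 _ rfl

theorem t18 : ((384708649807821665 : ℕ) : ℝ) ≤ ((1000000000000000000 : ℕ) : ℝ) * S 408 3192881 :=
  chain t17 okB seg17 _ rfl

theorem t19 : ((385952423738184128 : ℕ) : ℝ) ≤ ((1000000000000000000 : ℕ) : ℝ) * S 408 3397057 :=
  chain t18 okB seg18 _ rfl

theorem t20 : ((387122480683909593 : ℕ) : ℝ) ≤ ((1000000000000000000 : ℕ) : ℝ) * S 408 3605257 :=
  chain t19 okB seg19 _ rfl

theorem t21 : ((388227310910910466 : ℕ) : ℝ) ≤ ((1000000000000000000 : ℕ) : ℝ) * S 408 3808993 :=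
  chain t20 okB seg20 _ rfl

theorem t22 : ((389274209193400134 : ℕ) : ℝ) ≤ ((1000000000000000000 : ℕ) : ℝ) * S 408 4019153 :=
  chain t21 okB seg21 _ rfl

theorem t23 : ((390267666357512522 : ℕ) : ℝ) ≤ ((1000000000000000000 : ℕ) : ℝ) * S 408 4231261 :=
  chain t22 okB seg22 _ rfl

theorem t24 : ((391212006579849307 : ℕ) : ℝ) ≤ ((1000000000000000000 : ℕ) : ℝ) * S 408 4446131 :=
  chain t23 okB seg23 _ rfl

theorem t25 : ((392112126408570468 : ℕ) : ℝ) ≤ ((1000000000000000000 : ℕ) : ℝ) * S 408 4658497 :=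
  chain t24 okB seg24 _ rfl

theorem t26 : ((392971955548689976 : ℕ) : ℝ) ≤ ((1000000000000000000 : ℕ) : ℝ) * S 408 4871473 :=
  chain t25 okB seg25 _ rfl

theorem t27 : ((393795413831312228 : ℕ) : ℝ) ≤ ((1000000000000000000 : ℕ) : ℝ) * S 408 5079533 :=
  chain t26 okB seg26 _ rfl

theorem t28 : ((394585071387493040 : ℕ) : ℝ) ≤ ((1000000000000000000 : ℕ) : ℝ) * S 408 5295217 :=
  chain t27 okB seg27 _ rfl

theorem t29 : ((395343170520483784 : ℕ) : ℝ) ≤ ((1000000000000000000 : ℕ) : ℝ) * S 408 5513941 :=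
  chain t28 okB seg28 _ rfl

theorem t30 : ((396071501641760797 : ℕ) : ℝ) ≤ ((1000000000000000000 : ℕ) : ℝ) * S 408 5732011 :=
  chain t29 okB seg29 _ rfl

theorem t31 : ((396772378982967804 : ℕ) : ℝ) ≤ ((1000000000000000000 : ℕ) : ℝ) * S 408 5952383 :=
  chain t30 okB seg30 _ rfl

theorem t32 : ((397448386145231235 : ℕ) : ℝ) ≤ ((1000000000000000000 : ℕ) : ℝ) * S 408 6168683 :=
  chain t31 okB seg31 _ rfl

theorem t33 : ((398100817410348672 : ℕ) : ℝ) ≤ ((1000000000000000000 : ℕ) : ℝ) * S 408 6385987 :=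
  chain t32 okB seg32 _ rfl

theorem t34 : ((398731158103774867 : ℕ) : ℝ) ≤ ((1000000000000000000 : ℕ) : ℝ) * S 408 6610337 :=
  chain t33 okB seg33 _ rfl

theorem t35 : ((399340688604464770 : ℕ) : ℝ) ≤ ((1000000000000000000 : ℕ) : ℝ) * S 408 6828317 :=
  chain t34 okB seg34 _ rfl

theorem t36 : ((399930777388370730 : ℕ) : ℝ) ≤ ((1000000000000000000 : ℕ) : ℝ) * S 408 7053721 :=
  chain t35 okB seg35 _ rfl

theorem t37 : ((400502545487592787 : ℕ) : ℝ) ≤ ((1000000000000000000 : ℕ) : ℝ) * S 408 7276001 :=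
  chain t36 okB seg36 _ rfl

theorem t38 : ((401056934680128881 : ℕ) : ℝ) ≤ ((1000000000000000000 : ℕ) : ℝ) * S 408 7501141 :=
  chain t37 okB seg37 _ rfl

theorem t39 : ((401594955496633251 : ℕ) : ℝ) ≤ ((1000000000000000000 : ℕ) : ℝ) * S 408 7723447 :=
  chain t38 okB seg38 _ rfl

theorem t40 : ((402117363194505832 : ℕ) : ℝ) ≤ ((1000000000000000000 : ℕ) : ℝ) * S 408 7959191 :=
  chain t39 okB seg39 _ rfl

theorem t41 : ((402624724801361897 : ℕ) : ℝ) ≤ ((1000000000000000000 : ℕ) : ℝ) * S 408 8189191 :=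
  chain t40 okB seg40 _ rfl

theorem t42 : ((403118020276926781 : ℕ) : ℝ) ≤ ((1000000000000000000 : ℕ) : ℝ) * S 408 8419423 :=
  chain t41 okB seg41 _ rfl

theorem t43 : ((403597984832558348 : ℕ) : ℝ) ≤ ((1000000000000000000 : ℕ) : ℝ) * S 408 8649967 :=
  chain t42 okB seg42 _ rfl

theorem t44 : ((404065316135271164 : ℕ) : ℝ) ≤ ((1000000000000000000 : ℕ) : ℝ) * S 408 8878861 :=
  chain t43 okB seg43 _ rfl

theorem t45 : ((404520724381252382 : ℕ) : ℝ) ≤ ((1000000000000000000 : ℕ) : ℝ) * S 408 9110287 :=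
  chain t44 okB seg44 _ rfl

theorem t46 : ((404964763165190855 : ℕ) : ℝ) ≤ ((1000000000000000000 : ℕ) : ℝ) * S 408 9340937 :=
  chain t45 okB seg45 _ rfl

theorem t47 : ((405397920831505977 : ℕ) : ℝ) ≤ ((1000000000000000000 : ℕ) : ℝ) * S 408 9574931 :=
  chain t46 okB seg46 _ rfl

theorem t48 : ((405820536370799235 : ℕ) : ℝ) ≤ ((1000000000000000000 : ℕ) : ℝ) * S 408 9810083 :=
  chain t47 okB seg47 _ rfl

theorem t49 : ((406233162367037361 : ℕ) : ℝ) ≤ ((1000000000000000000 : ℕ) : ℝ) * S 408 10046951 :=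
  chain t48 okB seg48 _ rfl

theorem t50 : ((406636021269373620 : ℕ) : ℝ) ≤ ((1000000000000000000 : ℕ) : ℝ) * S 408 10289761 :=
  chain t49 okB seg49 _ rfl

theorem t51 : ((407029595133915221 : ℕ) : ℝ) ≤ ((1000000000000000000 : ℕ) : ℝ) * S 408 10528081 :=
  chain t50 okB seg50 _ rfl

theorem t52 : ((407414322198785059 : ℕ) : ℝ) ≤ ((1000000000000000000 : ℕ) : ℝ) * S 408 10763911 :=
  chain t51 okB seg51 _ rfl

theorem t53 : ((407790729907171801 : ℕ) : ℝ) ≤ ((1000000000000000000 : ℕ) : ℝ) * S 408 11000911 :=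
  chain t52 okB seg52 _ rfl

theorem t54 : ((408159014383067733 : ℕ) : ℝ) ≤ ((1000000000000000000 : ℕ) : ℝ) * S 408 11238307 :=
  chain t53 okB seg53 _ rfl

theorem t55 : ((408519772890004401 : ℕ) : ℝ) ≤ ((1000000000000000000 : ℕ) : ℝ) * S 408 11477113 :=
  chain t54 okB seg54 _ rfl

theorem t56 : ((408872878667731512 : ℕ) : ℝ) ≤ ((1000000000000000000 : ℕ) : ℝ) * S 408 11720251 :=
  chain t55 okB seg55 _ rfl

theorem t57 : ((409218840019917910 : ℕ) : ℝ) ≤ ((1000000000000000000 : ℕ) : ℝ) * S 408 11956577 :=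
  chain t56 okB seg56 _ rfl

theorem t58 : ((409557967692125759 : ℕ) : ℝ) ≤ ((1000000000000000000 : ℕ) : ℝ) * S 408 12199037 :=
  chain t57 okB seg57 _ rfl

theorem t59 : ((409890441388339475 : ℕ) : ℝ) ≤ ((1000000000000000000 : ℕ) : ℝ) * S 408 12440657 :=
  chain t58 okB seg58 _ rfl

theorem t60 : ((410216571985465383 : ℕ) : ℝ) ≤ ((1000000000000000000 : ℕ) : ℝ) * S 408 12678557 :=
  chain t59 okB seg59 _ rfl

theorem t61 : ((410536524048570072 : ℕ) : ℝ) ≤ ((1000000000000000000 : ℕ) : ℝ) * S 408 12926143 :=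
  chain t60 okB seg60 _ rfl

theorem t62 : ((410850520231293736 : ℕ) : ℝ) ≤ ((1000000000000000000 : ℕ) : ℝ) * S 408 13163357 :=
  chain t61 okB seg61 _ rfl

theorem t63 : ((411158892445529425 : ℕ) : ℝ) ≤ ((1000000000000000000 : ℕ) : ℝ) * S 408 13402861 :=
  chain t62 okB seg62 _ rfl

theorem t64 : ((411461676321431847 : ℕ) : ℝ) ≤ ((1000000000000000000 : ℕ) : ℝ) * S 408 13649197 :=
  chain t63 okB seg63 _ rfl

theorem t65 : ((411759204118290474 : ℕ) : ℝ) ≤ ((1000000000000000000 : ℕ) : ℝ) * S 408 13886051 :=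
  chain t64 okB seg64 _ rfl

theorem t66 : ((412051540096503900 : ℕ) : ℝ) ≤ ((1000000000000000000 : ℕ) : ℝ) * S 408 14129777 :=
  chain t65 okB seg65 _ rfl

theorem t67 : ((412338979556265208 : ℕ) : ℝ) ≤ ((1000000000000000000 : ℕ) : ℝ) * S 408 14367371 :=
  chain t66 okB seg66 _ rfl

theorem t68 : ((412621699072196288 : ℕ) : ℝ) ≤ ((1000000000000000000 : ℕ) : ℝ) * S 408 14611433 :=
  chain t67 okB seg67 _ rfl

theorem t69 : ((412899694556735536 : ℕ) : ℝ) ≤ ((1000000000000000000 : ℕ) : ℝ) * S 408 14854313 :=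
  chain t68 okB seg68 _ rfl

theorem t70 : ((413173126091500938 : ℕ) : ℝ) ≤ ((1000000000000000000 : ℕ) : ℝ) * S 408 15105523 :=
  chain t69 okB seg69 _ rfl

theorem t71 : ((413442099902497437 : ℕ) : ℝ) ≤ ((1000000000000000000 : ℕ) : ℝ) * S 408 15351641 :=
  chain t70 okB seg70 _ rfl

theorem t72 : ((413706764359620849 : ℕ) : ℝ) ≤ ((1000000000000000000 : ℕ) : ℝ) * S 408 15595583 :=
  chain t71 okB seg71 _ rfl

theorem t73 : ((413967403086414373 : ℕ) : ℝ) ≤ ((1000000000000000000 : ℕ) : ℝ) * S 408 15834653 :=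
  chain t72 okB seg72 _ rfl

theorem t74 : ((414224152053568443 : ℕ) : ℝ) ≤ ((1000000000000000000 : ℕ) : ℝ) * S 408 16076267 :=
  chain t73 okB seg73 _ rfl

theorem t75 : ((414476958886762927 : ℕ) : ℝ) ≤ ((1000000000000000000 : ℕ) : ℝ) * S 408 16325711 :=
  chain t74 okB seg74 _ rfl

theorem t76 : ((414725952972972852 : ℕ) : ℝ) ≤ ((1000000000000000000 : ℕ) : ℝ) * S 408 16573423 :=
  chain t75 okB seg75 _ rfl

theorem t77 : ((414971244190142266 : ℕ) : ℝ) ≤ ((1000000000000000000 : ℕ) : ℝ) * S 408 16824023 :=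
  chain t76 okB seg76 _ rfl

theorem t78 : ((415212915333190821 : ℕ) : ℝ) ≤ ((1000000000000000000 : ℕ) : ℝ) * S 408 17070041 :=
  chain t77 okB seg77 _ rfl

theorem t79 : ((415451103843093616 : ℕ) : ℝ) ≤ ((1000000000000000000 : ℕ) : ℝ) * S 408 17321527 :=
  chain t78 okB seg78 _ rfl

theorem t80 : ((415685922057411573 : ℕ) : ℝ) ≤ ((1000000000000000000 : ℕ) : ℝ) * S 408 17566973 :=
  chain t79 okB seg79 _ rfl

theorem t81 : ((415917446768235622 : ℕ) : ℝ) ≤ ((1000000000000000000 : ℕ) : ℝ) * S 408 17814067 :=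
  chain t80 okB seg80 _ rfl

theorem t82 : ((416145794804875337 : ℕ) : ℝ) ≤ ((1000000000000000000 : ℕ) : ℝ) * S 408 18060593 :=
  chain t81 okB seg81 _ rfl

theorem t83 : ((416371064400074924 : ℕ) : ℝ) ≤ ((1000000000000000000 : ℕ) : ℝ) * S 408 18304607 :=
  chain t82 okB seg82 _ rfl

theorem t84 : ((416593360554045311 : ℕ) : ℝ) ≤ ((1000000000000000000 : ℕ) : ℝ) * S 408 18554297 :=
  chain t83 okB seg83 _ rfl

theorem t85 : ((416812628951591666 : ℕ) : ℝ) ≤ ((1000000000000000000 : ℕ) : ℝ) * S 408 18808991 :=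
  chain t84 okB seg84 _ rfl

theorem t86 : ((417028979689996224 : ℕ) : ℝ) ≤ ((1000000000000000000 : ℕ) : ℝ) * S 408 19056547 :=
  chain t85 okB seg85 _ rfl

theorem t87 : ((417242487146843867 : ℕ) : ℝ) ≤ ((1000000000000000000 : ℕ) : ℝ) * S 408 19307003 :=
  chain t86 okB seg86 _ rfl

theorem t88 : ((417453255921363876 : ℕ) : ℝ) ≤ ((1000000000000000000 : ℕ) : ℝ) * S 408 19561687 :=
  chain t87 okB seg87 _ rfl

theorem t89 : ((417661334081672449 : ℕ) : ℝ) ≤ ((1000000000000000000 : ℕ) : ℝ) * S 408 19804417 :=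
  chain t88 okB seg88 _ rfl

theorem t90 : ((417866879791952424 : ℕ) : ℝ) ≤ ((1000000000000000000 : ℕ) : ℝ) * S 408 20051497 :=
  chain t89 okB seg89 _ rfl

theorem t91 : ((418069884635726152 : ℕ) : ℝ) ≤ ((1000000000000000000 : ℕ) : ℝ) * S 408 20306431 :=
  chain t90 okB seg90 _ rfl

theorem t92 : ((418270336772175983 : ℕ) : ℝ) ≤ ((1000000000000000000 : ℕ) : ℝ) * S 408 20565533 :=
  chain t91 okB seg91 _ rfl

theorem t93 : ((418468320251517430 : ℕ) : ℝ) ≤ ((1000000000000000000 : ℕ) : ℝ) * S 408 20811121 :=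
  chain t92 okB seg92 _ rfl

theorem t94 : ((418663920559379982 : ℕ) : ℝ) ≤ ((1000000000000000000 : ℕ) : ℝ) * S 408 21066443 :=
  chain t93 okB seg93 _ rfl

theorem t95 : ((418857200893688173 : ℕ) : ℝ) ≤ ((1000000000000000000 : ℕ) : ℝ) * S 408 21319087 :=
  chain t94 okB seg94 _ rfl

theorem t96 : ((419048197910976727 : ℕ) : ℝ) ≤ ((1000000000000000000 : ℕ) : ℝ) * S 408 21569903 :=
  chain t95 okB seg95 _ rfl

theorem t97 : ((419236999694401010 : ℕ) : ℝ) ≤ ((1000000000000000000 : ℕ) : ℝ) * S 408 21823541 :=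
  chain t96 okB seg96 _ rfl

theorem t98 : ((419423614145427145 : ℕ) : ℝ) ≤ ((1000000000000000000 : ℕ) : ℝ) * S 408 22072907 :=
  chain t97 okB seg97 _ rfl

theorem t99 : ((419608060008309711 : ℕ) : ℝ) ≤ ((1000000000000000000 : ℕ) : ℝ) * S 408 22339613 :=
  chain t98 okB seg98 _ rfl

theorem t100 : ((419790378939468138 : ℕ) : ℝ) ≤ ((1000000000000000000 : ℕ) : ℝ) * S 408 22591187 :=
  chain t99 okB seg99 _ rfl

theorem t101 : ((419970664850242255 : ℕ) : ℝ) ≤ ((1000000000000000000 : ℕ) : ℝ) * S 408 22848961 :=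
  chain t100 okB seg100 _ rfl

theorem t102 : ((420148942947337599 : ℕ) : ℝ) ≤ ((1000000000000000000 : ℕ) : ℝ) * S 408 23101817 :=
  chain t101 okB seg101 _ rfl

theorem t103 : ((420325248511620332 : ℕ) : ℝ) ≤ ((1000000000000000000 : ℕ) : ℝ) * S 408 23365051 :=
  chain t102 okB seg102 _ rfl

theorem t104 : ((420499576332650849 : ℕ) : ℝ) ≤ ((1000000000000000000 : ℕ) : ℝ) * S 408 23629357 :=
  chain t103 okB seg103 _ rfl

theorem t105 : ((420671975134005615 : ℕ) : ℝ) ≤ ((1000000000000000000 : ℕ) : ℝ) * S 408 23888303 :=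
  chain t104 okB seg104 _ rfl

theorem t106 : ((420842535615426496 : ℕ) : ℝ) ≤ ((1000000000000000000 : ℕ) : ℝ) * S 408 24142247 :=
  chain t105 okB seg105 _ rfl

theorem t107 : ((421011269890526819 : ℕ) : ℝ) ≤ ((1000000000000000000 : ℕ) : ℝ) * S 408 24408017 :=
  chain t106 okB seg106 _ rfl

theorem t108 : ((421178189551098791 : ℕ) : ℝ) ≤ ((1000000000000000000 : ℕ) : ℝ) * S 408 24668927 :=
  chain t107 okB seg107 _ rfl

theorem t109 : ((421343423390740196 : ℕ) : ℝ) ≤ ((1000000000000000000 : ℕ) : ℝ) * S 408 24914311 :=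
  chain t108 okB seg108 _ rfl

theorem t110 : ((421506971341203215 : ℕ) : ℝ) ≤ ((1000000000000000000 : ℕ) : ℝ) * S 408 25172431 :=
  chain t109 okB seg109 _ rfl

theorem t111 : ((421668862806374474 : ℕ) : ℝ) ≤ ((1000000000000000000 : ℕ) : ℝ) * S 408 25431503 :=
  chain t110 okB seg110 _ rfl

theorem t112 : ((421829112837506437 : ℕ) : ℝ) ≤ ((1000000000000000000 : ℕ) : ℝ) * S 408 25687231 :=
  chain t111 okB seg111 _ rfl

theorem t113 : ((421987757021819841 : ℕ) : ℝ) ≤ ((1000000000000000000 : ℕ) : ℝ) * S 408 25948963 :=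
  chain t112 okB seg112 _ rfl

theorem t114 : ((422144800316532955 : ℕ) : ℝ) ≤ ((1000000000000000000 : ℕ) : ℝ) * S 408 26211287 :=
  chain t113 okB seg113 _ rfl

theorem t115 : ((422300294823086208 : ℕ) : ℝ) ≤ ((1000000000000000000 : ℕ) : ℝ) * S 408 26470183 :=
  chain t114 okB seg114 _ rfl

theorem t116 : ((422454317603748894 : ℕ) : ℝ) ≤ ((1000000000000000000 : ℕ) : ℝ) * S 408 26720383 :=
  chain t115 okB seg115 _ rfl

theorem t117 : ((422606849852392247 : ℕ) : ℝ) ≤ ((1000000000000000000 : ℕ) : ℝ) * S 408 26984011 :=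
  chain t116 okB seg116 _ rfl

theorem t118 : ((422757916987931809 : ℕ) : ℝ) ≤ ((1000000000000000000 : ℕ) : ℝ) * S 408 27243863 :=
  chain t117 okB seg117 _ rfl

theorem t119 : ((422907567094479336 : ℕ) : ℝ) ≤ ((1000000000000000000 : ℕ) : ℝ) * S 408 27498281 :=
  chain t118 okB seg118 _ rfl

theorem t120 : ((423055804510808572 : ℕ) : ℝ) ≤ ((1000000000000000000 : ℕ) : ℝ) * S 408 27761081 :=
  chain t119 okB seg119 _ rfl

theorem t121 : ((423202674667613183 : ℕ) : ℝ) ≤ ((1000000000000000000 : ℕ) : ℝ) * S 408 28017287 :=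
  chain t120 okB seg120 _ rfl

theorem t122 : ((423348212268847039 : ℕ) : ℝ) ≤ ((1000000000000000000 : ℕ) : ℝ) * S 408 28273171 :=
  chain t121 okB seg121 _ rfl

theorem t123 : ((423492439941716925 : ℕ) : ℝ) ≤ ((1000000000000000000 : ℕ) : ℝ) * S 408 28527673 :=
  chain t122 okB seg122 _ rfl

theorem t124 : ((423635375745989315 : ℕ) : ℝ) ≤ ((1000000000000000000 : ℕ) : ℝ) * S 408 28787911 :=
  chain t123 okB seg123 _ rfl

theorem t125 : ((423777001994030620 : ℕ) : ℝ) ≤ ((1000000000000000000 : ℕ) : ℝ) * S 408 29053987 :=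
  chain t124 okB seg124 _ rfl

theorem t126 : ((423917349784552128 : ℕ) : ℝ) ≤ ((1000000000000000000 : ℕ) : ℝ) * S 408 29318753 :=
  chain t125 okB seg125 _ rfl

theorem t127 : ((424056425685337588 : ℕ) : ℝ) ≤ ((1000000000000000000 : ℕ) : ℝ) * S 408 29583923 :=
  chain t126 okB seg126 _ rfl

theorem t128 : ((424194289922128380 : ℕ) : ℝ) ≤ ((1000000000000000000 : ℕ) : ℝ) * S 408 29839591 :=
  chain t127 okB seg127 _ rfl

theorem t129 : ((424330966334096663 : ℕ) : ℝ) ≤ ((1000000000000000000 : ℕ) : ℝ) * S 408 30096757 :=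
  chain t128 okB seg128 _ rfl

theorem t130 : ((424466453405143163 : ℕ) : ℝ) ≤ ((1000000000000000000 : ℕ) : ℝ) * S 408 30367307 :=
  chain t129 okB seg129 _ rfl

theorem t131 : ((424600743028818221 : ℕ) : ℝ) ≤ ((1000000000000000000 : ℕ) : ℝ) * S 408 30631613 :=
  chain t130 okB seg130 _ rfl

theorem t132 : ((424733879769430003 : ℕ) : ℝ) ≤ ((1000000000000000000 : ℕ) : ℝ) * S 408 30899417 :=
  chain t131 okB seg131 _ rfl

theorem t133 : ((424865861110400586 : ℕ) : ℝ) ≤ ((1000000000000000000 : ℕ) : ℝ) * S 408 31169147 :=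
  chain t132 okB seg132 _ rfl

theorem t134 : ((424996715434261266 : ℕ) : ℝ) ≤ ((1000000000000000000 : ℕ) : ℝ) * S 408 31434973 :=
  chain t133 okB seg133 _ rfl

theorem t135 : ((425126440997749063 : ℕ) : ℝ) ≤ ((1000000000000000000 : ℕ) : ℝ) * S 408 31709773 :=
  chain t134 okB seg134 _ rfl

theorem t136 : ((425255089853344327 : ℕ) : ℝ) ≤ ((1000000000000000000 : ℕ) : ℝ) * S 408 31967753 :=
  chain t135 okB seg135 _ rfl

theorem t137 : ((425382684330388047 : ℕ) : ℝ) ≤ ((1000000000000000000 : ℕ) : ℝ) * S 408 32236507 :=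
  chain t136 okB seg136 _ rfl

theorem t138 : ((425509243475808633 : ℕ) : ℝ) ≤ ((1000000000000000000 : ℕ) : ℝ) * S 408 32493347 :=
  chain t137 okB seg137 _ rfl

theorem t139 : ((425634780430730074 : ℕ) : ℝ) ≤ ((1000000000000000000 : ℕ) : ℝ) * S 408 32762333 :=
  chain t138 okB seg138 _ rfl

theorem t140 : ((425759288408565811 : ℕ) : ℝ) ≤ ((1000000000000000000 : ℕ) : ℝ) * S 408 33031301 :=
  chain t139 okB seg139 _ rfl

theorem t141 : ((425882785450855726 : ℕ) : ℝ) ≤ ((1000000000000000000 : ℕ) : ℝ) * S 408 33300661 :=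
  chain t140 okB seg140 _ rfl

theorem t142 : ((426005321449208634 : ℕ) : ℝ) ≤ ((1000000000000000000 : ℕ) : ℝ) * S 408 33562027 :=
  chain t141 okB seg141 _ rfl

theorem t143 : ((426126877292669253 : ℕ) : ℝ) ≤ ((1000000000000000000 : ℕ) : ℝ) * S 408 33826433 :=
  chain t142 okB seg142 _ rfl

theorem t144 : ((426247481183905837 : ℕ) : ℝ) ≤ ((1000000000000000000 : ℕ) : ℝ) * S 408 34099201 :=
  chain t143 okB seg143 _ rfl

theorem t145 : ((426367117860133545 : ℕ) : ℝ) ≤ ((1000000000000000000 : ℕ) : ℝ) * S 408 34377787 :=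
  chain t144 okB seg144 _ rfl

theorem t146 : ((426485813318274082 : ℕ) : ℝ) ≤ ((1000000000000000000 : ℕ) : ℝ) * S 408 34638287 :=
  chain t145 okB seg145 _ rfl

theorem t147 : ((426603615803645395 : ℕ) : ℝ) ≤ ((1000000000000000000 : ℕ) : ℝ) * S 408 34903823 :=
  chain t146 okB seg146 _ rfl

theorem t148 : ((426720512369866249 : ℕ) : ℝ) ≤ ((1000000000000000000 : ℕ) : ℝ) * S 408 35173507 :=
  chain t147 okB seg147 _ rfl

theorem t149 : ((426836527338252636 : ℕ) : ℝ) ≤ ((1000000000000000000 : ℕ) : ℝ) * S 408 35437723 :=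
  chain t148 okB seg148 _ rfl

theorem t150 : ((426951679759117128 : ℕ) : ℝ) ≤ ((1000000000000000000 : ℕ) : ℝ) * S 408 35709533 :=
  chain t149 okB seg149 _ rfl

theorem t151 : ((427065941057542512 : ℕ) : ℝ) ≤ ((1000000000000000000 : ℕ) : ℝ) * S 408 35980531 :=
  chain t150 okB seg150 _ rfl

theorem t152 : ((427179352573846688 : ℕ) : ℝ) ≤ ((1000000000000000000 : ℕ) : ℝ) * S 408 36250217 :=
  chain t151 okB seg151 _ rfl

theorem t153 : ((427291931384497971 : ℕ) : ℝ) ≤ ((1000000000000000000 : ℕ) : ℝ) * S 408 36521467 :=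
  chain t152 okB seg152 _ rfl

theorem t154 : ((427403665625050887 : ℕ) : ℝ) ≤ ((1000000000000000000 : ℕ) : ℝ) * S 408 36795433 :=
  chain t153 okB seg153 _ rfl

theorem t155 : ((427514574772324124 : ℕ) : ℝ) ≤ ((1000000000000000000 : ℕ) : ℝ) * S 408 37066013 :=
  chain t154 okB seg154 _ rfl

theorem t156 : ((427624673794911585 : ℕ) : ℝ) ≤ ((1000000000000000000 : ℕ) : ℝ) * S 408 37340981 :=
  chain t155 okB seg155 _ rfl

theorem t157 : ((427733972309838690 : ℕ) : ℝ) ≤ ((1000000000000000000 : ℕ) : ℝ) * S 408 37608793 :=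
  chain t156 okB seg156 _ rfl

theorem t158 : ((427842491235663635 : ℕ) : ℝ) ≤ ((1000000000000000000 : ℕ) : ℝ) * S 408 37879753 :=
  chain t157 okB seg157 _ rfl

theorem t159 : ((427950238653238339 : ℕ) : ℝ) ≤ ((1000000000000000000 : ℕ) : ℝ) * S 408 38146601 :=
  chain t158 okB seg158 _ rfl

theorem t160 : ((428057230840965865 : ℕ) : ℝ) ≤ ((1000000000000000000 : ℕ) : ℝ) * S 408 38419883 :=
  chain t159 okB seg159 _ rfl

theorem t161 : ((428163469012428095 : ℕ) : ℝ) ≤ ((1000000000000000000 : ℕ) : ℝ) * S 408 38686507 :=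
  chain t160 okB seg160 _ rfl

theorem t162 : ((428268988288575550 : ℕ) : ℝ) ≤ ((1000000000000000000 : ℕ) : ℝ) * S 408 38948353 :=
  chain t161 okB seg161 _ rfl

theorem t163 : ((428373776894149943 : ℕ) : ℝ) ≤ ((1000000000000000000 : ℕ) : ℝ) * S 408 39221933 :=
  chain t162 okB seg162 _ rfl

theorem t164 : ((428477852399501420 : ℕ) : ℝ) ≤ ((1000000000000000000 : ℕ) : ℝ) * S 408 39489553 :=
  chain t163 okB seg163 _ rfl

theorem t165 : ((428581220146652400 : ℕ) : ℝ) ≤ ((1000000000000000000 : ℕ) : ℝ) * S 408 39762641 :=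
  chain t164 okB seg164 _ rfl

theorem t166 : ((428683876846238929 : ℕ) : ℝ) ≤ ((1000000000000000000 : ℕ) : ℝ) * S 408 40039921 :=
  chain t165 okB seg165 _ rfl

theorem t167 : ((428785836536432905 : ℕ) : ℝ) ≤ ((1000000000000000000 : ℕ) : ℝ) * S 408 40306577 :=
  chain t166 okB seg166 _ rfl

theorem t168 : ((428887125805717289 : ℕ) : ℝ) ≤ ((1000000000000000000 : ℕ) : ℝ) * S 408 40572593 :=
  chain t167 okB seg167 _ rfl

theorem t169 : ((428987729697555789 : ℕ) : ℝ) ≤ ((1000000000000000000 : ℕ) : ℝ) * S 408 40846097 :=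
  chain t168 okB seg168 _ rfl

theorem t170 : ((429087669438142914 : ℕ) : ℝ) ≤ ((1000000000000000000 : ℕ) : ℝ) * S 408 41120473 :=
  chain t169 okB seg169 _ rfl

theorem t171 : ((429186944824896924 : ℕ) : ℝ) ≤ ((1000000000000000000 : ℕ) : ℝ) * S 408 41400211 :=
  chain t170 okB seg170 _ rfl

theorem t172 : ((429285553748607895 : ℕ) : ℝ) ≤ ((1000000000000000000 : ℕ) : ℝ) * S 408 41677261 :=
  chain t171 okB seg171 _ rfl

theorem t173 : ((429383514174185785 : ℕ) : ℝ) ≤ ((1000000000000000000 : ℕ) : ℝ) * S 408 41953237 :=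
  chain t172 okB seg172 _ rfl

theorem t174 : ((429480826585339735 : ℕ) : ℝ) ≤ ((1000000000000000000 : ℕ) : ℝ) * S 408 42230213 :=
  chain t173 okB seg173 _ rfl

theorem t175 : ((429577511618386102 : ℕ) : ℝ) ≤ ((1000000000000000000 : ℕ) : ℝ) * S 408 42499753 :=
  chain t174 okB seg174 _ rfl

theorem t176 : ((429673582520746952 : ℕ) : ℝ) ≤ ((1000000000000000000 : ℕ) : ℝ) * S 408 42774311 :=
  chain t175 okB seg175 _ rfl

theorem t177 : ((429769034567993317 : ℕ) : ℝ) ≤ ((1000000000000000000 : ℕ) : ℝ) * S 408 43046581 :=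
  chain t176 okB seg176 _ rfl

theorem t178 : ((429863881904914656 : ℕ) : ℝ) ≤ ((1000000000000000000 : ℕ) : ℝ) * S 408 43326961 :=
  chain t177 okB seg177 _ rfl

theorem t179 : ((429958128796290806 : ℕ) : ℝ) ≤ ((1000000000000000000 : ℕ) : ℝ) * S 408 43592903 :=
  chain t178 okB seg178 _ rfl

theorem t180 : ((430051784503340663 : ℕ) : ℝ) ≤ ((1000000000000000000 : ℕ) : ℝ) * S 408 43867487 :=
  chain t179 okB seg179 _ rfl

theorem t181 : ((430144861420931080 : ℕ) : ℝ) ≤ ((1000000000000000000 : ℕ) : ℝ) * S 408 44144077 :=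
  chain t180 okB seg180 _ rfl

theorem t182 : ((430237363286543367 : ℕ) : ℝ) ≤ ((1000000000000000000 : ℕ) : ℝ) * S 408 44417683 :=
  chain t181 okB seg181 _ rfl

theorem t183 : ((430329294133976417 : ℕ) : ℝ) ≤ ((1000000000000000000 : ℕ) : ℝ) * S 408 44689553 :=
  chain t182 okB seg182 _ rfl

theorem t184 : ((430420667732093366 : ℕ) : ℝ) ≤ ((1000000000000000000 : ℕ) : ℝ) * S 408 44967331 :=
  chain t183 okB seg183 _ rfl

theorem t185 : ((430511490232790975 : ℕ) : ℝ) ≤ ((1000000000000000000 : ℕ) : ℝ) * S 408 45234941 :=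
  chain t184 okB seg184 _ rfl

theorem t186 : ((430601774087148188 : ℕ) : ℝ) ≤ ((1000000000000000000 : ℕ) : ℝ) * S 408 45499913 :=
  chain t185 okB seg185 _ rfl

theorem t187 : ((430691530262644758 : ℕ) : ℝ) ≤ ((1000000000000000000 : ℕ) : ℝ) * S 408 45770617 :=
  chain t186 okB seg186 _ rfl

theorem t188 : ((430780753352508472 : ℕ) : ℝ) ≤ ((1000000000000000000 : ℕ) : ℝ) * S 408 46042547 :=
  chain t187 okB seg187 _ rfl

theorem t189 : ((430869447797205368 : ℕ) : ℝ) ≤ ((1000000000000000000 : ℕ) : ℝ) * S 408 46319593 :=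
  chain t188 okB seg188 _ rfl

theorem t190 : ((430957611670219769 : ℕ) : ℝ) ≤ ((1000000000000000000 : ℕ) : ℝ) * S 408 46601411 :=
  chain t189 okB seg189 _ rfl

theorem t191 : ((431045255085098558 : ℕ) : ℝ) ≤ ((1000000000000000000 : ℕ) : ℝ) * S 408 46871131 :=
  chain t190 okB seg190 _ rfl

theorem t192 : ((431132383059934126 : ℕ) : ℝ) ≤ ((1000000000000000000 : ℕ) : ℝ) * S 408 47147951 :=
  chain t191 okB seg191 _ rfl

theorem t193 : ((431219005209533863 : ℕ) : ℝ) ≤ ((1000000000000000000 : ℕ) : ℝ) * S 408 47425451 :=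
  chain t192 okB seg192 _ rfl

theorem t194 : ((431305120133416820 : ℕ) : ℝ) ≤ ((1000000000000000000 : ℕ) : ℝ) * S 408 47705033 :=
  chain t193 okB seg193 _ rfl

theorem t195 : ((431390734384378702 : ℕ) : ℝ) ≤ ((1000000000000000000 : ℕ) : ℝ) * S 408 47981693 :=
  chain t194 okB seg194 _ rfl

theorem t196 : ((431475857891569296 : ℕ) : ℝ) ≤ ((1000000000000000000 : ℕ) : ℝ) * S 408 48257563 :=
  chain t195 okB seg195 _ rfl

theorem t197 : ((431560493163861727 : ℕ) : ℝ) ≤ ((1000000000000000000 : ℕ) : ℝ) * S 408 48536861 :=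
  chain t196 okB seg196 _ rfl

theorem t198 : ((431644644187560243 : ℕ) : ℝ) ≤ ((1000000000000000000 : ℕ) : ℝ) * S 408 48811787 :=
  chain t197 okB seg197 _ rfl

theorem t199 : ((431728323381711815 : ℕ) : ℝ) ≤ ((1000000000000000000 : ℕ) : ℝ) * S 408 49088731 :=
  chain t198 okB seg198 _ rfl

theorem t200 : ((431811524821092408 : ℕ) : ℝ) ≤ ((1000000000000000000 : ℕ) : ℝ) * S 408 49368541 :=
  chain t199 okB seg199 _ rfl

theorem t201 : ((431894262916941231 : ℕ) : ℝ) ≤ ((1000000000000000000 : ℕ) : ℝ) * S 408 49643387 :=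
  chain t200 okB seg200 _ rfl

theorem t202 : ((431976535498822589 : ℕ) : ℝ) ≤ ((1000000000000000000 : ℕ) : ℝ) * S 408 49921351 :=
  chain t201 okB seg201 _ rfl

theorem t203 : ((432058361506228088 : ℕ) : ℝ) ≤ ((1000000000000000000 : ℕ) : ℝ) * S 408 50194981 :=
  chain t202 okB seg202 _ rfl

theorem t204 : ((432139733709834737 : ℕ) : ℝ) ≤ ((1000000000000000000 : ℕ) : ℝ) * S 408 50476493 :=
  chain t203 okB seg203 _ rfl

theorem t205 : ((432220660294356642 : ℕ) : ℝ) ≤ ((1000000000000000000 : ℕ) : ℝ) * S 408 50749757 :=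
  chain t204 okB seg204 _ rfl

theorem t206 : ((432301153239263238 : ℕ) : ℝ) ≤ ((1000000000000000000 : ℕ) : ℝ) * S 408 51023521 :=
  chain t205 okB seg205 _ rfl

theorem t207 : ((432381213821737376 : ℕ) : ℝ) ≤ ((1000000000000000000 : ℕ) : ℝ) * S 408 51296153 :=
  chain t206 okB seg206 _ rfl

theorem t208 : ((432460849872306905 : ℕ) : ℝ) ≤ ((1000000000000000000 : ℕ) : ℝ) * S 408 51571607 :=
  chain t207 okB seg207 _ rfl

theorem t209 : ((432540056475921761 : ℕ) : ℝ) ≤ ((1000000000000000000 : ℕ) : ℝ) * S 408 51847753 :=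
  chain t208 okB seg208 _ rfl

theorem t210 : ((432618844468997188 : ℕ) : ℝ) ≤ ((1000000000000000000 : ℕ) : ℝ) * S 408 52124951 :=
  chain t209 okB seg209 _ rfl

theorem t211 : ((432697210421920432 : ℕ) : ℝ) ≤ ((1000000000000000000 : ℕ) : ℝ) * S 408 52410971 :=
  chain t210 okB seg210 _ rfl

theorem t212 : ((432775151446152473 : ℕ) : ℝ) ≤ ((1000000000000000000 : ℕ) : ℝ) * S 408 52692583 :=
  chain t211 okB seg211 _ rfl

theorem t213 : ((432852684435935402 : ℕ) : ℝ) ≤ ((1000000000000000000 : ℕ) : ℝ) * S 408 52968913 :=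
  chain t212 okB seg212 _ rfl

theorem t214 : ((432929810033778029 : ℕ) : ℝ) ≤ ((1000000000000000000 : ℕ) : ℝ) * S 408 53248633 :=
  chain t213 okB seg213 _ rfl

theorem t215 : ((433006528591903731 : ℕ) : ℝ) ≤ ((1000000000000000000 : ℕ) : ℝ) * S 408 53535121 :=
  chain t214 okB seg214 _ rfl

theorem t216 : ((433082838715865471 : ℕ) : ℝ) ≤ ((1000000000000000000 : ℕ) : ℝ) * S 408 53815753 :=
  chain t215 okB seg215 _ rfl

theorem t217 : ((433158752601097336 : ℕ) : ℝ) ≤ ((1000000000000000000 : ℕ) : ℝ) * S 408 54095177 :=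
  chain t216 okB seg216 _ rfl

theorem t218 : ((433234262732654582 : ℕ) : ℝ) ≤ ((1000000000000000000 : ℕ) : ℝ) * S 408 54390107 :=
  chain t217 okB seg217 _ rfl

theorem t219 : ((433309376820871106 : ℕ) : ℝ) ≤ ((1000000000000000000 : ℕ) : ℝ) * S 408 54671203 :=
  chain t218 okB seg218 _ rfl

theorem t220 : ((433384100177802838 : ℕ) : ℝ) ≤ ((1000000000000000000 : ℕ) : ℝ) * S 408 54957163 :=
  chain t219 okB seg219 _ rfl

theorem t221 : ((433458443448365088 : ℕ) : ℝ) ≤ ((1000000000000000000 : ℕ) : ℝ) * S 408 55235303 :=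
  chain t220 okB seg220 _ rfl

theorem t222 : ((433532410292637348 : ℕ) : ℝ) ≤ ((1000000000000000000 : ℕ) : ℝ) * S 408 55521233 :=
  chain t221 okB seg221 _ rfl

theorem t223 : ((433606000794209894 : ℕ) : ℝ) ≤ ((1000000000000000000 : ℕ) : ℝ) * S 408 55801231 :=
  chain t222 okB seg222 _ rfl

theorem t224 : ((433679216892022125 : ℕ) : ℝ) ≤ ((1000000000000000000 : ℕ) : ℝ) * S 408 56079851 :=
  chain t223 okB seg223 _ rfl

theorem t225 : ((433752078978167729 : ℕ) : ℝ) ≤ ((1000000000000000000 : ℕ) : ℝ) * S 408 56354087 :=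
  chain t224 okB seg224 _ rfl

theorem t226 : ((433824574451343790 : ℕ) : ℝ) ≤ ((1000000000000000000 : ℕ) : ℝ) * S 408 56641927 :=
  chain t225 okB seg225 _ rfl

theorem t227 : ((433896713819984020 : ℕ) : ℝ) ≤ ((1000000000000000000 : ℕ) : ℝ) * S 408 56917607 :=
  chain t226 okB seg226 _ rfl

theorem t228 : ((433968502091468847 : ℕ) : ℝ) ≤ ((1000000000000000000 : ℕ) : ℝ) * S 408 57199777 :=
  chain t227 okB seg227 _ rfl

theorem t229 : ((434039933507943073 : ℕ) : ℝ) ≤ ((1000000000000000000 : ℕ) : ℝ) * S 408 57485677 :=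
  chain t228 okB seg228 _ rfl

theorem t230 : ((434111011789623529 : ℕ) : ℝ) ≤ ((1000000000000000000 : ℕ) : ℝ) * S 408 57769661 :=
  chain t229 okB seg229 _ rfl

theorem t231 : ((434181738379431830 : ℕ) : ℝ) ≤ ((1000000000000000000 : ℕ) : ℝ) * S 408 58056673 :=
  chain t230 okB seg230 _ rfl

theorem t232 : ((434252128156457919 : ℕ) : ℝ) ≤ ((1000000000000000000 : ℕ) : ℝ) * S 408 58327261 :=
  chain t231 okB seg231 _ rfl

theorem t233 : ((434322185469725548 : ℕ) : ℝ) ≤ ((1000000000000000000 : ℕ) : ℝ) * S 408 58601443 :=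
  chain t232 okB seg232 _ rfl

theorem t234 : ((434391916553528551 : ℕ) : ℝ) ≤ ((1000000000000000000 : ℕ) : ℝ) * S 408 58878403 :=
  chain t233 okB seg233 _ rfl

theorem t235 : ((434461314302261807 : ℕ) : ℝ) ≤ ((1000000000000000000 : ℕ) : ℝ) * S 408 59164577 :=
  chain t234 okB seg234 _ rfl

theorem t236 : ((434530379647401076 : ℕ) : ℝ) ≤ ((1000000000000000000 : ℕ) : ℝ) * S 408 59446397 :=
  chain t235 okB seg235 _ rfl

theorem t237 : ((434599126264242004 : ℕ) : ℝ) ≤ ((1000000000000000000 : ℕ) : ℝ) * S 408 59724143 :=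
  chain t236 okB seg236 _ rfl

theorem t238 : ((434667546738634870 : ℕ) : ℝ) ≤ ((1000000000000000000 : ℕ) : ℝ) * S 408 60008671 :=
  chain t237 okB seg237 _ rfl

theorem t239 : ((434735644727487259 : ℕ) : ℝ) ≤ ((1000000000000000000 : ℕ) : ℝ) * S 408 60288797 :=
  chain t238 okB seg238 _ rfl

theorem t240 : ((434803426518023309 : ℕ) : ℝ) ≤ ((1000000000000000000 : ℕ) : ℝ) * S 408 60571003 :=
  chain t239 okB seg239 _ rfl

theorem t241 : ((434870889708358199 : ℕ) : ℝ) ≤ ((1000000000000000000 : ℕ) : ℝ) * S 408 60854273 :=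
  chain t240 okB seg240 _ rfl

theorem t242 : ((434938044400915108 : ℕ) : ℝ) ≤ ((1000000000000000000 : ℕ) : ℝ) * S 408 61133903 :=
  chain t241 okB seg241 _ rfl

theorem t243 : ((435004886088270459 : ℕ) : ℝ) ≤ ((1000000000000000000 : ℕ) : ℝ) * S 408 61421713 :=
  chain t242 okB seg242 _ rfl

theorem t244 : ((435071422881559499 : ℕ) : ℝ) ≤ ((1000000000000000000 : ℕ) : ℝ) * S 408 61708117 :=
  chain t243 okB seg243 _ rfl

theorem t245 : ((435137642512918462 : ℕ) : ℝ) ≤ ((1000000000000000000 : ℕ) : ℝ) * S 408 61994873 :=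
  chain t244 okB seg244 _ rfl

theorem t246 : ((435203564608205319 : ℕ) : ℝ) ≤ ((1000000000000000000 : ℕ) : ℝ) * S 408 62273021 :=
  chain t245 okB seg245 _ rfl

theorem t247 : ((435269195093642843 : ℕ) : ℝ) ≤ ((1000000000000000000 : ℕ) : ℝ) * S 408 62549141 :=
  chain t246 okB seg246 _ rfl

theorem t248 : ((435334532541775916 : ℕ) : ℝ) ≤ ((1000000000000000000 : ℕ) : ℝ) * S 408 62832277 :=
  chain t247 okB seg247 _ rfl

theorem t249 : ((435399573915616873 : ℕ) : ℝ) ≤ ((1000000000000000000 : ℕ) : ℝ) * S 408 63120593 :=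
  chain t248 okB seg248 _ rfl

theorem t250 : ((435464316874657822 : ℕ) : ℝ) ≤ ((1000000000000000000 : ℕ) : ℝ) * S 408 63410953 :=
  chain t249 okB seg249 _ rfl

theorem t251 : ((435528766656088274 : ℕ) : ℝ) ≤ ((1000000000000000000 : ℕ) : ℝ) * S 408 63696371 :=
  chain t250 okB seg250 _ rfl

theorem t252 : ((435592931572045012 : ℕ) : ℝ) ≤ ((1000000000000000000 : ℕ) : ℝ) * S 408 63976897 :=
  chain t251 okB seg251 _ rfl

theorem t253 : ((435656810811989682 : ℕ) : ℝ) ≤ ((1000000000000000000 : ℕ) : ℝ) * S 408 64266941 :=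
  chain t252 okB seg252 _ rfl

theorem t254 : ((435720406088836666 : ℕ) : ℝ) ≤ ((1000000000000000000 : ℕ) : ℝ) * S 408 64550111 :=
  chain t253 okB seg253 _ rfl

theorem t255 : ((435783716473146885 : ℕ) : ℝ) ≤ ((1000000000000000000 : ℕ) : ℝ) * S 408 64843343 :=
  chain t254 okB seg254 _ rfl

theorem t256 : ((435846742352370087 : ℕ) : ℝ) ≤ ((1000000000000000000 : ℕ) : ℝ) * S 408 65131243 :=
  chain t255 okB seg255 _ rfl

theorem t257 : ((435909490327753694 : ℕ) : ℝ) ≤ ((1000000000000000000 : ℕ) : ℝ) * S 408 65416567 :=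
  chain t256 okB seg256 _ rfl

theorem t258 : ((435971967361710125 : ℕ) : ℝ) ≤ ((1000000000000000000 : ℕ) : ℝ) * S 408 65706841 :=
  chain t257 okB seg257 _ rfl

theorem t259 : ((436034170229742300 : ℕ) : ℝ) ≤ ((1000000000000000000 : ℕ) : ℝ) * S 408 65989097 :=
  chain t258 okB seg258 _ rfl

theorem t260 : ((436096110390374030 : ℕ) : ℝ) ≤ ((1000000000000000000 : ℕ) : ℝ) * S 408 66266567 :=
  chain t259 okB seg259 _ rfl

theorem t261 : ((436157790644084812 : ℕ) : ℝ) ≤ ((1000000000000000000 : ℕ) : ℝ) * S 408 66551333 :=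
  chain t260 okB seg260 _ rfl

theorem t262 : ((436219210654651686 : ℕ) : ℝ) ≤ ((1000000000000000000 : ℕ) : ℝ) * S 408 66831637 :=
  chain t261 okB seg261 _ rfl

theorem t263 : ((436280366322719524 : ℕ) : ℝ) ≤ ((1000000000000000000 : ℕ) : ℝ) * S 408 67127653 :=
  chain t262 okB seg262 _ rfl

theorem t264 : ((436341257445857361 : ℕ) : ℝ) ≤ ((1000000000000000000 : ℕ) : ℝ) * S 408 67407031 :=
  chain t263 okB seg263 _ rfl

theorem t265 : ((436401891901640184 : ℕ) : ℝ) ≤ ((1000000000000000000 : ℕ) : ℝ) * S 408 67695497 :=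
  chain t264 okB seg264 _ rfl

theorem t266 : ((436462266965527398 : ℕ) : ℝ) ≤ ((1000000000000000000 : ℕ) : ℝ) * S 408 67984871 :=
  chain t265 okB seg265 _ rfl

theorem t267 : ((436522378852914539 : ℕ) : ℝ) ≤ ((1000000000000000000 : ℕ) : ℝ) * S 408 68286473 :=
  chain t266 okB seg266 _ rfl

theorem t268 : ((436582235057466193 : ℕ) : ℝ) ≤ ((1000000000000000000 : ℕ) : ℝ) * S 408 68574491 :=
  chain t267 okB seg267 _ rfl

theorem t269 : ((436641837663240700 : ℕ) : ℝ) ≤ ((1000000000000000000 : ℕ) : ℝ) * S 408 68868593 :=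
  chain t268 okB seg268 _ rfl

theorem t270 : ((436701190188276934 : ℕ) : ℝ) ≤ ((1000000000000000000 : ℕ) : ℝ) * S 408 69154711 :=
  chain t269 okB seg269 _ rfl

theorem t271 : ((436760300845172260 : ℕ) : ℝ) ≤ ((1000000000000000000 : ℕ) : ℝ) * S 408 69436951 :=
  chain t270 okB seg270 _ rfl

theorem t272 : ((436819165883028909 : ℕ) : ℝ) ≤ ((1000000000000000000 : ℕ) : ℝ) * S 408 69729683 :=
  chain t271 okB seg271 _ rfl

theorem t273 : ((436877783645330090 : ℕ) : ℝ) ≤ ((1000000000000000000 : ℕ) : ℝ) * S 408 70023281 :=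
  chain t272 okB seg272 _ rfl

theorem t274 : ((436936157197486704 : ℕ) : ℝ) ≤ ((1000000000000000000 : ℕ) : ℝ) * S 408 70319597 :=
  chain t273 okB seg273 _ rfl

theorem t275 : ((436994288199808268 : ℕ) : ℝ) ≤ ((1000000000000000000 : ℕ) : ℝ) * S 408 70603381 :=
  chain t274 okB seg274 _ rfl

theorem t276 : ((437052181566623933 : ℕ) : ℝ) ≤ ((1000000000000000000 : ℕ) : ℝ) * S 408 70894007 :=
  chain t275 okB seg275 _ rfl

theorem t277 : ((437109844871764497 : ℕ) : ℝ) ≤ ((1000000000000000000 : ℕ) : ℝ) * S 408 71172701 :=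
  chain t276 okB seg276 _ rfl

theorem t278 : ((437167281589100419 : ℕ) : ℝ) ≤ ((1000000000000000000 : ℕ) : ℝ) * S 408 71451161 :=
  chain t277 okB seg277 _ rfl

theorem t279 : ((437224492283678909 : ℕ) : ℝ) ≤ ((1000000000000000000 : ℕ) : ℝ) * S 408 71737873 :=
  chain t278 okB seg278 _ rfl

theorem t280 : ((437281470749537384 : ℕ) : ℝ) ≤ ((1000000000000000000 : ℕ) : ℝ) * S 408 72027121 :=
  chain t279 okB seg279 _ rfl

theorem t281 : ((437338226855404781 : ℕ) : ℝ) ≤ ((1000000000000000000 : ℕ) : ℝ) * S 408 72308003 :=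
  chain t280 okB seg280 _ rfl

theorem t282 : ((437394761648238644 : ℕ) : ℝ) ≤ ((1000000000000000000 : ℕ) : ℝ) * S 408 72597163 :=
  chain t281 okB seg281 _ rfl

theorem t283 : ((437451075605007383 : ℕ) : ℝ) ≤ ((1000000000000000000 : ℕ) : ℝ) * S 408 72879347 :=
  chain t282 okB seg282 _ rfl

theorem t284 : ((437507166500734071 : ℕ) : ℝ) ≤ ((1000000000000000000 : ℕ) : ℝ) * S 408 73175771 :=
  chain t283 okB seg283 _ rfl

theorem t285 : ((437563031148336042 : ℕ) : ℝ) ≤ ((1000000000000000000 : ℕ) : ℝ) * S 408 73466227 :=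
  chain t284 okB seg284 _ rfl

theorem t286 : ((437618679863007294 : ℕ) : ℝ) ≤ ((1000000000000000000 : ℕ) : ℝ) * S 408 73745293 :=
  chain t285 okB seg285 _ rfl

theorem t287 : ((437674115489046805 : ℕ) : ℝ) ≤ ((1000000000000000000 : ℕ) : ℝ) * S 408 74027951 :=
  chain t286 okB seg286 _ rfl

theorem t288 : ((437729336049824960 : ℕ) : ℝ) ≤ ((1000000000000000000 : ℕ) : ℝ) * S 408 74323211 :=
  chain t287 okB seg287 _ rfl

theorem t289 : ((437784339448560537 : ℕ) : ℝ) ≤ ((1000000000000000000 : ℕ) : ℝ) * S 408 74609987 :=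
  chain t288 okB seg288 _ rfl

theorem t290 : ((437839130877539627 : ℕ) : ℝ) ≤ ((1000000000000000000 : ℕ) : ℝ) * S 408 74897161 :=
  chain t289 okB seg289 _ rfl

theorem t291 : ((437893718236059192 : ℕ) : ℝ) ≤ ((1000000000000000000 : ℕ) : ℝ) * S 408 75177521 :=
  chain t290 okB seg290 _ rfl

theorem t292 : ((437948097331900363 : ℕ) : ℝ) ≤ ((1000000000000000000 : ℕ) : ℝ) * S 408 75465751 :=
  chain t291 okB seg291 _ rfl

theorem t293 : ((438002265702998678 : ℕ) : ℝ) ≤ ((1000000000000000000 : ℕ) : ℝ) * S 408 75761377 :=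
  chain t292 okB seg292 _ rfl

theorem t294 : ((438056230015296094 : ℕ) : ℝ) ≤ ((1000000000000000000 : ℕ) : ℝ) * S 408 76044737 :=
  chain t293 okB seg293 _ rfl

theorem t295 : ((438109986216331015 : ℕ) : ℝ) ≤ ((1000000000000000000 : ℕ) : ℝ) * S 408 76339841 :=
  chain t294 okB seg294 _ rfl

theorem t296 : ((438163541439344203 : ℕ) : ℝ) ≤ ((1000000000000000000 : ℕ) : ℝ) * S 408 76626283 :=
  chain t295 okB seg295 _ rfl

theorem t297 : ((438216895679075119 : ℕ) : ℝ) ≤ ((1000000000000000000 : ℕ) : ℝ) * S 408 76914367 :=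
  chain t296 okB seg296 _ rfl

theorem t298 : ((438270048555091680 : ℕ) : ℝ) ≤ ((1000000000000000000 : ℕ) : ℝ) * S 408 77207983 :=
  chain t297 okB seg297 _ rfl

theorem t299 : ((438322998342864432 : ℕ) : ℝ) ≤ ((1000000000000000000 : ℕ) : ℝ) * S 408 77507687 :=
  chain t298 okB seg298 _ rfl

theorem t300 : ((438375745892007103 : ℕ) : ℝ) ≤ ((1000000000000000000 : ℕ) : ℝ) * S 408 77800207 :=
  chain t299 okB seg299 _ rfl

theorem t301 : ((438428296246040139 : ℕ) : ℝ) ≤ ((1000000000000000000 : ℕ) : ℝ) * S 408 78094151 :=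
  chain t300 okB seg300 _ rfl

theorem t302 : ((438480648703314138 : ℕ) : ℝ) ≤ ((1000000000000000000 : ℕ) : ℝ) * S 408 78385823 :=
  chain t301 okB seg301 _ rfl

theorem t303 : ((438532806248205104 : ℕ) : ℝ) ≤ ((1000000000000000000 : ℕ) : ℝ) * S 408 78674983 :=
  chain t302 okB seg302 _ rfl

theorem t304 : ((438584770278100827 : ℕ) : ℝ) ≤ ((1000000000000000000 : ℕ) : ℝ) * S 408 78967417 :=
  chain t303 okB seg303 _ rfl

theorem t305 : ((438636546598050236 : ℕ) : ℝ) ≤ ((1000000000000000000 : ℕ) : ℝ) * S 408 79252493 :=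
  chain t304 okB seg304 _ rfl

theorem t306 : ((438688132431420420 : ℕ) : ℝ) ≤ ((1000000000000000000 : ℕ) : ℝ) * S 408 79544077 :=
  chain t305 okB seg305 _ rfl

theorem t307 : ((438739534572857810 : ℕ) : ℝ) ≤ ((1000000000000000000 : ℕ) : ℝ) * S 408 79834481 :=
  chain t306 okB seg306 _ rfl

theorem t308 : ((438790745672014782 : ℕ) : ℝ) ≤ ((1000000000000000000 : ℕ) : ℝ) * S 408 80130731 :=
  chain t307 okB seg307 _ rfl

theorem t309 : ((438841769914664848 : ℕ) : ℝ) ≤ ((1000000000000000000 : ℕ) : ℝ) * S 408 80418047 :=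
  chain t308 okB seg308 _ rfl

theorem t310 : ((438892609698854369 : ℕ) : ℝ) ≤ ((1000000000000000000 : ℕ) : ℝ) * S 408 80716717 :=
  chain t309 okB seg309 _ rfl

theorem t311 : ((438943263617376293 : ℕ) : ℝ) ≤ ((1000000000000000000 : ℕ) : ℝ) * S 408 81009751 :=
  chain t310 okB seg310 _ rfl

theorem t312 : ((438993737004814206 : ℕ) : ℝ) ≤ ((1000000000000000000 : ℕ) : ℝ) * S 408 81297113 :=
  chain t311 okB seg311 _ rfl

theorem t313 : ((439044030945865870 : ℕ) : ℝ) ≤ ((1000000000000000000 : ℕ) : ℝ) * S 408 81589367 :=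
  chain t312 okB seg312 _ rfl

theorem t314 : ((439094142263576117 : ℕ) : ℝ) ≤ ((1000000000000000000 : ℕ) : ℝ) * S 408 81889331 :=
  chain t313 okB seg313 _ rfl

theorem t315 : ((439144074484435511 : ℕ) : ℝ) ≤ ((1000000000000000000 : ℕ) : ℝ) * S 408 82177751 :=
  chain t314 okB seg314 _ rfl

theorem t316 : ((439193827068502204 : ℕ) : ℝ) ≤ ((1000000000000000000 : ℕ) : ℝ) * S 408 82475011 :=
  chain t315 okB seg315 _ rfl

theorem t317 : ((439243404383269179 : ℕ) : ℝ) ≤ ((1000000000000000000 : ℕ) : ℝ) * S 408 82769251 :=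
  chain t316 okB seg316 _ rfl

theorem t318 : ((439292803799365683 : ℕ) : ℝ) ≤ ((1000000000000000000 : ℕ) : ℝ) * S 408 83063467 :=
  chain t317 okB seg317 _ rfl

theorem t319 : ((439342028243245270 : ℕ) : ℝ) ≤ ((1000000000000000000 : ℕ) : ℝ) * S 408 83354477 :=
  chain t318 okB seg318 _ rfl

theorem t320 : ((439391084248997518 : ℕ) : ℝ) ≤ ((1000000000000000000 : ℕ) : ℝ) * S 408 83641463 :=
  chain t319 okB seg319 _ rfl

theorem t321 : ((439439971224700866 : ℕ) : ℝ) ≤ ((1000000000000000000 : ℕ) : ℝ) * S 408 83932421 :=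
  chain t320 okB seg320 _ rfl

theorem t322 : ((439488687225266605 : ℕ) : ℝ) ≤ ((1000000000000000000 : ℕ) : ℝ) * S 408 84225173 :=
  chain t321 okB seg321 _ rfl

theorem t323 : ((439537232130894643 : ℕ) : ℝ) ≤ ((1000000000000000000 : ℕ) : ℝ) * S 408 84518947 :=
  chain t322 okB seg322 _ rfl

theorem t324 : ((439585611033596182 : ℕ) : ℝ) ≤ ((1000000000000000000 : ℕ) : ℝ) * S 408 84810221 :=
  chain t323 okB seg323 _ rfl

theorem t325 : ((439633824870566205 : ℕ) : ℝ) ≤ ((1000000000000000000 : ℕ) : ℝ) * S 408 85093363 :=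
  chain t324 okB seg324 _ rfl

theorem t326 : ((439681879482459862 : ℕ) : ℝ) ≤ ((1000000000000000000 : ℕ) : ℝ) * S 408 85380937 :=
  chain t325 okB seg325 _ rfl

theorem t327 : ((439729771368021516 : ℕ) : ℝ) ≤ ((1000000000000000000 : ℕ) : ℝ) * S 408 85674293 :=
  chain t326 okB seg326 _ rfl

theorem t328 : ((439777498337872963 : ℕ) : ℝ) ≤ ((1000000000000000000 : ℕ) : ℝ) * S 408 85964111 :=
  chain t327 okB seg327 _ rfl

theorem t329 : ((439825063645369865 : ℕ) : ℝ) ≤ ((1000000000000000000 : ℕ) : ℝ) * S 408 86267473 :=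
  chain t328 okB seg328 _ rfl

theorem t330 : ((439872465290461818 : ℕ) : ℝ) ≤ ((1000000000000000000 : ℕ) : ℝ) * S 408 86554733 :=
  chain t329 okB seg329 _ rfl

theorem t331 : ((439919703055550243 : ℕ) : ℝ) ≤ ((1000000000000000000 : ℕ) : ℝ) * S 408 86860441 :=
  chain t330 okB seg330 _ rfl

theorem t332 : ((439966776350720292 : ℕ) : ℝ) ≤ ((1000000000000000000 : ℕ) : ℝ) * S 408 87167797 :=
  chain t331 okB seg331 _ rfl

theorem t333 : ((440013689006594968 : ℕ) : ℝ) ≤ ((1000000000000000000 : ℕ) : ℝ) * S 408 87454583 :=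
  chain t332 okB seg332 _ rfl

theorem t334 : ((440060450244026957 : ℕ) : ℝ) ≤ ((1000000000000000000 : ℕ) : ℝ) * S 408 87737873 :=
  chain t333 okB seg333 _ rfl

theorem t335 : ((440107058915066288 : ℕ) : ℝ) ≤ ((1000000000000000000 : ℕ) : ℝ) * S 408 88023667 :=
  chain t334 okB seg334 _ rfl

theorem t336 : ((440153514281616988 : ℕ) : ℝ) ≤ ((1000000000000000000 : ℕ) : ℝ) * S 408 88315531 :=
  chain t335 okB seg335 _ rfl

theorem t337 : ((440199815280232563 : ℕ) : ℝ) ≤ ((1000000000000000000 : ℕ) : ℝ) * S 408 88613573 :=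
  chain t336 okB seg336 _ rfl

theorem t338 : ((440245962727401059 : ℕ) : ℝ) ≤ ((1000000000000000000 : ℕ) : ℝ) * S 408 88910141 :=
  chain t337 okB seg337 _ rfl

theorem t339 : ((440291952973504055 : ℕ) : ℝ) ≤ ((1000000000000000000 : ℕ) : ℝ) * S 408 89213281 :=
  chain t338 okB seg338 _ rfl

theorem t340 : ((440337789971926305 : ℕ) : ℝ) ≤ ((1000000000000000000 : ℕ) : ℝ) * S 408 89513927 :=
  chain t339 okB seg339 _ rfl

theorem t341 : ((440383475266123926 : ℕ) : ℝ) ≤ ((1000000000000000000 : ℕ) : ℝ) * S 408 89804747 :=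
  chain t340 okB seg340 _ rfl

theorem t342 : ((440429009151376619 : ℕ) : ℝ) ≤ ((1000000000000000000 : ℕ) : ℝ) * S 408 90105263 :=
  chain t341 okB seg341 _ rfl

theorem t343 : ((440474393754284435 : ℕ) : ℝ) ≤ ((1000000000000000000 : ℕ) : ℝ) * S 408 90403141 :=
  chain t342 okB seg342 _ rfl

theorem t344 : ((440519629835452191 : ℕ) : ℝ) ≤ ((1000000000000000000 : ℕ) : ℝ) * S 408 90693217 :=
  chain t343 okB seg343 _ rfl

theorem t345 : ((440564722427765031 : ℕ) : ℝ) ≤ ((1000000000000000000 : ℕ) : ℝ) * S 408 90979871 :=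
  chain t344 okB seg344 _ rfl

theorem t346 : ((440609670598304844 : ℕ) : ℝ) ≤ ((1000000000000000000 : ℕ) : ℝ) * S 408 91269163 :=
  chain t345 okB seg345 _ rfl

theorem t347 : ((440654478024918436 : ℕ) : ℝ) ≤ ((1000000000000000000 : ℕ) : ℝ) * S 408 91558007 :=
  chain t346 okB seg346 _ rfl

theorem t348 : ((440699143352075159 : ℕ) : ℝ) ≤ ((1000000000000000000 : ℕ) : ℝ) * S 408 91850821 :=
  chain t347 okB seg347 _ rfl

theorem t349 : ((440743664856419155 : ℕ) : ℝ) ≤ ((1000000000000000000 : ℕ) : ℝ) * S 408 92148467 :=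
  chain t348 okB seg348 _ rfl

theorem t350 : ((440788046181295857 : ℕ) : ℝ) ≤ ((1000000000000000000 : ℕ) : ℝ) * S 408 92433541 :=
  chain t349 okB seg349 _ rfl

theorem t351 : ((440832288843398737 : ℕ) : ℝ) ≤ ((1000000000000000000 : ℕ) : ℝ) * S 408 92725357 :=
  chain t350 okB seg350 _ rfl

theorem t352 : ((440876391489215572 : ℕ) : ℝ) ≤ ((1000000000000000000 : ℕ) : ℝ) * S 408 93020443 :=
  chain t351 okB seg351 _ rfl

theorem t353 : ((440920355730397150 : ℕ) : ℝ) ≤ ((1000000000000000000 : ℕ) : ℝ) * S 408 93315217 :=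
  chain t352 okB seg352 _ rfl

theorem t354 : ((440964181027216915 : ℕ) : ℝ) ≤ ((1000000000000000000 : ℕ) : ℝ) * S 408 93609823 :=
  chain t353 okB seg353 _ rfl

theorem t355 : ((441007867159001945 : ℕ) : ℝ) ≤ ((1000000000000000000 : ℕ) : ℝ) * S 408 93911891 :=
  chain t354 okB seg354 _ rfl

theorem t356 : ((441051412367500867 : ℕ) : ℝ) ≤ ((1000000000000000000 : ℕ) : ℝ) * S 408 94208057 :=
  chain t355 okB seg355 _ rfl

theorem t357 : ((441094822460679322 : ℕ) : ℝ) ≤ ((1000000000000000000 : ℕ) : ℝ) * S 408 94498823 :=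
  chain t356 okB seg356 _ rfl

theorem t358 : ((441138097896848506 : ℕ) : ℝ) ≤ ((1000000000000000000 : ℕ) : ℝ) * S 408 94798661 :=
  chain t357 okB seg357 _ rfl

theorem t359 : ((441181241671122997 : ℕ) : ℝ) ≤ ((1000000000000000000 : ℕ) : ℝ) * S 408 95081191 :=
  chain t358 okB seg358 _ rfl

theorem t360 : ((441224250824627028 : ℕ) : ℝ) ≤ ((1000000000000000000 : ℕ) : ℝ) * S 408 95392013 :=
  chain t359 okB seg359 _ rfl

theorem t361 : ((441267123714127777 : ℕ) : ℝ) ≤ ((1000000000000000000 : ℕ) : ℝ) * S 408 95684731 :=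
  chain t360 okB seg360 _ rfl

theorem t362 : ((441309863755144278 : ℕ) : ℝ) ≤ ((1000000000000000000 : ℕ) : ℝ) * S 408 95984683 :=
  chain t361 okB seg361 _ rfl

theorem t363 : ((441352470757316394 : ℕ) : ℝ) ≤ ((1000000000000000000 : ℕ) : ℝ) * S 408 96286423 :=
  chain t362 okB seg362 _ rfl

theorem t364 : ((441394944554959987 : ℕ) : ℝ) ≤ ((1000000000000000000 : ℕ) : ℝ) * S 408 96593251 :=
  chain t363 okB seg363 _ rfl

theorem t365 : ((441437285289666569 : ℕ) : ℝ) ≤ ((1000000000000000000 : ℕ) : ℝ) * S 408 96886963 :=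
  chain t364 okB seg364 _ rfl

theorem t366 : ((441479496802797572 : ℕ) : ℝ) ≤ ((1000000000000000000 : ℕ) : ℝ) * S 408 97185877 :=
  chain t365 okB seg365 _ rfl

theorem t367 : ((441521576038222473 : ℕ) : ℝ) ≤ ((1000000000000000000 : ℕ) : ℝ) * S 408 97493303 :=
  chain t366 okB seg366 _ rfl

theorem t368 : ((441563527540947503 : ℕ) : ℝ) ≤ ((1000000000000000000 : ℕ) : ℝ) * S 408 97783831 :=
  chain t367 okB seg367 _ rfl

theorem t369 : ((441605350584542980 : ℕ) : ℝ) ≤ ((1000000000000000000 : ℕ) : ℝ) * S 408 98090123 :=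
  chain t368 okB seg368 _ rfl

theorem t370 : ((441647043673891590 : ℕ) : ℝ) ≤ ((1000000000000000000 : ℕ) : ℝ) * S 408 98393851 :=
  chain t369 okB seg369 _ rfl

theorem t371 : ((441688610856346424 : ℕ) : ℝ) ≤ ((1000000000000000000 : ℕ) : ℝ) * S 408 98687683 :=
  chain t370 okB seg370 _ rfl

theorem t372 : ((441730050864363197 : ℕ) : ℝ) ≤ ((1000000000000000000 : ℕ) : ℝ) * S 408 98996803 :=
  chain t371 okB seg371 _ rfl

theorem t373 : ((441771364885929024 : ℕ) : ℝ) ≤ ((1000000000000000000 : ℕ) : ℝ) * S 408 99298841 :=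
  chain t372 okB seg372 _ rfl

theorem t374 : ((441812551427168284 : ℕ) : ℝ) ≤ ((1000000000000000000 : ℕ) : ℝ) * S 408 99602513 :=
  chain t373 okB seg373 _ rfl

theorem t375 : ((441853614679826041 : ℕ) : ℝ) ≤ ((1000000000000000000 : ℕ) : ℝ) * S 408 99895007 :=
  chain t374 okB seg374 _ rfl

theorem t376 : ((441894556527064950 : ℕ) : ℝ) ≤ ((1000000000000000000 : ℕ) : ℝ) * S 408 100194587 :=
  chain t375 okB seg375 _ rfl

theorem t377 : ((441935377047122429 : ℕ) : ℝ) ≤ ((1000000000000000000 : ℕ) : ℝ) * S 408 100494671 :=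
  chain t376 okB seg376 _ rfl

theorem t378 : ((441976075660540191 : ℕ) : ℝ) ≤ ((1000000000000000000 : ℕ) : ℝ) * S 408 100789763 :=
  chain t377 okB seg377 _ rfl

theorem t379 : ((442016655851295778 : ℕ) : ℝ) ≤ ((1000000000000000000 : ℕ) : ℝ) * S 408 101079317 :=
  chain t378 okB seg378 _ rfl

theorem t380 : ((442057117244127010 : ℕ) : ℝ) ≤ ((1000000000000000000 : ℕ) : ℝ) * S 408 101383537 :=
  chain t379 okB seg379 _ rfl

theorem t381 : ((442097460425417996 : ℕ) : ℝ) ≤ ((1000000000000000000 : ℕ) : ℝ) * S 408 101679037 :=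
  chain t380 okB seg380 _ rfl

theorem t382 : ((442137687431264633 : ℕ) : ℝ) ≤ ((1000000000000000000 : ℕ) : ℝ) * S 408 101971907 :=
  chain t381 okB seg381 _ rfl

theorem t383 : ((442177795589829262 : ℕ) : ℝ) ≤ ((1000000000000000000 : ℕ) : ℝ) * S 408 102277501 :=
  chain t382 okB seg382 _ rfl

theorem t384 : ((442217784446370406 : ℕ) : ℝ) ≤ ((1000000000000000000 : ℕ) : ℝ) * S 408 102580727 :=
  chain t383 okB seg383 _ rfl

theorem t385 : ((442257656501739790 : ℕ) : ℝ) ≤ ((1000000000000000000 : ℕ) : ℝ) * S 408 102876841 :=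
  chain t384 okB seg384 _ rfl

theorem t386 : ((442297412519822262 : ℕ) : ℝ) ≤ ((1000000000000000000 : ℕ) : ℝ) * S 408 103179683 :=
  chain t385 okB seg385 _ rfl

theorem t387 : ((442337051984019932 : ℕ) : ℝ) ≤ ((1000000000000000000 : ℕ) : ℝ) * S 408 103478407 :=
  chain t386 okB seg386 _ rfl

theorem t388 : ((442376578571306914 : ℕ) : ℝ) ≤ ((1000000000000000000 : ℕ) : ℝ) * S 408 103776203 :=
  chain t387 okB seg387 _ rfl

theorem t389 : ((442415991802877170 : ℕ) : ℝ) ≤ ((1000000000000000000 : ℕ) : ℝ) * S 408 104069807 :=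
  chain t388 okB seg388 _ rfl

theorem t390 : ((442455292362520949 : ℕ) : ℝ) ≤ ((1000000000000000000 : ℕ) : ℝ) * S 408 104372963 :=
  chain t389 okB seg389 _ rfl

theorem t391 : ((442494482137995288 : ℕ) : ℝ) ≤ ((1000000000000000000 : ℕ) : ℝ) * S 408 104666641 :=
  chain t390 okB seg390 _ rfl

theorem t392 : ((442533560082873793 : ℕ) : ℝ) ≤ ((1000000000000000000 : ℕ) : ℝ) * S 408 104966417 :=
  chain t391 okB seg391 _ rfl

theorem t393 : ((442572527266384025 : ℕ) : ℝ) ≤ ((1000000000000000000 : ℕ) : ℝ) * S 408 105264311 :=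
  chain t392 okB seg392 _ rfl

theorem t394 : ((442611382584198677 : ℕ) : ℝ) ≤ ((1000000000000000000 : ℕ) : ℝ) * S 408 105566927 :=
  chain t393 okB seg393 _ rfl

theorem t395 : ((442650126382094533 : ℕ) : ℝ) ≤ ((1000000000000000000 : ℕ) : ℝ) * S 408 105873137 :=
  chain t394 okB seg394 _ rfl

theorem t396 : ((442688758735144651 : ℕ) : ℝ) ≤ ((1000000000000000000 : ℕ) : ℝ) * S 408 106177831 :=
  chain t395 okB seg395 _ rfl

theorem t397 : ((442727282641097513 : ℕ) : ℝ) ≤ ((1000000000000000000 : ℕ) : ℝ) * S 408 106474211 :=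
  chain t396 okB seg396 _ rfl

theorem t398 : ((442765697683971137 : ℕ) : ℝ) ≤ ((1000000000000000000 : ℕ) : ℝ) * S 408 106773341 :=
  chain t397 okB seg397 _ rfl

theorem t399 : ((442804005866402654 : ℕ) : ℝ) ≤ ((1000000000000000000 : ℕ) : ℝ) * S 408 107069773 :=
  chain t398 okB seg398 _ rfl

theorem t400 : ((442842208835731843 : ℕ) : ℝ) ≤ ((1000000000000000000 : ℕ) : ℝ) * S 408 107367277 :=
  chain t399 okB seg399 _ rfl

theorem t401 : ((442880306953613711 : ℕ) : ℝ) ≤ ((1000000000000000000 : ℕ) : ℝ) * S 408 107661133 :=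
  chain t400 okB seg400 _ rfl

theorem t402 : ((442918298985251767 : ℕ) : ℝ) ≤ ((1000000000000000000 : ℕ) : ℝ) * S 408 107967157 :=
  chain t401 okB seg401 _ rfl

theorem t403 : ((442956184959526709 : ℕ) : ℝ) ≤ ((1000000000000000000 : ℕ) : ℝ) * S 408 108262321 :=
  chain t402 okB seg402 _ rfl

theorem t404 : ((442993967330731860 : ℕ) : ℝ) ≤ ((1000000000000000000 : ℕ) : ℝ) * S 408 108558547 :=
  chain t403 okB seg403 _ rfl

theorem t405 : ((443031645843859731 : ℕ) : ℝ) ≤ ((1000000000000000000 : ℕ) : ℝ) * S 408 108855863 :=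
  chain t404 okB seg404 _ rfl

theorem t406 : ((443069220472677612 : ℕ) : ℝ) ≤ ((1000000000000000000 : ℕ) : ℝ) * S 408 109159591 :=
  chain t405 okB seg405 _ rfl

theorem t407 : ((443106691168078300 : ℕ) : ℝ) ≤ ((1000000000000000000 : ℕ) : ℝ) * S 408 109461007 :=
  chain t406 okB seg406 _ rfl

theorem t408 : ((443144059053784751 : ℕ) : ℝ) ≤ ((1000000000000000000 : ℕ) : ℝ) * S 408 109766641 :=
  chain t407 okB seg407 _ rfl

theorem t409 : ((443181323882155414 : ℕ) : ℝ) ≤ ((1000000000000000000 : ℕ) : ℝ) * S 408 110065567 :=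
  chain t408 okB seg408 _ rfl

theorem t410 : ((443218486504136474 : ℕ) : ℝ) ≤ ((1000000000000000000 : ℕ) : ℝ) * S 408 110367373 :=
  chain t409 okB seg409 _ rfl

theorem t411 : ((443255548705733879 : ℕ) : ℝ) ≤ ((1000000000000000000 : ℕ) : ℝ) * S 408 110668751 :=
  chain t410 okB seg410 _ rfl

theorem t412 : ((443292509378120104 : ℕ) : ℝ) ≤ ((1000000000000000000 : ℕ) : ℝ) * S 408 110974553 :=
  chain t411 okB seg411 _ rfl

theorem t413 : ((443329369270263093 : ℕ) : ℝ) ≤ ((1000000000000000000 : ℕ) : ℝ) * S 408 111273251 :=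
  chain t412 okB seg412 _ rfl

theorem t414 : ((443366131161485080 : ℕ) : ℝ) ≤ ((1000000000000000000 : ℕ) : ℝ) * S 408 111570491 :=
  chain t413 okB seg413 _ rfl

theorem t415 : ((443402793024040776 : ℕ) : ℝ) ≤ ((1000000000000000000 : ℕ) : ℝ) * S 408 111874957 :=
  chain t414 okB seg414 _ rfl

theorem t416 : ((443439355898088960 : ℕ) : ℝ) ≤ ((1000000000000000000 : ℕ) : ℝ) * S 408 112175831 :=
  chain t415 okB seg415 _ rfl

theorem t417 : ((443475821513957114 : ℕ) : ℝ) ≤ ((1000000000000000000 : ℕ) : ℝ) * S 408 112477913 :=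
  chain t416 okB seg416 _ rfl

theorem t418 : ((443512189118776904 : ℕ) : ℝ) ≤ ((1000000000000000000 : ℕ) : ℝ) * S 408 112777193 :=
  chain t417 okB seg417 _ rfl

theorem t419 : ((443548458815659643 : ℕ) : ℝ) ≤ ((1000000000000000000 : ℕ) : ℝ) * S 408 113080573 :=
  chain t418 okB seg418 _ rfl

theorem t420 : ((443584633986412704 : ℕ) : ℝ) ≤ ((1000000000000000000 : ℕ) : ℝ) * S 408 113369693 :=
  chain t419 okB seg419 _ rfl

theorem t421 : ((443620713969904986 : ℕ) : ℝ) ≤ ((1000000000000000000 : ℕ) : ℝ) * S 408 113679227 :=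
  chain t420 okB seg420 _ rfl

theorem t422 : ((443656696998004352 : ℕ) : ℝ) ≤ ((1000000000000000000 : ℕ) : ℝ) * S 408 113983511 :=
  chain t421 okB seg421 _ rfl

theorem t423 : ((443692583124473998 : ℕ) : ℝ) ≤ ((1000000000000000000 : ℕ) : ℝ) * S 408 114288803 :=
  chain t422 okB seg422 _ rfl

theorem t424 : ((443728374676974726 : ℕ) : ℝ) ≤ ((1000000000000000000 : ℕ) : ℝ) * S 408 114600653 :=
  chain t423 okB seg423 _ rfl

theorem t425 : ((443764070781003845 : ℕ) : ℝ) ≤ ((1000000000000000000 : ℕ) : ℝ) * S 408 114897631 :=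
  chain t424 okB seg424 _ rfl

theorem t426 : ((443799672451866136 : ℕ) : ℝ) ≤ ((1000000000000000000 : ℕ) : ℝ) * S 408 115203553 :=
  chain t425 okB seg425 _ rfl

theorem t427 : ((443835180514161163 : ℕ) : ℝ) ≤ ((1000000000000000000 : ℕ) : ℝ) * S 408 115509211 :=
  chain t426 okB seg426 _ rfl

theorem t428 : ((443870593990491650 : ℕ) : ℝ) ≤ ((1000000000000000000 : ℕ) : ℝ) * S 408 115815493 :=
  chain t427 okB seg427 _ rfl

theorem t429 : ((443905913917727356 : ℕ) : ℝ) ≤ ((1000000000000000000 : ℕ) : ℝ) * S 408 116120311 :=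
  chain t428 okB seg428 _ rfl

theorem t430 : ((443941141217048399 : ℕ) : ℝ) ≤ ((1000000000000000000 : ℕ) : ℝ) * S 408 116423443 :=
  chain t429 okB seg429 _ rfl

theorem t431 : ((443976279632571941 : ℕ) : ℝ) ≤ ((1000000000000000000 : ℕ) : ℝ) * S 408 116716351 :=
  chain t430 okB seg430 _ rfl

theorem t432 : ((444011327690225686 : ℕ) : ℝ) ≤ ((1000000000000000000 : ℕ) : ℝ) * S 408 117019703 :=
  chain t431 okB seg431 _ rfl

theorem t433 : ((444046286690756371 : ℕ) : ℝ) ≤ ((1000000000000000000 : ℕ) : ℝ) * S 408 117315041 :=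
  chain t432 okB seg432 _ rfl

theorem t434 : ((444081155305230699 : ℕ) : ℝ) ≤ ((1000000000000000000 : ℕ) : ℝ) * S 408 117618401 :=
  chain t433 okB seg433 _ rfl

theorem t435 : ((444115934486733911 : ℕ) : ℝ) ≤ ((1000000000000000000 : ℕ) : ℝ) * S 408 117922951 :=
  chain t434 okB seg434 _ rfl

theorem t436 : ((444150624182778124 : ℕ) : ℝ) ≤ ((1000000000000000000 : ℕ) : ℝ) * S 408 118230317 :=
  chain t435 okB seg435 _ rfl

theorem t437 : ((444185224843647261 : ℕ) : ℝ) ≤ ((1000000000000000000 : ℕ) : ℝ) * S 408 118529891 :=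
  chain t436 okB seg436 _ rfl

theorem t438 : ((444219737096393715 : ℕ) : ℝ) ≤ ((1000000000000000000 : ℕ) : ℝ) * S 408 118828981 :=
  chain t437 okB seg437 _ rfl

theorem t439 : ((444254163440064824 : ℕ) : ℝ) ≤ ((1000000000000000000 : ℕ) : ℝ) * S 408 119134297 :=
  chain t438 okB seg438 _ rfl

theorem t440 : ((444288502104550768 : ℕ) : ℝ) ≤ ((1000000000000000000 : ℕ) : ℝ) * S 408 119435161 :=
  chain t439 okB seg439 _ rfl

theorem t441 : ((444322752682959879 : ℕ) : ℝ) ≤ ((1000000000000000000 : ℕ) : ℝ) * S 408 119741393 :=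
  chain t440 okB seg440 _ rfl

theorem t442 : ((444356918239313207 : ℕ) : ℝ) ≤ ((1000000000000000000 : ℕ) : ℝ) * S 408 120031853 :=
  chain t441 okB seg441 _ rfl

theorem t443 : ((444390998705165179 : ℕ) : ℝ) ≤ ((1000000000000000000 : ℕ) : ℝ) * S 408 120342253 :=
  chain t442 okB seg442 _ rfl

theorem t444 : ((444424991728449025 : ℕ) : ℝ) ≤ ((1000000000000000000 : ℕ) : ℝ) * S 408 120646627 :=
  chain t443 okB seg443 _ rfl

theorem t445 : ((444458897055492831 : ℕ) : ℝ) ≤ ((1000000000000000000 : ℕ) : ℝ) * S 408 120964861 :=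
  chain t444 okB seg444 _ rfl

theorem t446 : ((444492714761905545 : ℕ) : ℝ) ≤ ((1000000000000000000 : ℕ) : ℝ) * S 408 121272251 :=
  chain t445 okB seg445 _ rfl

theorem t447 : ((444526448009963121 : ℕ) : ℝ) ≤ ((1000000000000000000 : ℕ) : ℝ) * S 408 121572617 :=
  chain t446 okB seg446 _ rfl

theorem t448 : ((444560096952477987 : ℕ) : ℝ) ≤ ((1000000000000000000 : ℕ) : ℝ) * S 408 121879361 :=
  chain t447 okB seg447 _ rfl

theorem t449 : ((444593663048038136 : ℕ) : ℝ) ≤ ((1000000000000000000 : ℕ) : ℝ) * S 408 122176421 :=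
  chain t448 okB seg448 _ rfl

theorem t450 : ((444627146404443065 : ℕ) : ℝ) ≤ ((1000000000000000000 : ℕ) : ℝ) * S 408 122484353 :=
  chain t449 okB seg449 _ rfl

theorem t451 : ((444660545605123978 : ℕ) : ℝ) ≤ ((1000000000000000000 : ℕ) : ℝ) * S 408 122788997 :=
  chain t450 okB seg450 _ rfl

theorem t452 : ((444693860688783644 : ℕ) : ℝ) ≤ ((1000000000000000000 : ℕ) : ℝ) * S 408 123107021 :=
  chain t451 okB seg451 _ rfl

theorem t453 : ((444727093170260129 : ℕ) : ℝ) ≤ ((1000000000000000000 : ℕ) : ℝ) * S 408 123399667 :=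
  chain t452 okB seg452 _ rfl

theorem t454 : ((444760245821326932 : ℕ) : ℝ) ≤ ((1000000000000000000 : ℕ) : ℝ) * S 408 123701251 :=
  chain t453 okB seg453 _ rfl

theorem t455 : ((444793316857180395 : ℕ) : ℝ) ≤ ((1000000000000000000 : ℕ) : ℝ) * S 408 124004143 :=
  chain t454 okB seg454 _ rfl

theorem t456 : ((444826309112971348 : ℕ) : ℝ) ≤ ((1000000000000000000 : ℕ) : ℝ) * S 408 124295761 :=
  chain t455 okB seg455 _ rfl

theorem t457 : ((444859224036112124 : ℕ) : ℝ) ≤ ((1000000000000000000 : ℕ) : ℝ) * S 408 124594553 :=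
  chain t456 okB seg456 _ rfl

theorem t458 : ((444892058034554838 : ℕ) : ℝ) ≤ ((1000000000000000000 : ℕ) : ℝ) * S 408 124904497 :=
  chain t457 okB seg457 _ rfl

theorem t459 : ((444924810120496505 : ℕ) : ℝ) ≤ ((1000000000000000000 : ℕ) : ℝ) * S 408 125211551 :=
  chain t458 okB seg458 _ rfl

theorem t460 : ((444957483371705608 : ℕ) : ℝ) ≤ ((1000000000000000000 : ℕ) : ℝ) * S 408 125514091 :=
  chain t459 okB seg459 _ rfl

theorem t461 : ((444990077460735414 : ℕ) : ℝ) ≤ ((1000000000000000000 : ℕ) : ℝ) * S 408 125816617 :=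
  chain t460 okB seg460 _ rfl

theorem t462 : ((445022593734557797 : ℕ) : ℝ) ≤ ((1000000000000000000 : ℕ) : ℝ) * S 408 126120047 :=
  chain t461 okB seg461 _ rfl

theorem t463 : ((445055032470059038 : ℕ) : ℝ) ≤ ((1000000000000000000 : ℕ) : ℝ) * S 408 126416621 :=
  chain t462 okB seg462 _ rfl

theorem t464 : ((445087393260003579 : ℕ) : ℝ) ≤ ((1000000000000000000 : ℕ) : ℝ) * S 408 126727501 :=
  chain t463 okB seg463 _ rfl

theorem t465 : ((445119676460985852 : ℕ) : ℝ) ≤ ((1000000000000000000 : ℕ) : ℝ) * S 408 127027603 :=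
  chain t464 okB seg464 _ rfl

theorem t466 : ((445151883224828199 : ℕ) : ℝ) ≤ ((1000000000000000000 : ℕ) : ℝ) * S 408 127332487 :=
  chain t465 okB seg465 _ rfl

theorem t467 : ((445184012719186123 : ℕ) : ℝ) ≤ ((1000000000000000000 : ℕ) : ℝ) * S 408 127633823 :=
  chain t466 okB seg466 _ rfl

theorem t468 : ((445216065818823155 : ℕ) : ℝ) ≤ ((1000000000000000000 : ℕ) : ℝ) * S 408 127942603 :=
  chain t467 okB seg467 _ rfl

theorem t469 : ((445248041899684638 : ℕ) : ℝ) ≤ ((1000000000000000000 : ℕ) : ℝ) * S 408 128249603 :=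
  chain t468 okB seg468 _ rfl

theorem t470 : ((445279941299387639 : ℕ) : ℝ) ≤ ((1000000000000000000 : ℕ) : ℝ) * S 408 128551981 :=
  chain t469 okB seg469 _ rfl

theorem t471 : ((445311766449213058 : ℕ) : ℝ) ≤ ((1000000000000000000 : ℕ) : ℝ) * S 408 128854457 :=
  chain t470 okB seg470 _ rfl

theorem t472 : ((445343515373435058 : ℕ) : ℝ) ≤ ((1000000000000000000 : ℕ) : ℝ) * S 408 129170537 :=
  chain t471 okB seg471 _ rfl

theorem t473 : ((445375187694957916 : ℕ) : ℝ) ≤ ((1000000000000000000 : ℕ) : ℝ) * S 408 129477203 :=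
  chain t472 okB seg472 _ rfl

theorem t474 : ((445406784624077747 : ℕ) : ℝ) ≤ ((1000000000000000000 : ℕ) : ℝ) * S 408 129787583 :=
  chain t473 okB seg473 _ rfl

theorem t475 : ((445438305352825036 : ℕ) : ℝ) ≤ ((1000000000000000000 : ℕ) : ℝ) * S 408 130095083 :=
  chain t474 okB seg474 _ rfl

theorem t476 : ((445469752712563914 : ℕ) : ℝ) ≤ ((1000000000000000000 : ℕ) : ℝ) * S 408 130407247 :=
  chain t475 okB seg475 _ rfl

theorem t477 : ((445501125110835646 : ℕ) : ℝ) ≤ ((1000000000000000000 : ℕ) : ℝ) * S 408 130714867 :=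
  chain t476 okB seg476 _ rfl

theorem t478 : ((445532424587564915 : ℕ) : ℝ) ≤ ((1000000000000000000 : ℕ) : ℝ) * S 408 131008513 :=
  chain t477 okB seg477 _ rfl

theorem t479 : ((445563654298378640 : ℕ) : ℝ) ≤ ((1000000000000000000 : ℕ) : ℝ) * S 408 131308207 :=
  chain t478 okB seg478 _ rfl

theorem t480 : ((445594810243831843 : ℕ) : ℝ) ≤ ((1000000000000000000 : ℕ) : ℝ) * S 408 131625737 :=
  chain t479 okB seg479 _ rfl

theorem t481 : ((445625892498416258 : ℕ) : ℝ) ≤ ((1000000000000000000 : ℕ) : ℝ) * S 408 131932027 :=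
  chain t480 okB seg480 _ rfl

theorem t482 : ((445656902579022518 : ℕ) : ℝ) ≤ ((1000000000000000000 : ℕ) : ℝ) * S 408 132241897 :=
  chain t481 okB seg481 _ rfl

theorem t483 : ((445687840763326768 : ℕ) : ℝ) ≤ ((1000000000000000000 : ℕ) : ℝ) * S 408 132542821 :=
  chain t482 okB seg482 _ rfl

theorem t484 : ((445718706615683291 : ℕ) : ℝ) ≤ ((1000000000000000000 : ℕ) : ℝ) * S 408 132854861 :=
  chain t483 okB seg483 _ rfl

theorem t485 : ((445749501854349186 : ℕ) : ℝ) ≤ ((1000000000000000000 : ℕ) : ℝ) * S 408 133158871 :=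
  chain t484 okB seg484 _ rfl

theorem t486 : ((445780225831415148 : ℕ) : ℝ) ≤ ((1000000000000000000 : ℕ) : ℝ) * S 408 133469003 :=
  chain t485 okB seg485 _ rfl

theorem t487 : ((445810878227399452 : ℕ) : ℝ) ≤ ((1000000000000000000 : ℕ) : ℝ) * S 408 133782941 :=
  chain t486 okB seg486 _ rfl

theorem t488 : ((445841460298574896 : ℕ) : ℝ) ≤ ((1000000000000000000 : ℕ) : ℝ) * S 408 134089667 :=
  chain t487 okB seg487 _ rfl

theorem t489 : ((445871973164044084 : ℕ) : ℝ) ≤ ((1000000000000000000 : ℕ) : ℝ) * S 408 134388151 :=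
  chain t488 okB seg488 _ rfl

theorem t490 : ((445902416773598936 : ℕ) : ℝ) ≤ ((1000000000000000000 : ℕ) : ℝ) * S 408 134700281 :=
  chain t489 okB seg489 _ rfl

theorem t491 : ((445932790333638391 : ℕ) : ℝ) ≤ ((1000000000000000000 : ℕ) : ℝ) * S 408 135014311 :=
  chain t490 okB seg490 _ rfl

theorem t492 : ((445963094061222069 : ℕ) : ℝ) ≤ ((1000000000000000000 : ℕ) : ℝ) * S 408 135311791 :=
  chain t491 okB seg491 _ rfl

theorem t493 : ((445993329759817738 : ℕ) : ℝ) ≤ ((1000000000000000000 : ℕ) : ℝ) * S 408 135627587 :=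
  chain t492 okB seg492 _ rfl

theorem t494 : ((446023495733072926 : ℕ) : ℝ) ≤ ((1000000000000000000 : ℕ) : ℝ) * S 408 135933937 :=
  chain t493 okB seg493 _ rfl

theorem t495 : ((446053594812691527 : ℕ) : ℝ) ≤ ((1000000000000000000 : ℕ) : ℝ) * S 408 136238287 :=
  chain t494 okB seg494 _ rfl

theorem t496 : ((446083624909394895 : ℕ) : ℝ) ≤ ((1000000000000000000 : ℕ) : ℝ) * S 408 136552021 :=
  chain t495 okB seg495 _ rfl

theorem t497 : ((446113587551701509 : ℕ) : ℝ) ≤ ((1000000000000000000 : ℕ) : ℝ) * S 408 136850557 :=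
  chain t496 okB seg496 _ rfl

theorem t498 : ((446143485163017496 : ℕ) : ℝ) ≤ ((1000000000000000000 : ℕ) : ℝ) * S 408 137160167 :=
  chain t497 okB seg497 _ rfl

theorem t499 : ((446173315218201477 : ℕ) : ℝ) ≤ ((1000000000000000000 : ℕ) : ℝ) * S 408 137458291 :=
  chain t498 okB seg498 _ rfl

theorem t500 : ((446203078264551588 : ℕ) : ℝ) ≤ ((1000000000000000000 : ℕ) : ℝ) * S 408 137783603 :=
  chain t499 okB seg499 _ rfl

theorem t501 : ((446232771957009297 : ℕ) : ℝ) ≤ ((1000000000000000000 : ℕ) : ℝ) * S 408 138095537 :=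
  chain t500 okB seg500 _ rfl

theorem t502 : ((446262399218922468 : ℕ) : ℝ) ≤ ((1000000000000000000 : ℕ) : ℝ) * S 408 138405187 :=
  chain t501 okB seg501 _ rfl

theorem t503 : ((446291960914005616 : ℕ) : ℝ) ≤ ((1000000000000000000 : ℕ) : ℝ) * S 408 138713593 :=
  chain t502 okB seg502 _ rfl

theorem t504 : ((446321457298149604 : ℕ) : ℝ) ≤ ((1000000000000000000 : ℕ) : ℝ) * S 408 139019723 :=
  chain t503 okB seg503 _ rfl

theorem t505 : ((446350888324165895 : ℕ) : ℝ) ≤ ((1000000000000000000 : ℕ) : ℝ) * S 408 139324453 :=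
  chain t504 okB seg504 _ rfl

theorem t506 : ((446380254980356050 : ℕ) : ℝ) ≤ ((1000000000000000000 : ℕ) : ℝ) * S 408 139625723 :=
  chain t505 okB seg505 _ rfl

theorem t507 : ((446409558204083611 : ℕ) : ℝ) ≤ ((1000000000000000000 : ℕ) : ℝ) * S 408 139932487 :=
  chain t506 okB seg506 _ rfl

theorem t508 : ((446438796622800070 : ℕ) : ℝ) ≤ ((1000000000000000000 : ℕ) : ℝ) * S 408 140250161 :=
  chain t507 okB seg507 _ rfl

theorem t509 : ((446467969024581832 : ℕ) : ℝ) ≤ ((1000000000000000000 : ℕ) : ℝ) * S 408 140567137 :=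
  chain t508 okB seg508 _ rfl

theorem t510 : ((446497077460535860 : ℕ) : ℝ) ≤ ((1000000000000000000 : ℕ) : ℝ) * S 408 140873471 :=
  chain t509 okB seg509 _ rfl

theorem t511 : ((446526121401010742 : ℕ) : ℝ) ≤ ((1000000000000000000 : ℕ) : ℝ) * S 408 141182117 :=
  chain t510 okB seg510 _ rfl

theorem t512 : ((446555102335971386 : ℕ) : ℝ) ≤ ((1000000000000000000 : ℕ) : ℝ) * S 408 141484901 :=
  chain t511 okB seg511 _ rfl

theorem t513 : ((446584021182277250 : ℕ) : ℝ) ≤ ((1000000000000000000 : ℕ) : ℝ) * S 408 141790127 :=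
  chain t512 okB seg512 _ rfl

theorem t514 : ((446612877280976840 : ℕ) : ℝ) ≤ ((1000000000000000000 : ℕ) : ℝ) * S 408 142103471 :=
  chain t513 okB seg513 _ rfl

theorem t515 : ((446641671923786175 : ℕ) : ℝ) ≤ ((1000000000000000000 : ℕ) : ℝ) * S 408 142394171 :=
  chain t514 okB seg514 _ rfl

theorem t516 : ((446670405188042836 : ℕ) : ℝ) ≤ ((1000000000000000000 : ℕ) : ℝ) * S 408 142707827 :=
  chain t515 okB seg515 _ rfl

theorem t517 : ((446699077025599927 : ℕ) : ℝ) ≤ ((1000000000000000000 : ℕ) : ℝ) * S 408 143006531 :=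
  chain t516 okB seg516 _ rfl

theorem t518 : ((446727687470274073 : ℕ) : ℝ) ≤ ((1000000000000000000 : ℕ) : ℝ) * S 408 143321131 :=
  chain t517 okB seg517 _ rfl

theorem t519 : ((446756236391773630 : ℕ) : ℝ) ≤ ((1000000000000000000 : ℕ) : ℝ) * S 408 143623171 :=
  chain t518 okB seg518 _ rfl

theorem t520 : ((446784725140428595 : ℕ) : ℝ) ≤ ((1000000000000000000 : ℕ) : ℝ) * S 408 143929613 :=
  chain t519 okB seg519 _ rfl

theorem t521 : ((446813153484777106 : ℕ) : ℝ) ≤ ((1000000000000000000 : ℕ) : ℝ) * S 408 144233407 :=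
  chain t520 okB seg520 _ rfl

theorem t522 : ((446841520791720097 : ℕ) : ℝ) ≤ ((1000000000000000000 : ℕ) : ℝ) * S 408 144548477 :=
  chain t521 okB seg521 _ rfl

theorem t523 : ((446869827217324104 : ℕ) : ℝ) ≤ ((1000000000000000000 : ℕ) : ℝ) * S 408 144859763 :=
  chain t522 okB seg522 _ rfl

theorem t524 : ((446898071240597598 : ℕ) : ℝ) ≤ ((1000000000000000000 : ℕ) : ℝ) * S 408 145180361 :=
  chain t523 okB seg523 _ rfl

theorem t525 : ((446926255089146913 : ℕ) : ℝ) ≤ ((1000000000000000000 : ℕ) : ℝ) * S 408 145482083 :=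
  chain t524 okB seg524 _ rfl

theorem t526 : ((446954379978895531 : ℕ) : ℝ) ≤ ((1000000000000000000 : ℕ) : ℝ) * S 408 145795933 :=
  chain t525 okB seg525 _ rfl

theorem t527 : ((446982445368488545 : ℕ) : ℝ) ≤ ((1000000000000000000 : ℕ) : ℝ) * S 408 146098577 :=
  chain t526 okB seg526 _ rfl

theorem t528 : ((447010452228995172 : ℕ) : ℝ) ≤ ((1000000000000000000 : ℕ) : ℝ) * S 408 146402951 :=
  chain t527 okB seg527 _ rfl

theorem t529 : ((447038400538204448 : ℕ) : ℝ) ≤ ((1000000000000000000 : ℕ) : ℝ) * S 408 146707111 :=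
  chain t528 okB seg528 _ rfl

theorem t530 : ((447066290562790147 : ℕ) : ℝ) ≤ ((1000000000000000000 : ℕ) : ℝ) * S 408 147011581 :=
  chain t529 okB seg529 _ rfl

theorem t531 : ((447094123675862827 : ℕ) : ℝ) ≤ ((1000000000000000000 : ℕ) : ℝ) * S 408 147322277 :=
  chain t530 okB seg530 _ rfl

theorem t532 : ((447121897388706561 : ℕ) : ℝ) ≤ ((1000000000000000000 : ℕ) : ℝ) * S 408 147631243 :=
  chain t531 okB seg531 _ rfl

theorem t533 : ((447149613700765172 : ℕ) : ℝ) ≤ ((1000000000000000000 : ℕ) : ℝ) * S 408 147936037 :=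
  chain t532 okB seg532 _ rfl

theorem t534 : ((447177272232361397 : ℕ) : ℝ) ≤ ((1000000000000000000 : ℕ) : ℝ) * S 408 148248803 :=
  chain t533 okB seg533 _ rfl

theorem t535 : ((447204871980237000 : ℕ) : ℝ) ≤ ((1000000000000000000 : ℕ) : ℝ) * S 408 148564217 :=
  chain t534 okB seg534 _ rfl

theorem t536 : ((447232414059586157 : ℕ) : ℝ) ≤ ((1000000000000000000 : ℕ) : ℝ) * S 408 148870483 :=
  chain t535 okB seg535 _ rfl

theorem t537 : ((447259898372613953 : ℕ) : ℝ) ≤ ((1000000000000000000 : ℕ) : ℝ) * S 408 149191261 :=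
  chain t536 okB seg536 _ rfl

theorem t538 : ((447287323187934758 : ℕ) : ℝ) ≤ ((1000000000000000000 : ℕ) : ℝ) * S 408 149515463 :=
  chain t537 okB seg537 _ rfl

theorem t539 : ((447314690617857306 : ℕ) : ℝ) ≤ ((1000000000000000000 : ℕ) : ℝ) * S 408 149824901 :=
  chain t538 okB seg538 _ rfl

theorem t540 : ((447342000549490066 : ℕ) : ℝ) ≤ ((1000000000000000000 : ℕ) : ℝ) * S 408 150142463 :=
  chain t539 okB seg539 _ rfl

theorem t541 : ((447369252152104295 : ℕ) : ℝ) ≤ ((1000000000000000000 : ℕ) : ℝ) * S 408 150462451 :=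
  chain t540 okB seg540 _ rfl

theorem t542 : ((447396446214805364 : ℕ) : ℝ) ≤ ((1000000000000000000 : ℕ) : ℝ) * S 408 150782831 :=
  chain t541 okB seg541 _ rfl

theorem t543 : ((447423582929604603 : ℕ) : ℝ) ≤ ((1000000000000000000 : ℕ) : ℝ) * S 408 151093847 :=
  chain t542 okB seg542 _ rfl

theorem t544 : ((447450664422633200 : ℕ) : ℝ) ≤ ((1000000000000000000 : ℕ) : ℝ) * S 408 151400273 :=
  chain t543 okB seg543 _ rfl

theorem t545 : ((447477690275044773 : ℕ) : ℝ) ≤ ((1000000000000000000 : ℕ) : ℝ) * S 408 151719907 :=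
  chain t544 okB seg544 _ rfl

theorem t546 : ((447504659111598246 : ℕ) : ℝ) ≤ ((1000000000000000000 : ℕ) : ℝ) * S 408 152037371 :=
  chain t545 okB seg545 _ rfl

theorem t547 : ((447531571755066149 : ℕ) : ℝ) ≤ ((1000000000000000000 : ℕ) : ℝ) * S 408 152352847 :=
  chain t546 okB seg546 _ rfl

theorem t548 : ((447558430004241356 : ℕ) : ℝ) ≤ ((1000000000000000000 : ℕ) : ℝ) * S 408 152653247 :=
  chain t547 okB seg547 _ rfl

theorem t549 : ((447585233956160848 : ℕ) : ℝ) ≤ ((1000000000000000000 : ℕ) : ℝ) * S 408 152976001 :=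
  chain t548 okB seg548 _ rfl

theorem t550 : ((447611982477126890 : ℕ) : ℝ) ≤ ((1000000000000000000 : ℕ) : ℝ) * S 408 153285023 :=
  chain t549 okB seg549 _ rfl

theorem t551 : ((447638676820030319 : ℕ) : ℝ) ≤ ((1000000000000000000 : ℕ) : ℝ) * S 408 153598091 :=
  chain t550 okB seg550 _ rfl

theorem t552 : ((447665317034646787 : ℕ) : ℝ) ≤ ((1000000000000000000 : ℕ) : ℝ) * S 408 153901933 :=
  chain t551 okB seg551 _ rfl

theorem t553 : ((447691904124826104 : ℕ) : ℝ) ≤ ((1000000000000000000 : ℕ) : ℝ) * S 408 154216393 :=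
  chain t552 okB seg552 _ rfl

theorem t554 : ((447718437851775946 : ℕ) : ℝ) ≤ ((1000000000000000000 : ℕ) : ℝ) * S 408 154521937 :=
  chain t553 okB seg553 _ rfl

theorem t555 : ((447744919657086566 : ℕ) : ℝ) ≤ ((1000000000000000000 : ℕ) : ℝ) * S 408 154829447 :=
  chain t554 okB seg554 _ rfl

theorem t556 : ((447771348381567475 : ℕ) : ℝ) ≤ ((1000000000000000000 : ℕ) : ℝ) * S 408 155139833 :=
  chain t555 okB seg555 _ rfl

theorem t557 : ((447797724298821490 : ℕ) : ℝ) ≤ ((1000000000000000000 : ℕ) : ℝ) * S 408 155445233 :=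
  chain t556 okB seg556 _ rfl

theorem t558 : ((447824048637137424 : ℕ) : ℝ) ≤ ((1000000000000000000 : ℕ) : ℝ) * S 408 155755357 :=
  chain t557 okB seg557 _ rfl

theorem t559 : ((447850319932847761 : ℕ) : ℝ) ≤ ((1000000000000000000 : ℕ) : ℝ) * S 408 156068267 :=
  chain t558 okB seg558 _ rfl

theorem t560 : ((447876537965467247 : ℕ) : ℝ) ≤ ((1000000000000000000 : ℕ) : ℝ) * S 408 156383401 :=
  chain t559 okB seg559 _ rfl

theorem t561 : ((447902703827616646 : ℕ) : ℝ) ≤ ((1000000000000000000 : ℕ) : ℝ) * S 408 156696011 :=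
  chain t560 okB seg560 _ rfl

theorem t562 : ((447928816800389966 : ℕ) : ℝ) ≤ ((1000000000000000000 : ℕ) : ℝ) * S 408 157015777 :=
  chain t561 okB seg561 _ rfl

theorem t563 : ((447954878130341610 : ℕ) : ℝ) ≤ ((1000000000000000000 : ℕ) : ℝ) * S 408 157325821 :=
  chain t562 okB seg562 _ rfl

theorem t564 : ((447980887561069122 : ℕ) : ℝ) ≤ ((1000000000000000000 : ℕ) : ℝ) * S 408 157637687 :=
  chain t563 okB seg563 _ rfl

theorem t565 : ((448006844291535992 : ℕ) : ℝ) ≤ ((1000000000000000000 : ℕ) : ℝ) * S 408 157959611 :=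
  chain t564 okB seg564 _ rfl

theorem t566 : ((448032750336929372 : ℕ) : ℝ) ≤ ((1000000000000000000 : ℕ) : ℝ) * S 408 158267357 :=
  chain t565 okB seg565 _ rfl

theorem t567 : ((448058603915897282 : ℕ) : ℝ) ≤ ((1000000000000000000 : ℕ) : ℝ) * S 408 158592803 :=
  chain t566 okB seg566 _ rfl

theorem t568 : ((448084405479473771 : ℕ) : ℝ) ≤ ((1000000000000000000 : ℕ) : ℝ) * S 408 158907481 :=
  chain t567 okB seg567 _ rfl

theorem t569 : ((448110156655328044 : ℕ) : ℝ) ≤ ((1000000000000000000 : ℕ) : ℝ) * S 408 159219493 :=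
  chain t568 okB seg568 _ rfl

theorem t570 : ((448135856554210392 : ℕ) : ℝ) ≤ ((1000000000000000000 : ℕ) : ℝ) * S 408 159536981 :=
  chain t569 okB seg569 _ rfl

theorem t571 : ((448161505262033784 : ℕ) : ℝ) ≤ ((1000000000000000000 : ℕ) : ℝ) * S 408 159847273 :=
  chain t570 okB seg570 _ rfl

theorem t572 : ((448187104533048820 : ℕ) : ℝ) ≤ ((1000000000000000000 : ℕ) : ℝ) * S 408 160161031 :=
  chain t571 okB seg571 _ rfl

theorem t573 : ((448212653529532722 : ℕ) : ℝ) ≤ ((1000000000000000000 : ℕ) : ℝ) * S 408 160477511 :=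
  chain t572 okB seg572 _ rfl

theorem t574 : ((448238152945338699 : ℕ) : ℝ) ≤ ((1000000000000000000 : ℕ) : ℝ) * S 408 160788031 :=
  chain t573 okB seg573 _ rfl

theorem t575 : ((448263602981766894 : ℕ) : ℝ) ≤ ((1000000000000000000 : ℕ) : ℝ) * S 408 161099297 :=
  chain t574 okB seg574 _ rfl

theorem t576 : ((448289004211528812 : ℕ) : ℝ) ≤ ((1000000000000000000 : ℕ) : ℝ) * S 408 161404651 :=
  chain t575 okB seg575 _ rfl

theorem t577 : ((448314356368971163 : ℕ) : ℝ) ≤ ((1000000000000000000 : ℕ) : ℝ) * S 408 161722501 :=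
  chain t576 okB seg576 _ rfl

theorem t578 : ((448339659135928337 : ℕ) : ℝ) ≤ ((1000000000000000000 : ℕ) : ℝ) * S 408 162034813 :=
  chain t577 okB seg577 _ rfl

theorem t579 : ((448364913374198227 : ℕ) : ℝ) ≤ ((1000000000000000000 : ℕ) : ℝ) * S 408 162345571 :=
  chain t578 okB seg578 _ rfl

theorem t580 : ((448390119527115592 : ℕ) : ℝ) ≤ ((1000000000000000000 : ℕ) : ℝ) * S 408 162654517 :=
  chain t579 okB seg579 _ rfl

theorem t581 : ((448415277648974433 : ℕ) : ℝ) ≤ ((1000000000000000000 : ℕ) : ℝ) * S 408 162965623 :=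
  chain t580 okB seg580 _ rfl

theorem t582 : ((448440387227834398 : ℕ) : ℝ) ≤ ((1000000000000000000 : ℕ) : ℝ) * S 408 163277237 :=
  chain t581 okB seg581 _ rfl

theorem t583 : ((448465449421041136 : ℕ) : ℝ) ≤ ((1000000000000000000 : ℕ) : ℝ) * S 408 163590803 :=
  chain t582 okB seg582 _ rfl

theorem t584 : ((448490463768677535 : ℕ) : ℝ) ≤ ((1000000000000000000 : ℕ) : ℝ) * S 408 163906081 :=
  chain t583 okB seg583 _ rfl

theorem t585 : ((448515429753470344 : ℕ) : ℝ) ≤ ((1000000000000000000 : ℕ) : ℝ) * S 408 164221417 :=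
  chain t584 okB seg584 _ rfl

theorem t586 : ((448540347610103729 : ℕ) : ℝ) ≤ ((1000000000000000000 : ℕ) : ℝ) * S 408 164533997 :=
  chain t585 okB seg585 _ rfl

theorem t587 : ((448565218220615156 : ℕ) : ℝ) ≤ ((1000000000000000000 : ℕ) : ℝ) * S 408 164853757 :=
  chain t586 okB seg586 _ rfl

theorem t588 : ((448590041114691160 : ℕ) : ℝ) ≤ ((1000000000000000000 : ℕ) : ℝ) * S 408 165167993 :=
  chain t587 okB seg587 _ rfl

theorem t589 : ((448614816854269520 : ℕ) : ℝ) ≤ ((1000000000000000000 : ℕ) : ℝ) * S 408 165478057 :=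
  chain t588 okB seg588 _ rfl

theorem t590 : ((448639545240674350 : ℕ) : ℝ) ≤ ((1000000000000000000 : ℕ) : ℝ) * S 408 165796783 :=
  chain t589 okB seg589 _ rfl

theorem t591 : ((448664226881116455 : ℕ) : ℝ) ≤ ((1000000000000000000 : ℕ) : ℝ) * S 408 166110443 :=
  chain t590 okB seg590 _ rfl

theorem t592 : ((448688862933026482 : ℕ) : ℝ) ≤ ((1000000000000000000 : ℕ) : ℝ) * S 408 166408343 :=
  chain t591 okB seg591 _ rfl

theorem t593 : ((448713454420152141 : ℕ) : ℝ) ≤ ((1000000000000000000 : ℕ) : ℝ) * S 408 166714747 :=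
  chain t592 okB seg592 _ rfl

theorem t594 : ((448738000163452296 : ℕ) : ℝ) ≤ ((1000000000000000000 : ℕ) : ℝ) * S 408 167026423 :=
  chain t593 okB seg593 _ rfl

theorem t595 : ((448762499998738652 : ℕ) : ℝ) ≤ ((1000000000000000000 : ℕ) : ℝ) * S 408 167337223 :=
  chain t594 okB seg594 _ rfl

theorem t596 : ((448786954499762211 : ℕ) : ℝ) ≤ ((1000000000000000000 : ℕ) : ℝ) * S 408 167652937 :=
  chain t595 okB seg595 _ rfl

theorem t597 : ((448811362668928598 : ℕ) : ℝ) ≤ ((1000000000000000000 : ℕ) : ℝ) * S 408 167968727 :=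
  chain t596 okB seg596 _ rfl

theorem t598 : ((448835725976524968 : ℕ) : ℝ) ≤ ((1000000000000000000 : ℕ) : ℝ) * S 408 168272311 :=
  chain t597 okB seg597 _ rfl

theorem t599 : ((448860045518665538 : ℕ) : ℝ) ≤ ((1000000000000000000 : ℕ) : ℝ) * S 408 168577853 :=
  chain t598 okB seg598 _ rfl

theorem t600 : ((448884320899431634 : ℕ) : ℝ) ≤ ((1000000000000000000 : ℕ) : ℝ) * S 408 168886793 :=
  chain t599 okB seg599 _ rfl

theorem t601 : ((448908551242500233 : ℕ) : ℝ) ≤ ((1000000000000000000 : ℕ) : ℝ) * S 408 169203043 :=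
  chain t600 okB seg600 _ rfl

theorem t602 : ((448932736074303852 : ℕ) : ℝ) ≤ ((1000000000000000000 : ℕ) : ℝ) * S 408 169517581 :=
  chain t601 okB seg601 _ rfl

theorem t603 : ((448956876350469636 : ℕ) : ℝ) ≤ ((1000000000000000000 : ℕ) : ℝ) * S 408 169832441 :=
  chain t602 okB seg602 _ rfl

theorem t604 : ((448980971945115565 : ℕ) : ℝ) ≤ ((1000000000000000000 : ℕ) : ℝ) * S 408 170146511 :=
  chain t603 okB seg603 _ rfl

theorem t605 : ((449005022968889122 : ℕ) : ℝ) ≤ ((1000000000000000000 : ℕ) : ℝ) * S 408 170462563 :=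
  chain t604 okB seg604 _ rfl

theorem t606 : ((449029029654651394 : ℕ) : ℝ) ≤ ((1000000000000000000 : ℕ) : ℝ) * S 408 170775427 :=
  chain t605 okB seg605 _ rfl

theorem t607 : ((449052992114091015 : ℕ) : ℝ) ≤ ((1000000000000000000 : ℕ) : ℝ) * S 408 171086813 :=
  chain t606 okB seg606 _ rfl

theorem t608 : ((449076911300463338 : ℕ) : ℝ) ≤ ((1000000000000000000 : ℕ) : ℝ) * S 408 171402437 :=
  chain t607 okB seg607 _ rfl

theorem t609 : ((449100787297995458 : ℕ) : ℝ) ≤ ((1000000000000000000 : ℕ) : ℝ) * S 408 171714247 :=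
  chain t608 okB seg608 _ rfl

theorem t610 : ((449124618477159190 : ℕ) : ℝ) ≤ ((1000000000000000000 : ℕ) : ℝ) * S 408 172036927 :=
  chain t609 okB seg609 _ rfl

theorem t611 : ((449148406207685724 : ℕ) : ℝ) ≤ ((1000000000000000000 : ℕ) : ℝ) * S 408 172342921 :=
  chain t610 okB seg610 _ rfl

theorem t612 : ((449172151290133583 : ℕ) : ℝ) ≤ ((1000000000000000000 : ℕ) : ℝ) * S 408 172657393 :=
  chain t611 okB seg611 _ rfl

theorem t613 : ((449195852369967625 : ℕ) : ℝ) ≤ ((1000000000000000000 : ℕ) : ℝ) * S 408 172980407 :=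
  chain t612 okB seg612 _ rfl

theorem t614 : ((449219510372533096 : ℕ) : ℝ) ≤ ((1000000000000000000 : ℕ) : ℝ) * S 408 173288513 :=
  chain t613 okB seg613 _ rfl

theorem t615 : ((449243126528931493 : ℕ) : ℝ) ≤ ((1000000000000000000 : ℕ) : ℝ) * S 408 173597947 :=
  chain t614 okB seg614 _ rfl

theorem t616 : ((449266700023595434 : ℕ) : ℝ) ≤ ((1000000000000000000 : ℕ) : ℝ) * S 408 173908327 :=
  chain t615 okB seg615 _ rfl

theorem t617 : ((449290231236000930 : ℕ) : ℝ) ≤ ((1000000000000000000 : ℕ) : ℝ) * S 408 174230417 :=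
  chain t616 okB seg616 _ rfl

theorem t618 : ((449313718980919101 : ℕ) : ℝ) ≤ ((1000000000000000000 : ℕ) : ℝ) * S 408 174544681 :=
  chain t617 okB seg617 _ rfl

theorem t619 : ((449337163944588588 : ℕ) : ℝ) ≤ ((1000000000000000000 : ℕ) : ℝ) * S 408 174867061 :=
  chain t618 okB seg618 _ rfl

theorem t620 : ((449360566428773723 : ℕ) : ℝ) ≤ ((1000000000000000000 : ℕ) : ℝ) * S 408 175186127 :=
  chain t619 okB seg619 _ rfl

theorem t621 : ((449383927244674723 : ℕ) : ℝ) ≤ ((1000000000000000000 : ℕ) : ℝ) * S 408 175490503 :=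
  chain t620 okB seg620 _ rfl

theorem t622 : ((449407246773098624 : ℕ) : ℝ) ≤ ((1000000000000000000 : ℕ) : ℝ) * S 408 175803497 :=
  chain t621 okB seg621 _ rfl

theorem t623 : ((449430524816941758 : ℕ) : ℝ) ≤ ((1000000000000000000 : ℕ) : ℝ) * S 408 176117713 :=
  chain t622 okB seg622 _ rfl

theorem t624 : ((449453760705666658 : ℕ) : ℝ) ≤ ((1000000000000000000 : ℕ) : ℝ) * S 408 176434711 :=
  chain t623 okB seg623 _ rfl

theorem t625 : ((449476955724569835 : ℕ) : ℝ) ≤ ((1000000000000000000 : ℕ) : ℝ) * S 408 176752943 :=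
  chain t624 okB seg624 _ rfl

theorem t626 : ((449500109794181182 : ℕ) : ℝ) ≤ ((1000000000000000000 : ℕ) : ℝ) * S 408 177058171 :=
  chain t625 okB seg625 _ rfl

theorem t627 : ((449523223678558870 : ℕ) : ℝ) ≤ ((1000000000000000000 : ℕ) : ℝ) * S 408 177366011 :=
  chain t626 okB seg626 _ rfl

theorem t628 : ((449546296904237689 : ℕ) : ℝ) ≤ ((1000000000000000000 : ℕ) : ℝ) * S 408 177680333 :=
  chain t627 okB seg627 _ rfl

theorem t629 : ((449569329719448619 : ℕ) : ℝ) ≤ ((1000000000000000000 : ℕ) : ℝ) * S 408 177987101 :=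
  chain t628 okB seg628 _ rfl

theorem t630 : ((449592323064979849 : ℕ) : ℝ) ≤ ((1000000000000000000 : ℕ) : ℝ) * S 408 178294777 :=
  chain t629 okB seg629 _ rfl

theorem t631 : ((449615275687732620 : ℕ) : ℝ) ≤ ((1000000000000000000 : ℕ) : ℝ) * S 408 178614811 :=
  chain t630 okB seg630 _ rfl

theorem t632 : ((449638187362766151 : ℕ) : ℝ) ≤ ((1000000000000000000 : ℕ) : ℝ) * S 408 178927487 :=
  chain t631 okB seg631 _ rfl

theorem t633 : ((449661058748330884 : ℕ) : ℝ) ≤ ((1000000000000000000 : ℕ) : ℝ) * S 408 179246927 :=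
  chain t632 okB seg632 _ rfl

theorem t634 : ((449683889484882057 : ℕ) : ℝ) ≤ ((1000000000000000000 : ℕ) : ℝ) * S 408 179569493 :=
  chain t633 okB seg633 _ rfl

theorem t635 : ((449706680270991495 : ℕ) : ℝ) ≤ ((1000000000000000000 : ℕ) : ℝ) * S 408 179880083 :=
  chain t634 okB seg634 _ rfl

theorem t636 : ((449729431086832455 : ℕ) : ℝ) ≤ ((1000000000000000000 : ℕ) : ℝ) * S 408 180195313 :=
  chain t635 okB seg635 _ rfl

theorem t637 : ((449752141407386927 : ℕ) : ℝ) ≤ ((1000000000000000000 : ℕ) : ℝ) * S 408 180516691 :=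
  chain t636 okB seg636 _ rfl

theorem t638 : ((449774811779364284 : ℕ) : ℝ) ≤ ((1000000000000000000 : ℕ) : ℝ) * S 408 180837731 :=
  chain t637 okB seg637 _ rfl

theorem t639 : ((449797442036894488 : ℕ) : ℝ) ≤ ((1000000000000000000 : ℕ) : ℝ) * S 408 181153831 :=
  chain t638 okB seg638 _ rfl

theorem t640 : ((449820032639458463 : ℕ) : ℝ) ≤ ((1000000000000000000 : ℕ) : ℝ) * S 408 181472833 :=
  chain t639 okB seg639 _ rfl

theorem t641 : ((449842584086661185 : ℕ) : ℝ) ≤ ((1000000000000000000 : ℕ) : ℝ) * S 408 181785817 :=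
  chain t640 okB seg640 _ rfl

theorem t642 : ((449865096789200792 : ℕ) : ℝ) ≤ ((1000000000000000000 : ℕ) : ℝ) * S 408 182100827 :=
  chain t641 okB seg641 _ rfl

theorem t643 : ((449887570054901477 : ℕ) : ℝ) ≤ ((1000000000000000000 : ℕ) : ℝ) * S 408 182418707 :=
  chain t642 okB seg642 _ rfl

theorem t644 : ((449910004164172849 : ℕ) : ℝ) ≤ ((1000000000000000000 : ℕ) : ℝ) * S 408 182745677 :=
  chain t643 okB seg643 _ rfl

theorem t645 : ((449932397990413851 : ℕ) : ℝ) ≤ ((1000000000000000000 : ℕ) : ℝ) * S 408 183069317 :=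
  chain t644 okB seg644 _ rfl

theorem t646 : ((449954752290134721 : ℕ) : ℝ) ≤ ((1000000000000000000 : ℕ) : ℝ) * S 408 183388847 :=
  chain t645 okB seg645 _ rfl

theorem t647 : ((449977067712017896 : ℕ) : ℝ) ≤ ((1000000000000000000 : ℕ) : ℝ) * S 408 183709133 :=
  chain t646 okB seg646 _ rfl

theorem t648 : ((449999344543118744 : ℕ) : ℝ) ≤ ((1000000000000000000 : ℕ) : ℝ) * S 408 184027213 :=
  chain t647 okB seg647 _ rfl

theorem t649 : ((450021582883654545 : ℕ) : ℝ) ≤ ((1000000000000000000 : ℕ) : ℝ) * S 408 184347701 :=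
  chain t648 okB seg648 _ rfl

theorem t650 : ((450043781958201604 : ℕ) : ℝ) ≤ ((1000000000000000000 : ℕ) : ℝ) * S 408 184676711 :=
  chain t649 okB seg649 _ rfl

theorem t651 : ((450065943075219913 : ℕ) : ℝ) ≤ ((1000000000000000000 : ℕ) : ℝ) * S 408 184985677 :=
  chain t650 okB seg650 _ rfl

theorem t652 : ((450088066823533068 : ℕ) : ℝ) ≤ ((1000000000000000000 : ℕ) : ℝ) * S 408 185295073 :=
  chain t651 okB seg651 _ rfl

theorem t653 : ((450110153047639419 : ℕ) : ℝ) ≤ ((1000000000000000000 : ℕ) : ℝ) * S 408 185614771 :=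
  chain t652 okB seg652 _ rfl

theorem t654 : ((450132201265793970 : ℕ) : ℝ) ≤ ((1000000000000000000 : ℕ) : ℝ) * S 408 185929747 :=
  chain t653 okB seg653 _ rfl

theorem t655 : ((450154213009185754 : ℕ) : ℝ) ≤ ((1000000000000000000 : ℕ) : ℝ) * S 408 186239111 :=
  chain t654 okB seg654 _ rfl

theorem t656 : ((450176187097363731 : ℕ) : ℝ) ≤ ((1000000000000000000 : ℕ) : ℝ) * S 408 186562507 :=
  chain t655 okB seg655 _ rfl

theorem t657 : ((450198123244948140 : ℕ) : ℝ) ≤ ((1000000000000000000 : ℕ) : ℝ) * S 408 186879601 :=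
  chain t656 okB seg656 _ rfl

theorem t658 : ((450220022072873520 : ℕ) : ℝ) ≤ ((1000000000000000000 : ℕ) : ℝ) * S 408 187202021 :=
  chain t657 okB seg657 _ rfl

theorem t659 : ((450241883138314963 : ℕ) : ℝ) ≤ ((1000000000000000000 : ℕ) : ℝ) * S 408 187524847 :=
  chain t658 okB seg658 _ rfl

theorem t660 : ((450263706279684554 : ℕ) : ℝ) ≤ ((1000000000000000000 : ℕ) : ℝ) * S 408 187852403 :=
  chain t659 okB seg659 _ rfl

theorem t661 : ((450285491872842153 : ℕ) : ℝ) ≤ ((1000000000000000000 : ℕ) : ℝ) * S 408 188171723 :=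
  chain t660 okB seg660 _ rfl

theorem t662 : ((450307241674979361 : ℕ) : ℝ) ≤ ((1000000000000000000 : ℕ) : ℝ) * S 408 188479301 :=
  chain t661 okB seg661 _ rfl

theorem t663 : ((450328955355886691 : ℕ) : ℝ) ≤ ((1000000000000000000 : ℕ) : ℝ) * S 408 188792761 :=
  chain t662 okB seg662 _ rfl

theorem t664 : ((450350632756042307 : ℕ) : ℝ) ≤ ((1000000000000000000 : ℕ) : ℝ) * S 408 189109253 :=
  chain t663 okB seg663 _ rfl

theorem t665 : ((450372273613001939 : ℕ) : ℝ) ≤ ((1000000000000000000 : ℕ) : ℝ) * S 408 189431441 :=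
  chain t664 okB seg664 _ rfl

theorem t666 : ((450393878078641525 : ℕ) : ℝ) ≤ ((1000000000000000000 : ℕ) : ℝ) * S 408 189749093 :=
  chain t665 okB seg665 _ rfl

theorem t667 : ((450415446585424496 : ℕ) : ℝ) ≤ ((1000000000000000000 : ℕ) : ℝ) * S 408 190061401 :=
  chain t666 okB seg666 _ rfl

theorem t668 : ((450436978551762949 : ℕ) : ℝ) ≤ ((1000000000000000000 : ℕ) : ℝ) * S 408 190394167 :=
  chain t667 okB seg667 _ rfl

theorem t669 : ((450458473122831622 : ℕ) : ℝ) ≤ ((1000000000000000000 : ℕ) : ℝ) * S 408 190722997 :=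
  chain t668 okB seg668 _ rfl

theorem t670 : ((450479931296420062 : ℕ) : ℝ) ≤ ((1000000000000000000 : ℕ) : ℝ) * S 408 191044391 :=
  chain t669 okB seg669 _ rfl

theorem t671 : ((450501353369728948 : ℕ) : ℝ) ≤ ((1000000000000000000 : ℕ) : ℝ) * S 408 191362463 :=
  chain t670 okB seg670 _ rfl

theorem t672 : ((450522739644237999 : ℕ) : ℝ) ≤ ((1000000000000000000 : ℕ) : ℝ) * S 408 191693233 :=
  chain t671 okB seg671 _ rfl

theorem t673 : ((450544088691852892 : ℕ) : ℝ) ≤ ((1000000000000000000 : ℕ) : ℝ) * S 408 192020957 :=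
  chain t672 okB seg672 _ rfl

theorem t674 : ((450565402233282488 : ℕ) : ℝ) ≤ ((1000000000000000000 : ℕ) : ℝ) * S 408 192332461 :=
  chain t673 okB seg673 _ rfl

theorem t675 : ((450586680677479250 : ℕ) : ℝ) ≤ ((1000000000000000000 : ℕ) : ℝ) * S 408 192654977 :=
  chain t674 okB seg674 _ rfl

theorem t676 : ((450607923837718540 : ℕ) : ℝ) ≤ ((1000000000000000000 : ℕ) : ℝ) * S 408 192970997 :=
  chain t675 okB seg675 _ rfl

theorem t677 : ((450629131950228621 : ℕ) : ℝ) ≤ ((1000000000000000000 : ℕ) : ℝ) * S 408 193293361 :=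
  chain t676 okB seg676 _ rfl

theorem t678 : ((450650305068432832 : ℕ) : ℝ) ≤ ((1000000000000000000 : ℕ) : ℝ) * S 408 193612037 :=
  chain t677 okB seg677 _ rfl

theorem t679 : ((450671443174712286 : ℕ) : ℝ) ≤ ((1000000000000000000 : ℕ) : ℝ) * S 408 193936081 :=
  chain t678 okB seg678 _ rfl

theorem t680 : ((450692546044403938 : ℕ) : ℝ) ≤ ((1000000000000000000 : ℕ) : ℝ) * S 408 194256457 :=
  chain t679 okB seg679 _ rfl

theorem t681 : ((450713614780341779 : ℕ) : ℝ) ≤ ((1000000000000000000 : ℕ) : ℝ) * S 408 194571263 :=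
  chain t680 okB seg680 _ rfl

theorem t682 : ((450734649242570648 : ℕ) : ℝ) ≤ ((1000000000000000000 : ℕ) : ℝ) * S 408 194885723 :=
  chain t681 okB seg681 _ rfl

theorem t683 : ((450755649685100925 : ℕ) : ℝ) ≤ ((1000000000000000000 : ℕ) : ℝ) * S 408 195205181 :=
  chain t682 okB seg682 _ rfl

theorem t684 : ((450776615483845482 : ℕ) : ℝ) ≤ ((1000000000000000000 : ℕ) : ℝ) * S 408 195529751 :=
  chain t683 okB seg683 _ rfl

theorem t685 : ((450797546548193370 : ℕ) : ℝ) ≤ ((1000000000000000000 : ℕ) : ℝ) * S 408 195850643 :=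
  chain t684 okB seg684 _ rfl

theorem t686 : ((450818443375292432 : ℕ) : ℝ) ≤ ((1000000000000000000 : ℕ) : ℝ) * S 408 196176157 :=
  chain t685 okB seg685 _ rfl

theorem t687 : ((450839304801252912 : ℕ) : ℝ) ≤ ((1000000000000000000 : ℕ) : ℝ) * S 408 196507933 :=
  chain t686 okB seg686 _ rfl

theorem t688 : ((450860131903583532 : ℕ) : ℝ) ≤ ((1000000000000000000 : ℕ) : ℝ) * S 408 196830637 :=
  chain t687 okB seg687 _ rfl

theorem t689 : ((450880924892796077 : ℕ) : ℝ) ≤ ((1000000000000000000 : ℕ) : ℝ) * S 408 197148557 :=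
  chain t688 okB seg688 _ rfl

theorem t690 : ((450901684564393076 : ℕ) : ℝ) ≤ ((1000000000000000000 : ℕ) : ℝ) * S 408 197464427 :=
  chain t689 okB seg689 _ rfl

theorem t691 : ((450922410936507264 : ℕ) : ℝ) ≤ ((1000000000000000000 : ℕ) : ℝ) * S 408 197781841 :=
  chain t690 okB seg690 _ rfl

theorem t692 : ((450943103906958534 : ℕ) : ℝ) ≤ ((1000000000000000000 : ℕ) : ℝ) * S 408 198102193 :=
  chain t691 okB seg691 _ rfl

theorem t693 : ((450963764049275928 : ℕ) : ℝ) ≤ ((1000000000000000000 : ℕ) : ℝ) * S 408 198404267 :=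
  chain t692 okB seg692 _ rfl

theorem t694 : ((450984392260161321 : ℕ) : ℝ) ≤ ((1000000000000000000 : ℕ) : ℝ) * S 408 198725797 :=
  chain t693 okB seg693 _ rfl

theorem t695 : ((451004987192269654 : ℕ) : ℝ) ≤ ((1000000000000000000 : ℕ) : ℝ) * S 408 199046587 :=
  chain t694 okB seg694 _ rfl

theorem t696 : ((451025549040503043 : ℕ) : ℝ) ≤ ((1000000000000000000 : ℕ) : ℝ) * S 408 199361647 :=
  chain t695 okB seg695 _ rfl

theorem t697 : ((451046078054226436 : ℕ) : ℝ) ≤ ((1000000000000000000 : ℕ) : ℝ) * S 408 199684393 :=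
  chain t696 okB seg696 _ rfl

theorem t698 : ((451066574003441640 : ℕ) : ℝ) ≤ ((1000000000000000000 : ℕ) : ℝ) * S 408 199998187 :=
  chain t697 okB seg697 _ rfl

theorem t699 : ((451087038130640705 : ℕ) : ℝ) ≤ ((1000000000000000000 : ℕ) : ℝ) * S 408 200316917 :=
  chain t698 okB seg698 _ rfl

theorem t700 : ((451107469704558102 : ℕ) : ℝ) ≤ ((1000000000000000000 : ℕ) : ℝ) * S 408 200633611 :=
  chain t699 okB seg699 _ rfl

theorem t701 : ((451127868958980660 : ℕ) : ℝ) ≤ ((1000000000000000000 : ℕ) : ℝ) * S 408 200952467 :=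
  chain t700 okB seg700 _ rfl

theorem t702 : ((451148236013159464 : ℕ) : ℝ) ≤ ((1000000000000000000 : ℕ) : ℝ) * S 408 201268973 :=
  chain t701 okB seg701 _ rfl

theorem t703 : ((451168570505755458 : ℕ) : ℝ) ≤ ((1000000000000000000 : ℕ) : ℝ) * S 408 201592453 :=
  chain t702 okB seg702 _ rfl

theorem t704 : ((451188872848124870 : ℕ) : ℝ) ≤ ((1000000000000000000 : ℕ) : ℝ) * S 408 201904877 :=
  chain t703 okB seg703 _ rfl

theorem t705 : ((451209143841079643 : ℕ) : ℝ) ≤ ((1000000000000000000 : ℕ) : ℝ) * S 408 202218781 :=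
  chain t704 okB seg704 _ rfl

theorem t706 : ((451229382727061396 : ℕ) : ℝ) ≤ ((1000000000000000000 : ℕ) : ℝ) * S 408 202544717 :=
  chain t705 okB seg705 _ rfl

theorem t707 : ((451249589835334838 : ℕ) : ℝ) ≤ ((1000000000000000000 : ℕ) : ℝ) * S 408 202862713 :=
  chain t706 okB seg706 _ rfl

theorem t708 : ((451269765338295005 : ℕ) : ℝ) ≤ ((1000000000000000000 : ℕ) : ℝ) * S 408 203177333 :=
  chain t707 okB seg707 _ rfl

theorem t709 : ((451289909251952105 : ℕ) : ℝ) ≤ ((1000000000000000000 : ℕ) : ℝ) * S 408 203497331 :=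
  chain t708 okB seg708 _ rfl

theorem t710 : ((451310021840713875 : ℕ) : ℝ) ≤ ((1000000000000000000 : ℕ) : ℝ) * S 408 203809673 :=
  chain t709 okB seg709 _ rfl

theorem t711 : ((451330103079207802 : ℕ) : ℝ) ≤ ((1000000000000000000 : ℕ) : ℝ) * S 408 204133381 :=
  chain t710 okB seg710 _ rfl

theorem t712 : ((451350152829145160 : ℕ) : ℝ) ≤ ((1000000000000000000 : ℕ) : ℝ) * S 408 204449611 :=
  chain t711 okB seg711 _ rfl

theorem t713 : ((451370171071823388 : ℕ) : ℝ) ≤ ((1000000000000000000 : ℕ) : ℝ) * S 408 204778297 :=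
  chain t712 okB seg712 _ rfl

theorem t714 : ((451390157226858640 : ℕ) : ℝ) ≤ ((1000000000000000000 : ℕ) : ℝ) * S 408 205105003 :=
  chain t713 okB seg713 _ rfl

theorem t715 : ((451410111529745416 : ℕ) : ℝ) ≤ ((1000000000000000000 : ℕ) : ℝ) * S 408 205425817 :=
  chain t714 okB seg714 _ rfl

theorem t716 : ((451430035120898572 : ℕ) : ℝ) ≤ ((1000000000000000000 : ℕ) : ℝ) * S 408 205754141 :=
  chain t715 okB seg715 _ rfl

theorem t717 : ((451449926507995677 : ℕ) : ℝ) ≤ ((1000000000000000000 : ℕ) : ℝ) * S 408 206081483 :=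
  chain t716 okB seg716 _ rfl

theorem t718 : ((451469786417820808 : ℕ) : ℝ) ≤ ((1000000000000000000 : ℕ) : ℝ) * S 408 206408767 :=
  chain t717 okB seg717 _ rfl

theorem t719 : ((451489615236582506 : ℕ) : ℝ) ≤ ((1000000000000000000 : ℕ) : ℝ) * S 408 206730383 :=
  chain t718 okB seg718 _ rfl

theorem t720 : ((451509412929013564 : ℕ) : ℝ) ≤ ((1000000000000000000 : ℕ) : ℝ) * S 408 207057731 :=
  chain t719 okB seg719 _ rfl

theorem t721 : ((451529179719515650 : ℕ) : ℝ) ≤ ((1000000000000000000 : ℕ) : ℝ) * S 408 207372491 :=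
  chain t720 okB seg720 _ rfl

theorem t722 : ((451548916687476496 : ℕ) : ℝ) ≤ ((1000000000000000000 : ℕ) : ℝ) * S 408 207683087 :=
  chain t721 okB seg721 _ rfl

theorem t723 : ((451568623810721978 : ℕ) : ℝ) ≤ ((1000000000000000000 : ℕ) : ℝ) * S 408 208007347 :=
  chain t722 okB seg722 _ rfl

theorem t724 : ((451588300029531595 : ℕ) : ℝ) ≤ ((1000000000000000000 : ℕ) : ℝ) * S 408 208332763 :=
  chain t723 okB seg723 _ rfl

theorem t725 : ((451607945604565432 : ℕ) : ℝ) ≤ ((1000000000000000000 : ℕ) : ℝ) * S 408 208653941 :=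
  chain t724 okB seg724 _ rfl

theorem t726 : ((451627561258190612 : ℕ) : ℝ) ≤ ((1000000000000000000 : ℕ) : ℝ) * S 408 208972061 :=
  chain t725 okB seg725 _ rfl

theorem t727 : ((451647147236264905 : ℕ) : ℝ) ≤ ((1000000000000000000 : ℕ) : ℝ) * S 408 209292323 :=
  chain t726 okB seg726 _ rfl

theorem t728 : ((451666703012562874 : ℕ) : ℝ) ≤ ((1000000000000000000 : ℕ) : ℝ) * S 408 209609717 :=
  chain t727 okB seg727 _ rfl

theorem t729 : ((451686229447999761 : ℕ) : ℝ) ≤ ((1000000000000000000 : ℕ) : ℝ) * S 408 209922281 :=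
  chain t728 okB seg728 _ rfl

theorem t730 : ((451705726533603577 : ℕ) : ℝ) ≤ ((1000000000000000000 : ℕ) : ℝ) * S 408 210244103 :=
  chain t729 okB seg729 _ rfl

theorem t731 : ((451725193784762810 : ℕ) : ℝ) ≤ ((1000000000000000000 : ℕ) : ℝ) * S 408 210563363 :=
  chain t730 okB seg730 _ rfl

theorem t732 : ((451744631382817309 : ℕ) : ℝ) ≤ ((1000000000000000000 : ℕ) : ℝ) * S 408 210888781 :=
  chain t731 okB seg731 _ rfl

theorem t733 : ((451764039819597501 : ℕ) : ℝ) ≤ ((1000000000000000000 : ℕ) : ℝ) * S 408 211199413 :=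
  chain t732 okB seg732 _ rfl

theorem t734 : ((451783418873164681 : ℕ) : ℝ) ≤ ((1000000000000000000 : ℕ) : ℝ) * S 408 211522373 :=
  chain t733 okB seg733 _ rfl

theorem t735 : ((451802768378121649 : ℕ) : ℝ) ≤ ((1000000000000000000 : ℕ) : ℝ) * S 408 211852981 :=
  chain t734 okB seg734 _ rfl

theorem t736 : ((451822087257206917 : ℕ) : ℝ) ≤ ((1000000000000000000 : ℕ) : ℝ) * S 408 212181521 :=
  chain t735 okB seg735 _ rfl

theorem t737 : ((451841377757336691 : ℕ) : ℝ) ≤ ((1000000000000000000 : ℕ) : ℝ) * S 408 212489317 :=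
  chain t736 okB seg736 _ rfl

theorem t738 : ((451860639213812776 : ℕ) : ℝ) ≤ ((1000000000000000000 : ℕ) : ℝ) * S 408 212817901 :=
  chain t737 okB seg737 _ rfl

theorem t739 : ((451879871640669502 : ℕ) : ℝ) ≤ ((1000000000000000000 : ℕ) : ℝ) * S 408 213131767 :=
  chain t738 okB seg738 _ rfl

theorem t740 : ((451899075001230413 : ℕ) : ℝ) ≤ ((1000000000000000000 : ℕ) : ℝ) * S 408 213456283 :=
  chain t739 okB seg739 _ rfl

theorem t741 : ((451918249226625564 : ℕ) : ℝ) ≤ ((1000000000000000000 : ℕ) : ℝ) * S 408 213786487 :=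
  chain t740 okB seg740 _ rfl

theorem t742 : ((451937394085269003 : ℕ) : ℝ) ≤ ((1000000000000000000 : ℕ) : ℝ) * S 408 214109003 :=
  chain t741 okB seg741 _ rfl

theorem t743 : ((451956510959363280 : ℕ) : ℝ) ≤ ((1000000000000000000 : ℕ) : ℝ) * S 408 214423081 :=
  chain t742 okB seg742 _ rfl

theorem t744 : ((451975599061607517 : ℕ) : ℝ) ≤ ((1000000000000000000 : ℕ) : ℝ) * S 408 214743311 :=
  chain t743 okB seg743 _ rfl

theorem t745 : ((451994659130280800 : ℕ) : ℝ) ≤ ((1000000000000000000 : ℕ) : ℝ) * S 408 215057231 :=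
  chain t744 okB seg744 _ rfl

theorem t746 : ((452013691084388288 : ℕ) : ℝ) ≤ ((1000000000000000000 : ℕ) : ℝ) * S 408 215378771 :=
  chain t745 okB seg745 _ rfl

theorem t747 : ((452032694904858208 : ℕ) : ℝ) ≤ ((1000000000000000000 : ℕ) : ℝ) * S 408 215695927 :=
  chain t746 okB seg746 _ rfl

theorem t748 : ((452051670194218039 : ℕ) : ℝ) ≤ ((1000000000000000000 : ℕ) : ℝ) * S 408 216017947 :=
  chain t747 okB seg747 _ rfl

theorem t749 : ((452070617263094924 : ℕ) : ℝ) ≤ ((1000000000000000000 : ℕ) : ℝ) * S 408 216346393 :=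
  chain t748 okB seg748 _ rfl

theorem t750 : ((452089535485123978 : ℕ) : ℝ) ≤ ((1000000000000000000 : ℕ) : ℝ) * S 408 216677603 :=
  chain t749 okB seg749 _ rfl

theorem t751 : ((452108425362500952 : ℕ) : ℝ) ≤ ((1000000000000000000 : ℕ) : ℝ) * S 408 216995183 :=
  chain t750 okB seg750 _ rfl

theorem t752 : ((452127287349431140 : ℕ) : ℝ) ≤ ((1000000000000000000 : ℕ) : ℝ) * S 408 217322117 :=
  chain t751 okB seg751 _ rfl

theorem t753 : ((452146120837274331 : ℕ) : ℝ) ≤ ((1000000000000000000 : ℕ) : ℝ) * S 408 217642927 :=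
  chain t752 okB seg752 _ rfl

theorem t754 : ((452164926669589554 : ℕ) : ℝ) ≤ ((1000000000000000000 : ℕ) : ℝ) * S 408 217967837 :=
  chain t753 okB seg753 _ rfl

theorem t755 : ((452183704830758206 : ℕ) : ℝ) ≤ ((1000000000000000000 : ℕ) : ℝ) * S 408 218282671 :=
  chain t754 okB seg754 _ rfl

theorem t756 : ((452202455189612836 : ℕ) : ℝ) ≤ ((1000000000000000000 : ℕ) : ℝ) * S 408 218609023 :=
  chain t755 okB seg755 _ rfl

theorem t757 : ((452221178190023630 : ℕ) : ℝ) ≤ ((1000000000000000000 : ℕ) : ℝ) * S 408 218928113 :=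
  chain t756 okB seg756 _ rfl

theorem t758 : ((452239873857139479 : ℕ) : ℝ) ≤ ((1000000000000000000 : ℕ) : ℝ) * S 408 219248593 :=
  chain t757 okB seg757 _ rfl

theorem t759 : ((452258542014982228 : ℕ) : ℝ) ≤ ((1000000000000000000 : ℕ) : ℝ) * S 408 219568501 :=
  chain t758 okB seg758 _ rfl

theorem t760 : ((452277182970316737 : ℕ) : ℝ) ≤ ((1000000000000000000 : ℕ) : ℝ) * S 408 219893111 :=
  chain t759 okB seg759 _ rfl

theorem t761 : ((452295796717940254 : ℕ) : ℝ) ≤ ((1000000000000000000 : ℕ) : ℝ) * S 408 220213711 :=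
  chain t760 okB seg760 _ rfl

theorem t762 : ((452314382539226685 : ℕ) : ℝ) ≤ ((1000000000000000000 : ℕ) : ℝ) * S 408 220544977 :=
  chain t761 okB seg761 _ rfl

theorem t763 : ((452332941349849622 : ℕ) : ℝ) ≤ ((1000000000000000000 : ℕ) : ℝ) * S 408 220865761 :=
  chain t762 okB seg762 _ rfl

theorem t764 : ((452351472321131604 : ℕ) : ℝ) ≤ ((1000000000000000000 : ℕ) : ℝ) * S 408 221202341 :=
  chain t763 okB seg763 _ rfl

theorem t765 : ((452369976265588136 : ℕ) : ℝ) ≤ ((1000000000000000000 : ℕ) : ℝ) * S 408 221517091 :=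
  chain t764 okB seg764 _ rfl

theorem t766 : ((452388453849844644 : ℕ) : ℝ) ≤ ((1000000000000000000 : ℕ) : ℝ) * S 408 221835071 :=
  chain t765 okB seg765 _ rfl

theorem t767 : ((452406904554537907 : ℕ) : ℝ) ≤ ((1000000000000000000 : ℕ) : ℝ) * S 408 222159307 :=
  chain t766 okB seg766 _ rfl

theorem t768 : ((452425328104321403 : ℕ) : ℝ) ≤ ((1000000000000000000 : ℕ) : ℝ) * S 408 222494971 :=
  chain t767 okB seg767 _ rfl

theorem t769 : ((452443724722955702 : ℕ) : ℝ) ≤ ((1000000000000000000 : ℕ) : ℝ) * S 408 222806723 :=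
  chain t768 okB seg768 _ rfl

theorem t770 : ((452462095079748584 : ℕ) : ℝ) ≤ ((1000000000000000000 : ℕ) : ℝ) * S 408 223131827 :=
  chain t769 okB seg769 _ rfl

theorem t771 : ((452480439019465762 : ℕ) : ℝ) ≤ ((1000000000000000000 : ℕ) : ℝ) * S 408 223451597 :=
  chain t770 okB seg770 _ rfl

theorem t772 : ((452498756403813601 : ℕ) : ℝ) ≤ ((1000000000000000000 : ℕ) : ℝ) * S 408 223781473 :=
  chain t771 okB seg771 _ rfl

theorem t773 : ((452517046658789211 : ℕ) : ℝ) ≤ ((1000000000000000000 : ℕ) : ℝ) * S 408 224107253 :=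
  chain t772 okB seg772 _ rfl

theorem t774 : ((452535310258109172 : ℕ) : ℝ) ≤ ((1000000000000000000 : ℕ) : ℝ) * S 408 224432837 :=
  chain t773 okB seg773 _ rfl

theorem t775 : ((452553547181598425 : ℕ) : ℝ) ≤ ((1000000000000000000 : ℕ) : ℝ) * S 408 224767021 :=
  chain t774 okB seg774 _ rfl

theorem t776 : ((452571757160776132 : ℕ) : ℝ) ≤ ((1000000000000000000 : ℕ) : ℝ) * S 408 225096727 :=
  chain t775 okB seg775 _ rfl

theorem t777 : ((452589940667007333 : ℕ) : ℝ) ≤ ((1000000000000000000 : ℕ) : ℝ) * S 408 225415913 :=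
  chain t776 okB seg776 _ rfl

theorem t778 : ((452608098097714250 : ℕ) : ℝ) ≤ ((1000000000000000000 : ℕ) : ℝ) * S 408 225743201 :=
  chain t777 okB seg777 _ rfl

theorem t779 : ((452626229626020245 : ℕ) : ℝ) ≤ ((1000000000000000000 : ℕ) : ℝ) * S 408 226065703 :=
  chain t778 okB seg778 _ rfl

theorem t780 : ((452644335366448250 : ℕ) : ℝ) ≤ ((1000000000000000000 : ℕ) : ℝ) * S 408 226384261 :=
  chain t779 okB seg779 _ rfl

theorem t781 : ((452662415696961883 : ℕ) : ℝ) ≤ ((1000000000000000000 : ℕ) : ℝ) * S 408 226710461 :=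
  chain t780 okB seg780 _ rfl

theorem t782 : ((452680469630029834 : ℕ) : ℝ) ≤ ((1000000000000000000 : ℕ) : ℝ) * S 408 227038177 :=
  chain t781 okB seg781 _ rfl

theorem t783 : ((452698498030278054 : ℕ) : ℝ) ≤ ((1000000000000000000 : ℕ) : ℝ) * S 408 227358107 :=
  chain t782 okB seg782 _ rfl

theorem t784 : ((452716500594026053 : ℕ) : ℝ) ≤ ((1000000000000000000 : ℕ) : ℝ) * S 408 227688073 :=
  chain t783 okB seg783 _ rfl

theorem t785 : ((452734477584909753 : ℕ) : ℝ) ≤ ((1000000000000000000 : ℕ) : ℝ) * S 408 228008581 :=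
  chain t784 okB seg784 _ rfl

theorem t786 : ((452752429185013180 : ℕ) : ℝ) ≤ ((1000000000000000000 : ℕ) : ℝ) * S 408 228333893 :=
  chain t785 okB seg785 _ rfl

theorem t787 : ((452770355078382944 : ℕ) : ℝ) ≤ ((1000000000000000000 : ℕ) : ℝ) * S 408 228656473 :=
  chain t786 okB seg786 _ rfl

theorem t788 : ((452788255722293136 : ℕ) : ℝ) ≤ ((1000000000000000000 : ℕ) : ℝ) * S 408 228976877 :=
  chain t787 okB seg787 _ rfl

theorem t789 : ((452806131295892941 : ℕ) : ℝ) ≤ ((1000000000000000000 : ℕ) : ℝ) * S 408 229305773 :=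
  chain t788 okB seg788 _ rfl

theorem t790 : ((452823981084324235 : ℕ) : ℝ) ≤ ((1000000000000000000 : ℕ) : ℝ) * S 408 229639541 :=
  chain t789 okB seg789 _ rfl

theorem t791 : ((452841805242304050 : ℕ) : ℝ) ≤ ((1000000000000000000 : ℕ) : ℝ) * S 408 229959211 :=
  chain t790 okB seg790 _ rfl

theorem t792 : ((452859604911760835 : ℕ) : ℝ) ≤ ((1000000000000000000 : ℕ) : ℝ) * S 408 230277947 :=
  chain t791 okB seg791 _ rfl

theorem t793 : ((452877379614885622 : ℕ) : ℝ) ≤ ((1000000000000000000 : ℕ) : ℝ) * S 408 230595383 :=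
  chain t792 okB seg792 _ rfl

theorem t794 : ((452895130125129432 : ℕ) : ℝ) ≤ ((1000000000000000000 : ℕ) : ℝ) * S 408 230911097 :=
  chain t793 okB seg793 _ rfl

theorem t795 : ((452912856733923660 : ℕ) : ℝ) ≤ ((1000000000000000000 : ℕ) : ℝ) * S 408 231223541 :=
  chain t794 okB seg794 _ rfl

theorem t796 : ((452930559152847606 : ℕ) : ℝ) ≤ ((1000000000000000000 : ℕ) : ℝ) * S 408 231539801 :=
  chain t795 okB seg795 _ rfl

theorem t797 : ((452948236880566539 : ℕ) : ℝ) ≤ ((1000000000000000000 : ℕ) : ℝ) * S 408 231861163 :=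
  chain t796 okB seg796 _ rfl

theorem t798 : ((452965890357524622 : ℕ) : ℝ) ≤ ((1000000000000000000 : ℕ) : ℝ) * S 408 232185131 :=
  chain t797 okB seg797 _ rfl

theorem t799 : ((452983518655798105 : ℕ) : ℝ) ≤ ((1000000000000000000 : ℕ) : ℝ) * S 408 232521893 :=
  chain t798 okB seg798 _ rfl

theorem t800 : ((453001122004730411 : ℕ) : ℝ) ≤ ((1000000000000000000 : ℕ) : ℝ) * S 408 232844351 :=
  chain t799 okB seg799 _ rfl

theorem t801 : ((453018701318129753 : ℕ) : ℝ) ≤ ((1000000000000000000 : ℕ) : ℝ) * S 408 233157931 :=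
  chain t800 okB seg800 _ rfl

theorem t802 : ((453036256226171856 : ℕ) : ℝ) ≤ ((1000000000000000000 : ℕ) : ℝ) * S 408 233492177 :=
  chain t801 okB seg801 _ rfl

theorem t803 : ((453053786305154939 : ℕ) : ℝ) ≤ ((1000000000000000000 : ℕ) : ℝ) * S 408 233820773 :=
  chain t802 okB seg802 _ rfl

theorem t804 : ((453071291488495865 : ℕ) : ℝ) ≤ ((1000000000000000000 : ℕ) : ℝ) * S 408 234150151 :=
  chain t803 okB seg803 _ rfl

theorem t805 : ((453088771990148947 : ℕ) : ℝ) ≤ ((1000000000000000000 : ℕ) : ℝ) * S 408 234481477 :=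
  chain t804 okB seg804 _ rfl

theorem t806 : ((453106228161250235 : ℕ) : ℝ) ≤ ((1000000000000000000 : ℕ) : ℝ) * S 408 234810211 :=
  chain t805 okB seg805 _ rfl

theorem t807 : ((453123660189432634 : ℕ) : ℝ) ≤ ((1000000000000000000 : ℕ) : ℝ) * S 408 235126013 :=
  chain t806 okB seg806 _ rfl

theorem t808 : ((453141068586044692 : ℕ) : ℝ) ≤ ((1000000000000000000 : ℕ) : ℝ) * S 408 235452461 :=
  chain t807 okB seg807 _ rfl

theorem t809 : ((453158452722714282 : ℕ) : ℝ) ≤ ((1000000000000000000 : ℕ) : ℝ) * S 408 235780277 :=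
  chain t808 okB seg808 _ rfl

theorem t810 : ((453175812865422550 : ℕ) : ℝ) ≤ ((1000000000000000000 : ℕ) : ℝ) * S 408 236100191 :=
  chain t809 okB seg809 _ rfl

theorem t811 : ((453193149871403522 : ℕ) : ℝ) ≤ ((1000000000000000000 : ℕ) : ℝ) * S 408 236416067 :=
  chain t810 okB seg810 _ rfl

theorem t812 : ((453210463152124126 : ℕ) : ℝ) ≤ ((1000000000000000000 : ℕ) : ℝ) * S 408 236746871 :=
  chain t811 okB seg811 _ rfl

theorem t813 : ((453227752585244066 : ℕ) : ℝ) ≤ ((1000000000000000000 : ℕ) : ℝ) * S 408 237070811 :=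
  chain t812 okB seg812 _ rfl

theorem t814 : ((453245017801456813 : ℕ) : ℝ) ≤ ((1000000000000000000 : ℕ) : ℝ) * S 408 237408023 :=
  chain t813 okB seg813 _ rfl

theorem t815 : ((453262258768214742 : ℕ) : ℝ) ≤ ((1000000000000000000 : ℕ) : ℝ) * S 408 237737107 :=
  chain t814 okB seg814 _ rfl

theorem t816 : ((453279476114364179 : ℕ) : ℝ) ≤ ((1000000000000000000 : ℕ) : ℝ) * S 408 238062043 :=
  chain t815 okB seg815 _ rfl

theorem t817 : ((453296670030103476 : ℕ) : ℝ) ≤ ((1000000000000000000 : ℕ) : ℝ) * S 408 238383427 :=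
  chain t816 okB seg816 _ rfl

theorem t818 : ((453313840856369983 : ℕ) : ℝ) ≤ ((1000000000000000000 : ℕ) : ℝ) * S 408 238702421 :=
  chain t817 okB seg817 _ rfl

theorem t819 : ((453330988647485704 : ℕ) : ℝ) ≤ ((1000000000000000000 : ℕ) : ℝ) * S 408 239029891 :=
  chain t818 okB seg818 _ rfl

theorem t820 : ((453348112592578126 : ℕ) : ℝ) ≤ ((1000000000000000000 : ℕ) : ℝ) * S 408 239366873 :=
  chain t819 okB seg819 _ rfl

theorem t821 : ((453365212976493343 : ℕ) : ℝ) ≤ ((1000000000000000000 : ℕ) : ℝ) * S 408 239690281 :=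
  chain t820 okB seg820 _ rfl

theorem t822 : ((453382289768146783 : ℕ) : ℝ) ≤ ((1000000000000000000 : ℕ) : ℝ) * S 408 240023611 :=
  chain t821 okB seg821 _ rfl

theorem t823 : ((453399343581487406 : ℕ) : ℝ) ≤ ((1000000000000000000 : ℕ) : ℝ) * S 408 240338641 :=
  chain t822 okB seg822 _ rfl

theorem t824 : ((453416374968141723 : ℕ) : ℝ) ≤ ((1000000000000000000 : ℕ) : ℝ) * S 408 240656477 :=
  chain t823 okB seg823 _ rfl

theorem t825 : ((453433383255814659 : ℕ) : ℝ) ≤ ((1000000000000000000 : ℕ) : ℝ) * S 408 240985253 :=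
  chain t824 okB seg824 _ rfl

theorem t826 : ((453450368370464433 : ℕ) : ℝ) ≤ ((1000000000000000000 : ℕ) : ℝ) * S 408 241317163 :=
  chain t825 okB seg825 _ rfl

theorem t827 : ((453467330130990451 : ℕ) : ℝ) ≤ ((1000000000000000000 : ℕ) : ℝ) * S 408 241655537 :=
  chain t826 okB seg826 _ rfl

theorem t828 : ((453484268284514371 : ℕ) : ℝ) ≤ ((1000000000000000000 : ℕ) : ℝ) * S 408 241983727 :=
  chain t827 okB seg827 _ rfl

theorem t829 : ((453501183731025101 : ℕ) : ℝ) ≤ ((1000000000000000000 : ℕ) : ℝ) * S 408 242310841 :=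
  chain t828 okB seg828 _ rfl

theorem t830 : ((453518076278542174 : ℕ) : ℝ) ≤ ((1000000000000000000 : ℕ) : ℝ) * S 408 242636561 :=
  chain t829 okB seg829 _ rfl

theorem t831 : ((453534946276614289 : ℕ) : ℝ) ≤ ((1000000000000000000 : ℕ) : ℝ) * S 408 242966951 :=
  chain t830 okB seg830 _ rfl

theorem t832 : ((453551792883522416 : ℕ) : ℝ) ≤ ((1000000000000000000 : ℕ) : ℝ) * S 408 243293657 :=
  chain t831 okB seg831 _ rfl

theorem t833 : ((453568617110950912 : ℕ) : ℝ) ≤ ((1000000000000000000 : ℕ) : ℝ) * S 408 243620243 :=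
  chain t832 okB seg832 _ rfl

theorem t834 : ((453585418911640168 : ℕ) : ℝ) ≤ ((1000000000000000000 : ℕ) : ℝ) * S 408 243949457 :=
  chain t833 okB seg833 _ rfl

theorem t835 : ((453602198061900719 : ℕ) : ℝ) ≤ ((1000000000000000000 : ℕ) : ℝ) * S 408 244273811 :=
  chain t834 okB seg834 _ rfl

theorem t836 : ((453618955014028062 : ℕ) : ℝ) ≤ ((1000000000000000000 : ℕ) : ℝ) * S 408 244594661 :=
  chain t835 okB seg835 _ rfl

theorem t837 : ((453635690053165133 : ℕ) : ℝ) ≤ ((1000000000000000000 : ℕ) : ℝ) * S 408 244915493 :=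
  chain t836 okB seg836 _ rfl

theorem t838 : ((453652403081423215 : ℕ) : ℝ) ≤ ((1000000000000000000 : ℕ) : ℝ) * S 408 245242097 :=
  chain t837 okB seg837 _ rfl

theorem t839 : ((453669094375047746 : ℕ) : ℝ) ≤ ((1000000000000000000 : ℕ) : ℝ) * S 408 245554801 :=
  chain t838 okB seg838 _ rfl

theorem t840 : ((453685763882362237 : ℕ) : ℝ) ≤ ((1000000000000000000 : ℕ) : ℝ) * S 408 245880443 :=
  chain t839 okB seg839 _ rfl

theorem t841 : ((453702411260939150 : ℕ) : ℝ) ≤ ((1000000000000000000 : ℕ) : ℝ) * S 408 246202877 :=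
  chain t840 okB seg840 _ rfl

theorem t842 : ((453719036859901471 : ℕ) : ℝ) ≤ ((1000000000000000000 : ℕ) : ℝ) * S 408 246532037 :=
  chain t841 okB seg841 _ rfl

theorem t843 : ((453735640320393823 : ℕ) : ℝ) ≤ ((1000000000000000000 : ℕ) : ℝ) * S 408 246857243 :=
  chain t842 okB seg842 _ rfl

theorem t844 : ((453752222082419387 : ℕ) : ℝ) ≤ ((1000000000000000000 : ℕ) : ℝ) * S 408 247181113 :=
  chain t843 okB seg843 _ rfl

theorem t845 : ((453768782102864333 : ℕ) : ℝ) ≤ ((1000000000000000000 : ℕ) : ℝ) * S 408 247502033 :=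
  chain t844 okB seg844 _ rfl

theorem t846 : ((453785320660523657 : ℕ) : ℝ) ≤ ((1000000000000000000 : ℕ) : ℝ) * S 408 247821881 :=
  chain t845 okB seg845 _ rfl

theorem t847 : ((453801837605873780 : ℕ) : ℝ) ≤ ((1000000000000000000 : ℕ) : ℝ) * S 408 248150557 :=
  chain t846 okB seg846 _ rfl

theorem t848 : ((453818333147352798 : ℕ) : ℝ) ≤ ((1000000000000000000 : ℕ) : ℝ) * S 408 248470303 :=
  chain t847 okB seg847 _ rfl

theorem t849 : ((453834807227090654 : ℕ) : ℝ) ≤ ((1000000000000000000 : ℕ) : ℝ) * S 408 248798573 :=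
  chain t848 okB seg848 _ rfl

theorem t850 : ((453851259794920232 : ℕ) : ℝ) ≤ ((1000000000000000000 : ℕ) : ℝ) * S 408 249118483 :=
  chain t849 okB seg849 _ rfl

theorem t851 : ((453867690888999956 : ℕ) : ℝ) ≤ ((1000000000000000000 : ℕ) : ℝ) * S 408 249446123 :=
  chain t850 okB seg850 _ rfl

theorem t852 : ((453884100339167132 : ℕ) : ℝ) ≤ ((1000000000000000000 : ℕ) : ℝ) * S 408 249780281 :=
  chain t851 okB seg851 _ rfl

theorem t853 : ((453900488321247970 : ℕ) : ℝ) ≤ ((1000000000000000000 : ℕ) : ℝ) * S 408 250091411 :=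
  chain t852 okB seg852 _ rfl

theorem t854 : ((453916855299930978 : ℕ) : ℝ) ≤ ((1000000000000000000 : ℕ) : ℝ) * S 408 250427123 :=
  chain t853 okB seg853 _ rfl

theorem t855 : ((453933200519762938 : ℕ) : ℝ) ≤ ((1000000000000000000 : ℕ) : ℝ) * S 408 250756651 :=
  chain t854 okB seg854 _ rfl

theorem t856 : ((453949524433268574 : ℕ) : ℝ) ≤ ((1000000000000000000 : ℕ) : ℝ) * S 408 251078441 :=
  chain t855 okB seg855 _ rfl

theorem t857 : ((453965827707450731 : ℕ) : ℝ) ≤ ((1000000000000000000 : ℕ) : ℝ) * S 408 251398681 :=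
  chain t856 okB seg856 _ rfl

theorem t858 : ((453982109617838255 : ℕ) : ℝ) ≤ ((1000000000000000000 : ℕ) : ℝ) * S 408 251740163 :=
  chain t857 okB seg857 _ rfl

theorem t859 : ((453998369950194405 : ℕ) : ℝ) ≤ ((1000000000000000000 : ℕ) : ℝ) * S 408 252063473 :=
  chain t858 okB seg858 _ rfl

theorem t860 : ((454014609200378316 : ℕ) : ℝ) ≤ ((1000000000000000000 : ℕ) : ℝ) * S 408 252392033 :=
  chain t859 okB seg859 _ rfl

theorem t861 : ((454030827349465791 : ℕ) : ℝ) ≤ ((1000000000000000000 : ℕ) : ℝ) * S 408 252719381 :=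
  chain t860 okB seg860 _ rfl

theorem t862 : ((454047024114105293 : ℕ) : ℝ) ≤ ((1000000000000000000 : ℕ) : ℝ) * S 408 253055521 :=
  chain t861 okB seg861 _ rfl

theorem t863 : ((454063199896552494 : ℕ) : ℝ) ≤ ((1000000000000000000 : ℕ) : ℝ) * S 408 253377653 :=
  chain t862 okB seg862 _ rfl

theorem t864 : ((454079354900131855 : ℕ) : ℝ) ≤ ((1000000000000000000 : ℕ) : ℝ) * S 408 253710181 :=
  chain t863 okB seg863 _ rfl

theorem t865 : ((454095488885671141 : ℕ) : ℝ) ≤ ((1000000000000000000 : ℕ) : ℝ) * S 408 254039413 :=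
  chain t864 okB seg864 _ rfl

theorem t866 : ((454111601859260065 : ℕ) : ℝ) ≤ ((1000000000000000000 : ℕ) : ℝ) * S 408 254369233 :=
  chain t865 okB seg865 _ rfl

theorem t867 : ((454127694294190986 : ℕ) : ℝ) ≤ ((1000000000000000000 : ℕ) : ℝ) * S 408 254690347 :=
  chain t866 okB seg866 _ rfl

theorem t868 : ((454143766113867002 : ℕ) : ℝ) ≤ ((1000000000000000000 : ℕ) : ℝ) * S 408 255021113 :=
  chain t867 okB seg867 _ rfl

theorem t869 : ((454159816676662707 : ℕ) : ℝ) ≤ ((1000000000000000000 : ℕ) : ℝ) * S 408 255364063 :=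
  chain t868 okB seg868 _ rfl

theorem t870 : ((454175846485259707 : ℕ) : ℝ) ≤ ((1000000000000000000 : ℕ) : ℝ) * S 408 255683017 :=
  chain t869 okB seg869 _ rfl

theorem t871 : ((454191856246781759 : ℕ) : ℝ) ≤ ((1000000000000000000 : ℕ) : ℝ) * S 408 256004971 :=
  chain t870 okB seg870 _ rfl

theorem t872 : ((454207845945199301 : ℕ) : ℝ) ≤ ((1000000000000000000 : ℕ) : ℝ) * S 408 256329413 :=
  chain t871 okB seg871 _ rfl

theorem t873 : ((454223815137603438 : ℕ) : ℝ) ≤ ((1000000000000000000 : ℕ) : ℝ) * S 408 256660141 :=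
  chain t872 okB seg872 _ rfl

theorem t874 : ((454239763823144151 : ℕ) : ℝ) ≤ ((1000000000000000000 : ℕ) : ℝ) * S 408 256987961 :=
  chain t873 okB seg873 _ rfl

theorem t875 : ((454255692003208458 : ℕ) : ℝ) ≤ ((1000000000000000000 : ℕ) : ℝ) * S 408 257317477 :=
  chain t874 okB seg874 _ rfl

theorem t876 : ((454271599928257203 : ℕ) : ℝ) ≤ ((1000000000000000000 : ℕ) : ℝ) * S 408 257646211 :=
  chain t875 okB seg875 _ rfl

theorem t877 : ((454287487924680177 : ℕ) : ℝ) ≤ ((1000000000000000000 : ℕ) : ℝ) * S 408 257959693 :=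
  chain t876 okB seg876 _ rfl

theorem t878 : ((454303356280396308 : ℕ) : ℝ) ≤ ((1000000000000000000 : ℕ) : ℝ) * S 408 258287773 :=
  chain t877 okB seg877 _ rfl

theorem t879 : ((454319204448020568 : ℕ) : ℝ) ≤ ((1000000000000000000 : ℕ) : ℝ) * S 408 258621193 :=
  chain t878 okB seg878 _ rfl

theorem t880 : ((454335032290335798 : ℕ) : ℝ) ≤ ((1000000000000000000 : ℕ) : ℝ) * S 408 258946511 :=
  chain t879 okB seg879 _ rfl

theorem t881 : ((454350840047786208 : ℕ) : ℝ) ≤ ((1000000000000000000 : ℕ) : ℝ) * S 408 259279577 :=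
  chain t880 okB seg880 _ rfl

theorem t882 : ((454366627747526563 : ℕ) : ℝ) ≤ ((1000000000000000000 : ℕ) : ℝ) * S 408 259605331 :=
  chain t881 okB seg881 _ rfl

theorem t883 : ((454382395666127379 : ℕ) : ℝ) ≤ ((1000000000000000000 : ℕ) : ℝ) * S 408 259935097 :=
  chain t882 okB seg882 _ rfl

theorem t884 : ((454398143553646738 : ℕ) : ℝ) ≤ ((1000000000000000000 : ℕ) : ℝ) * S 408 260263411 :=
  chain t883 okB seg883 _ rfl

theorem t885 : ((454413871558840651 : ℕ) : ℝ) ≤ ((1000000000000000000 : ℕ) : ℝ) * S 408 260587081 :=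
  chain t884 okB seg884 _ rfl

theorem t886 : ((454429580121826749 : ℕ) : ℝ) ≤ ((1000000000000000000 : ℕ) : ℝ) * S 408 260915203 :=
  chain t885 okB seg885 _ rfl

theorem t887 : ((454445268840606020 : ℕ) : ℝ) ≤ ((1000000000000000000 : ℕ) : ℝ) * S 408 261242123 :=
  chain t886 okB seg886 _ rfl

theorem t888 : ((454460937914763346 : ℕ) : ℝ) ≤ ((1000000000000000000 : ℕ) : ℝ) * S 408 261564001 :=
  chain t887 okB seg887 _ rfl

theorem t889 : ((454476587804414960 : ℕ) : ℝ) ≤ ((1000000000000000000 : ℕ) : ℝ) * S 408 261895391 :=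
  chain t888 okB seg888 _ rfl

theorem t890 : ((454492217764873984 : ℕ) : ℝ) ≤ ((1000000000000000000 : ℕ) : ℝ) * S 408 262228567 :=
  chain t889 okB seg889 _ rfl

theorem t891 : ((454507827811326119 : ℕ) : ℝ) ≤ ((1000000000000000000 : ℕ) : ℝ) * S 408 262557151 :=
  chain t890 okB seg890 _ rfl

theorem t892 : ((454523418440377003 : ℕ) : ℝ) ≤ ((1000000000000000000 : ℕ) : ℝ) * S 408 262884851 :=
  chain t891 okB seg891 _ rfl

theorem t893 : ((454538989783528533 : ℕ) : ℝ) ≤ ((1000000000000000000 : ℕ) : ℝ) * S 408 263210191 :=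
  chain t892 okB seg892 _ rfl

theorem t894 : ((454554541511675173 : ℕ) : ℝ) ≤ ((1000000000000000000 : ℕ) : ℝ) * S 408 263545357 :=
  chain t893 okB seg893 _ rfl

theorem t895 : ((454570073740261118 : ℕ) : ℝ) ≤ ((1000000000000000000 : ℕ) : ℝ) * S 408 263871431 :=
  chain t894 okB seg894 _ rfl

theorem t896 : ((454585586780140235 : ℕ) : ℝ) ≤ ((1000000000000000000 : ℕ) : ℝ) * S 408 264201467 :=
  chain t895 okB seg895 _ rfl

theorem t897 : ((454601080548482528 : ℕ) : ℝ) ≤ ((1000000000000000000 : ℕ) : ℝ) * S 408 264532127 :=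
  chain t896 okB seg896 _ rfl

theorem t898 : ((454616554752359098 : ℕ) : ℝ) ≤ ((1000000000000000000 : ℕ) : ℝ) * S 408 264865241 :=
  chain t897 okB seg897 _ rfl

theorem t899 : ((454632009468030054 : ℕ) : ℝ) ≤ ((1000000000000000000 : ℕ) : ℝ) * S 408 265200541 :=
  chain t898 okB seg898 _ rfl

theorem t900 : ((454647444966461067 : ℕ) : ℝ) ≤ ((1000000000000000000 : ℕ) : ℝ) * S 408 265526851 :=
  chain t899 okB seg899 _ rfl

theorem t901 : ((454662861587666391 : ℕ) : ℝ) ≤ ((1000000000000000000 : ℕ) : ℝ) * S 408 265848971 :=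
  chain t900 okB seg900 _ rfl

theorem t902 : ((454678259414419407 : ℕ) : ℝ) ≤ ((1000000000000000000 : ℕ) : ℝ) * S 408 266174393 :=
  chain t901 okB seg901 _ rfl

theorem t903 : ((454693638372381359 : ℕ) : ℝ) ≤ ((1000000000000000000 : ℕ) : ℝ) * S 408 266503697 :=
  chain t902 okB seg902 _ rfl

theorem t904 : ((454708998264435587 : ℕ) : ℝ) ≤ ((1000000000000000000 : ℕ) : ℝ) * S 408 266836523 :=
  chain t903 okB seg903 _ rfl

theorem t905 : ((454724338971601531 : ℕ) : ℝ) ≤ ((1000000000000000000 : ℕ) : ℝ) * S 408 267167837 :=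
  chain t904 okB seg904 _ rfl

theorem t906 : ((454739660589273127 : ℕ) : ℝ) ≤ ((1000000000000000000 : ℕ) : ℝ) * S 408 267497353 :=
  chain t905 okB seg905 _ rfl

theorem t907 : ((454754963491266165 : ℕ) : ℝ) ≤ ((1000000000000000000 : ℕ) : ℝ) * S 408 267825511 :=
  chain t906 okB seg906 _ rfl

theorem t908 : ((454770247507661786 : ℕ) : ℝ) ≤ ((1000000000000000000 : ℕ) : ℝ) * S 408 268157951 :=
  chain t907 okB seg907 _ rfl

theorem t909 : ((454785512684646602 : ℕ) : ℝ) ≤ ((1000000000000000000 : ℕ) : ℝ) * S 408 268484663 :=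
  chain t908 okB seg908 _ rfl

theorem t910 : ((454800759239483360 : ℕ) : ℝ) ≤ ((1000000000000000000 : ℕ) : ℝ) * S 408 268818443 :=
  chain t909 okB seg909 _ rfl

theorem t911 : ((454815987331431223 : ℕ) : ℝ) ≤ ((1000000000000000000 : ℕ) : ℝ) * S 408 269137501 :=
  chain t910 okB seg910 _ rfl

theorem t912 : ((454831197134063603 : ℕ) : ℝ) ≤ ((1000000000000000000 : ℕ) : ℝ) * S 408 269462981 :=
  chain t911 okB seg911 _ rfl

theorem t913 : ((454846388116647685 : ℕ) : ℝ) ≤ ((1000000000000000000 : ℕ) : ℝ) * S 408 269803057 :=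
  chain t912 okB seg912 _ rfl

theorem t914 : ((454861560216283940 : ℕ) : ℝ) ≤ ((1000000000000000000 : ℕ) : ℝ) * S 408 270133027 :=
  chain t913 okB seg913 _ rfl

theorem t915 : ((454876714098243990 : ℕ) : ℝ) ≤ ((1000000000000000000 : ℕ) : ℝ) * S 408 270457757 :=
  chain t914 okB seg914 _ rfl

theorem t916 : ((454891849750626480 : ℕ) : ℝ) ≤ ((1000000000000000000 : ℕ) : ℝ) * S 408 270781447 :=
  chain t915 okB seg915 _ rfl

theorem t917 : ((454906967332175119 : ℕ) : ℝ) ≤ ((1000000000000000000 : ℕ) : ℝ) * S 408 271106441 :=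
  chain t916 okB seg916 _ rfl

theorem t918 : ((454922066754564256 : ℕ) : ℝ) ≤ ((1000000000000000000 : ℕ) : ℝ) * S 408 271432411 :=
  chain t917 okB seg917 _ rfl

theorem t919 : ((454937148095050073 : ℕ) : ℝ) ≤ ((1000000000000000000 : ℕ) : ℝ) * S 408 271757281 :=
  chain t918 okB seg918 _ rfl

theorem t920 : ((454952211021096573 : ℕ) : ℝ) ≤ ((1000000000000000000 : ℕ) : ℝ) * S 408 272095127 :=
  chain t919 okB seg919 _ rfl

theorem t921 : ((454967255214282363 : ℕ) : ℝ) ≤ ((1000000000000000000 : ℕ) : ℝ) * S 408 272430517 :=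
  chain t920 okB seg920 _ rfl

theorem t922 : ((454982281190862851 : ℕ) : ℝ) ≤ ((1000000000000000000 : ℕ) : ℝ) * S 408 272764411 :=
  chain t921 okB seg921 _ rfl

theorem t923 : ((454997288537939874 : ℕ) : ℝ) ≤ ((1000000000000000000 : ℕ) : ℝ) * S 408 273098213 :=
  chain t922 okB seg922 _ rfl

theorem t924 : ((455012277717928845 : ℕ) : ℝ) ≤ ((1000000000000000000 : ℕ) : ℝ) * S 408 273424153 :=
  chain t923 okB seg923 _ rfl

theorem t925 : ((455027249059330257 : ℕ) : ℝ) ≤ ((1000000000000000000 : ℕ) : ℝ) * S 408 273754753 :=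
  chain t924 okB seg924 _ rfl

theorem t926 : ((455042202268622038 : ℕ) : ℝ) ≤ ((1000000000000000000 : ℕ) : ℝ) * S 408 274087783 :=
  chain t925 okB seg925 _ rfl

theorem t927 : ((455057137456206804 : ℕ) : ℝ) ≤ ((1000000000000000000 : ℕ) : ℝ) * S 408 274415831 :=
  chain t926 okB seg926 _ rfl

theorem t928 : ((455072054485189232 : ℕ) : ℝ) ≤ ((1000000000000000000 : ℕ) : ℝ) * S 408 274751693 :=
  chain t927 okB seg927 _ rfl

theorem t929 : ((455086953520230582 : ℕ) : ℝ) ≤ ((1000000000000000000 : ℕ) : ℝ) * S 408 275078737 :=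
  chain t928 okB seg928 _ rfl

theorem t930 : ((455101835169514941 : ℕ) : ℝ) ≤ ((1000000000000000000 : ℕ) : ℝ) * S 408 275397803 :=
  chain t929 okB seg929 _ rfl

theorem t931 : ((455116699602482582 : ℕ) : ℝ) ≤ ((1000000000000000000 : ℕ) : ℝ) * S 408 275713303 :=
  chain t930 okB seg930 _ rfl

theorem t932 : ((455131546886220193 : ℕ) : ℝ) ≤ ((1000000000000000000 : ℕ) : ℝ) * S 408 276042973 :=
  chain t931 okB seg931 _ rfl

theorem t933 : ((455146376084617147 : ℕ) : ℝ) ≤ ((1000000000000000000 : ℕ) : ℝ) * S 408 276380261 :=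
  chain t932 okB seg932 _ rfl

theorem t934 : ((455161187469232414 : ℕ) : ℝ) ≤ ((1000000000000000000 : ℕ) : ℝ) * S 408 276710443 :=
  chain t933 okB seg933 _ rfl

theorem t935 : ((455175981178981360 : ℕ) : ℝ) ≤ ((1000000000000000000 : ℕ) : ℝ) * S 408 277041587 :=
  chain t934 okB seg934 _ rfl

theorem t936 : ((455190757136165882 : ℕ) : ℝ) ≤ ((1000000000000000000 : ℕ) : ℝ) * S 408 277370831 :=
  chain t935 okB seg935 _ rfl

theorem t937 : ((455205515852633798 : ℕ) : ℝ) ≤ ((1000000000000000000 : ℕ) : ℝ) * S 408 277688753 :=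
  chain t936 okB seg936 _ rfl

theorem t938 : ((455220257374637173 : ℕ) : ℝ) ≤ ((1000000000000000000 : ℕ) : ℝ) * S 408 278022203 :=
  chain t937 okB seg937 _ rfl

theorem t939 : ((455234981152225094 : ℕ) : ℝ) ≤ ((1000000000000000000 : ℕ) : ℝ) * S 408 278351597 :=
  chain t938 okB seg938 _ rfl

theorem t940 : ((455249687296330517 : ℕ) : ℝ) ≤ ((1000000000000000000 : ℕ) : ℝ) * S 408 278688721 :=
  chain t939 okB seg939 _ rfl

theorem t941 : ((455264375482802953 : ℕ) : ℝ) ≤ ((1000000000000000000 : ℕ) : ℝ) * S 408 279039577 :=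
  chain t940 okB seg940 _ rfl

theorem t942 : ((455279045426521839 : ℕ) : ℝ) ≤ ((1000000000000000000 : ℕ) : ℝ) * S 408 279386441 :=
  chain t941 okB seg941 _ rfl

theorem t943 : ((455293697816545048 : ℕ) : ℝ) ≤ ((1000000000000000000 : ℕ) : ℝ) * S 408 279704017 :=
  chain t942 okB seg942 _ rfl

theorem t944 : ((455308333127957905 : ℕ) : ℝ) ≤ ((1000000000000000000 : ℕ) : ℝ) * S 408 280037977 :=
  chain t943 okB seg943 _ rfl

theorem t945 : ((455322951295327006 : ℕ) : ℝ) ≤ ((1000000000000000000 : ℕ) : ℝ) * S 408 280358087 :=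
  chain t944 okB seg944 _ rfl

theorem t946 : ((455337552611435910 : ℕ) : ℝ) ≤ ((1000000000000000000 : ℕ) : ℝ) * S 408 280683031 :=
  chain t945 okB seg945 _ rfl

theorem t947 : ((455352137349373049 : ℕ) : ℝ) ≤ ((1000000000000000000 : ℕ) : ℝ) * S 408 281010271 :=
  chain t946 okB seg946 _ rfl

theorem t948 : ((455366704831472258 : ℕ) : ℝ) ≤ ((1000000000000000000 : ℕ) : ℝ) * S 408 281340611 :=
  chain t947 okB seg947 _ rfl

theorem t949 : ((455381255098825197 : ℕ) : ℝ) ≤ ((1000000000000000000 : ℕ) : ℝ) * S 408 281667143 :=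
  chain t948 okB seg948 _ rfl

theorem t950 : ((455395788397836529 : ℕ) : ℝ) ≤ ((1000000000000000000 : ℕ) : ℝ) * S 408 282003823 :=
  chain t949 okB seg949 _ rfl

theorem t951 : ((455410304365239224 : ℕ) : ℝ) ≤ ((1000000000000000000 : ℕ) : ℝ) * S 408 282339703 :=
  chain t950 okB seg950 _ rfl

theorem t952 : ((455424803243862168 : ℕ) : ℝ) ≤ ((1000000000000000000 : ℕ) : ℝ) * S 408 282669463 :=
  chain t951 okB seg951 _ rfl

theorem t953 : ((455439284905660158 : ℕ) : ℝ) ≤ ((1000000000000000000 : ℕ) : ℝ) * S 408 283009361 :=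
  chain t952 okB seg952 _ rfl

theorem t954 : ((455453749571323130 : ℕ) : ℝ) ≤ ((1000000000000000000 : ℕ) : ℝ) * S 408 283336387 :=
  chain t953 okB seg953 _ rfl

theorem t955 : ((455468197586389740 : ℕ) : ℝ) ≤ ((1000000000000000000 : ℕ) : ℝ) * S 408 283667897 :=
  chain t954 okB seg954 _ rfl

theorem t956 : ((455482628565159308 : ℕ) : ℝ) ≤ ((1000000000000000000 : ℕ) : ℝ) * S 408 284002457 :=
  chain t955 okB seg955 _ rfl

theorem t957 : ((455497042675963497 : ℕ) : ℝ) ≤ ((1000000000000000000 : ℕ) : ℝ) * S 408 284325631 :=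
  chain t956 okB seg956 _ rfl

theorem t958 : ((455511440381341339 : ℕ) : ℝ) ≤ ((1000000000000000000 : ℕ) : ℝ) * S 408 284656391 :=
  chain t957 okB seg957 _ rfl

theorem t959 : ((455525821235713915 : ℕ) : ℝ) ≤ ((1000000000000000000 : ℕ) : ℝ) * S 408 284991307 :=
  chain t958 okB seg958 _ rfl

theorem t960 : ((455540185242500997 : ℕ) : ℝ) ≤ ((1000000000000000000 : ℕ) : ℝ) * S 408 285319733 :=
  chain t959 okB seg959 _ rfl

theorem t961 : ((455554533209687363 : ℕ) : ℝ) ≤ ((1000000000000000000 : ℕ) : ℝ) * S 408 285636811 :=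
  chain t960 okB seg960 _ rfl

theorem t962 : ((455568864862654150 : ℕ) : ℝ) ≤ ((1000000000000000000 : ℕ) : ℝ) * S 408 285965677 :=
  chain t961 okB seg961 _ rfl

theorem t963 : ((455583179795034300 : ℕ) : ℝ) ≤ ((1000000000000000000 : ℕ) : ℝ) * S 408 286304393 :=
  chain t962 okB seg962 _ rfl

theorem t964 : ((455597478112130066 : ℕ) : ℝ) ≤ ((1000000000000000000 : ℕ) : ℝ) * S 408 286634063 :=
  chain t963 okB seg963 _ rfl

theorem t965 : ((455611760157722107 : ℕ) : ℝ) ≤ ((1000000000000000000 : ℕ) : ℝ) * S 408 286954267 :=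
  chain t964 okB seg964 _ rfl

theorem t966 : ((455626026185420403 : ℕ) : ℝ) ≤ ((1000000000000000000 : ℕ) : ℝ) * S 408 287277371 :=
  chain t965 okB seg965 _ rfl

theorem t967 : ((455640276170543465 : ℕ) : ℝ) ≤ ((1000000000000000000 : ℕ) : ℝ) * S 408 287601701 :=
  chain t966 okB seg966 _ rfl

theorem t968 : ((455654510053089315 : ℕ) : ℝ) ≤ ((1000000000000000000 : ℕ) : ℝ) * S 408 287929723 :=
  chain t967 okB seg967 _ rfl

theorem t969 : ((455668727553524674 : ℕ) : ℝ) ≤ ((1000000000000000000 : ℕ) : ℝ) * S 408 288260597 :=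
  chain t968 okB seg968 _ rfl

theorem t970 : ((455682928527699939 : ℕ) : ℝ) ≤ ((1000000000000000000 : ℕ) : ℝ) * S 408 288600197 :=
  chain t969 okB seg969 _ rfl

theorem t971 : ((455697112903848781 : ℕ) : ℝ) ≤ ((1000000000000000000 : ℕ) : ℝ) * S 408 288930833 :=
  chain t970 okB seg970 _ rfl

theorem t972 : ((455711281174134393 : ℕ) : ℝ) ≤ ((1000000000000000000 : ℕ) : ℝ) * S 408 289263413 :=
  chain t971 okB seg971 _ rfl

theorem t973 : ((455725433184995548 : ℕ) : ℝ) ≤ ((1000000000000000000 : ℕ) : ℝ) * S 408 289594687 :=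
  chain t972 okB seg972 _ rfl

theorem t974 : ((455739568998637336 : ℕ) : ℝ) ≤ ((1000000000000000000 : ℕ) : ℝ) * S 408 289924931 :=
  chain t973 okB seg973 _ rfl

theorem t975 : ((455753688649712809 : ℕ) : ℝ) ≤ ((1000000000000000000 : ℕ) : ℝ) * S 408 290267371 :=
  chain t974 okB seg974 _ rfl

theorem t976 : ((455767791747671983 : ℕ) : ℝ) ≤ ((1000000000000000000 : ℕ) : ℝ) * S 408 290597173 :=
  chain t975 okB seg975 _ rfl

theorem t977 : ((455781878603674272 : ℕ) : ℝ) ≤ ((1000000000000000000 : ℕ) : ℝ) * S 408 290936917 :=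
  chain t976 okB seg976 _ rfl

theorem t978 : ((455795949575078893 : ℕ) : ℝ) ≤ ((1000000000000000000 : ℕ) : ℝ) * S 408 291253477 :=
  chain t977 okB seg977 _ rfl

theorem t979 : ((455810004859956460 : ℕ) : ℝ) ≤ ((1000000000000000000 : ℕ) : ℝ) * S 408 291589021 :=
  chain t978 okB seg978 _ rfl

theorem t980 : ((455824043829964456 : ℕ) : ℝ) ≤ ((1000000000000000000 : ℕ) : ℝ) * S 408 291923237 :=
  chain t979 okB seg979 _ rfl

theorem t981 : ((455838066734061588 : ℕ) : ℝ) ≤ ((1000000000000000000 : ℕ) : ℝ) * S 408 292261351 :=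
  chain t980 okB seg980 _ rfl

theorem t982 : ((455852073371822212 : ℕ) : ℝ) ≤ ((1000000000000000000 : ℕ) : ℝ) * S 408 292600943 :=
  chain t981 okB seg981 _ rfl

theorem t983 : ((455866063966107633 : ℕ) : ℝ) ≤ ((1000000000000000000 : ℕ) : ℝ) * S 408 292935023 :=
  chain t982 okB seg982 _ rfl

theorem t984 : ((455880038628244980 : ℕ) : ℝ) ≤ ((1000000000000000000 : ℕ) : ℝ) * S 408 293268863 :=
  chain t983 okB seg983 _ rfl

theorem t985 : ((455893997235939099 : ℕ) : ℝ) ≤ ((1000000000000000000 : ℕ) : ℝ) * S 408 293600563 :=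
  chain t984 okB seg984 _ rfl

theorem t986 : ((455907940168690364 : ℕ) : ℝ) ≤ ((1000000000000000000 : ℕ) : ℝ) * S 408 293931943 :=
  chain t985 okB seg985 _ rfl

theorem t987 : ((455921867599571874 : ℕ) : ℝ) ≤ ((1000000000000000000 : ℕ) : ℝ) * S 408 294260027 :=
  chain t986 okB seg986 _ rfl

theorem t988 : ((455935779460290215 : ℕ) : ℝ) ≤ ((1000000000000000000 : ℕ) : ℝ) * S 408 294587737 :=
  chain t987 okB seg987 _ rfl

theorem t989 : ((455949675734858391 : ℕ) : ℝ) ≤ ((1000000000000000000 : ℕ) : ℝ) * S 408 294922907 :=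
  chain t988 okB seg988 _ rfl

theorem t990 : ((455963556089674438 : ℕ) : ℝ) ≤ ((1000000000000000000 : ℕ) : ℝ) * S 408 295266011 :=
  chain t989 okB seg989 _ rfl

theorem t991 : ((455977420533807788 : ℕ) : ℝ) ≤ ((1000000000000000000 : ℕ) : ℝ) * S 408 295604371 :=
  chain t990 okB seg990 _ rfl

theorem t992 : ((455991269097117874 : ℕ) : ℝ) ≤ ((1000000000000000000 : ℕ) : ℝ) * S 408 295938337 :=
  chain t991 okB seg991 _ rfl

theorem t993 : ((456005102104623689 : ℕ) : ℝ) ≤ ((1000000000000000000 : ℕ) : ℝ) * S 408 296273561 :=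
  chain t992 okB seg992 _ rfl

theorem t994 : ((456018919830849512 : ℕ) : ℝ) ≤ ((1000000000000000000 : ℕ) : ℝ) * S 408 296592691 :=
  chain t993 okB seg993 _ rfl

theorem t995 : ((456032722267433413 : ℕ) : ℝ) ≤ ((1000000000000000000 : ℕ) : ℝ) * S 408 296928547 :=
  chain t994 okB seg994 _ rfl

theorem t996 : ((456046509195961419 : ℕ) : ℝ) ≤ ((1000000000000000000 : ℕ) : ℝ) * S 408 297257827 :=
  chain t995 okB seg995 _ rfl

theorem t997 : ((456060280730067592 : ℕ) : ℝ) ≤ ((1000000000000000000 : ℕ) : ℝ) * S 408 297587131 :=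
  chain t996 okB seg996 _ rfl

theorem t998 : ((456074037072646300 : ℕ) : ℝ) ≤ ((1000000000000000000 : ℕ) : ℝ) * S 408 297917267 :=
  chain t997 okB seg997 _ rfl

theorem t999 : ((456087778189070012 : ℕ) : ℝ) ≤ ((1000000000000000000 : ℕ) : ℝ) * S 408 298249423 :=
  chain t998 okB seg998 _ rfl

theorem t1000 : ((456101504309778292 : ℕ) : ℝ) ≤ ((1000000000000000000 : ℕ) : ℝ) * S 408 298571951 :=
  chain t999 okB seg999 _ rfl

theorem t1001 : ((456115215277949884 : ℕ) : ℝ) ≤ ((1000000000000000000 : ℕ) : ℝ) * S 408 298905127 :=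
  chain t1000 okB seg1000 _ rfl

theorem t1002 : ((456128911079634607 : ℕ) : ℝ) ≤ ((1000000000000000000 : ℕ) : ℝ) * S 408 299229487 :=
  chain t1001 okB seg1001 _ rfl

theorem t1003 : ((456142592159407354 : ℕ) : ℝ) ≤ ((1000000000000000000 : ℕ) : ℝ) * S 408 299556913 :=
  chain t1002 okB seg1002 _ rfl

end Pool.Agent.X28.Wolf
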