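import Pool.Agent.X28.Wolf.Bits

/-!
Correctness of the sieve.
-/

set_option autoImplicit false

namespace Pool.Agent.X28.Wolf

theorem fac_eq : fac = Nat.factorial 141 := by decide +kernel

theorem res_spec {K c q u : ℕ} (hq : 1 ≤ q) (hu : q ∣ 6 * u - 1) (hu1 : 1 ≤ u) :
    q ∣ 6 * (K + res K c q u) + c := by
  have h : res K c q u = ((q - (6 * K + c) % q) * u) % q := rfl
  have h1 : (6 * K + c) % q < q := Nat.mod_lt _ hq
  have h2 : res K c q u ≡ (q - (6 * K + c) % q) * u [MOD q] := by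
    rw [h]; exact Nat.mod_modEq _ _
  have h3 : 6 * u ≡ 1 [MOD q] := by
    have := (Nat.modEq_iff_dvd' (show 1 ≤ 6 * u by omega)).2 hu
    exact this.symm
  have h4 : 6 * res K c q u ≡ q - (6 * K + c) % q [MOD q] := by
    calc 6 * res K c q u ≡ 6 * ((q - (6 * K + c) % q) * u) [MOD q] := h2.mul_left 6
      _ = (q - (6 * K + c) % q) * (6 * u) := by ring
      _ ≡ (q - (6 * K + c) % q) * 1 [MOD q] := h3.mul_left _
      _ = q - (6 * K + c) % q := by ring
  have h5 : 6 * (K + res K c q u) + c ≡ 0 [MOD q] := by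
    have e : 6 * (K + res K c q u) + c = (6 * K + c) + 6 * res K c q u := by ring
    rw [e]
    calc (6 * K + c) + 6 * res K c q u ≡ (6 * K + c) % q + (q - (6 * K + c) % q) [MOD q] :=
          (Nat.mod_modEq _ _).symm.add h4
      _ = q := by omega
      _ ≡ 0 [MOD q] := by simp [Nat.ModEq]
  exact (Nat.modEq_zero_iff_dvd).1 h5

theorem res_lt {K c q u : ℕ} (hq : 1 ≤ q) : res K c q u < q := Nat.mod_lt _ hq

theorem testBit_mark {K L c q u i : ℕ} (hq : 1 ≤ q) (hu : q ∣ 6 * u - 1) (hu1 : 1 ≤ u)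
    (hi : i < L) : (mark K L c q u).testBit i = true ↔ q ∣ 6 * (K + i) + c := by
  have h : mark K L c q u = rep q (Nat.log2 (L / q) + 1) <<< res K c q u := rfl
  have hr := res_spec (K := K) (c := c) hq hu hu1
  have hlt := res_lt (K := K) (c := c) (u := u) hq
  rw [h, Nat.testBit_shiftLeft, Bool.and_eq_true, decide_eq_true_eq, testBit_rep hq]
  set r := res K c q u with hrdef
  have hL : L < q * 2 ^ (Nat.log2 (L / q) + 1) := by
    have h1 : L / q < 2 ^ (Nat.log2 (L / q) + 1) := Nat.lt_log2_self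
    rw [Nat.div_lt_iff_lt_mul hq] at h1
    rwa [mul_comm]
  constructor
  · rintro ⟨h1, h2, h3⟩
    obtain ⟨t, ht⟩ := h2
    have h4 : i = r + q * t := by omega
    have e : 6 * (K + i) + c = (6 * (K + r) + c) + q * (6 * t) := by rw [h4]; ring
    rw [e]
    exact Nat.dvd_add hr (dvd_mul_right _ _)
  · intro h1
    have h3 : 6 * u ≡ 1 [MOD q] := by
      have := (Nat.modEq_iff_dvd' (show 1 ≤ 6 * u by omega)).2 hu
      exact this.symm
    have h4 : 6 * i ≡ 6 * r [MOD q] := by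
      have e1 : (6 * K + c) + 6 * i ≡ (6 * K + c) + 6 * r [MOD q] := by
        have a1 : (6 * K + c) + 6 * i ≡ 0 [MOD q] := by
          apply (Nat.modEq_zero_iff_dvd).2
          have : (6 * K + c) + 6 * i = 6 * (K + i) + c := by ring
          rwa [this]
        have a2 : (6 * K + c) + 6 * r ≡ 0 [MOD q] := by
          apply (Nat.modEq_zero_iff_dvd).2
          have : (6 * K + c) + 6 * r = 6 * (K + r) + c := by ring
          rwa [this]
        exact a1.trans a2.symm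
      exact Nat.ModEq.add_left_cancel' _ e1
    have h5 : i ≡ r [MOD q] := by
      calc i = 1 * i := by ring
        _ ≡ (6 * u) * i [MOD q] := h3.symm.mul_right i
        _ = u * (6 * i) := by ring
        _ ≡ u * (6 * r) [MOD q] := h4.mul_left u
        _ = (6 * u) * r := by ring
        _ ≡ 1 * r [MOD q] := h3.mul_right r
        _ = r := by ring
    have h6 : r ≤ i := by
      have : i % q = r := by rw [h5, Nat.mod_eq_of_lt hlt]
      rw [← this]; exact Nat.mod_le _ _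
    refine ⟨h6, ?_, by omega⟩
    exact (Nat.modEq_iff_dvd' h6).1 h5.symm

theorem testBit_cond (b : Bool) (x i : ℕ) :
    (cond b x 0).testBit i = true ↔ b = true ∧ x.testBit i = true := by
  cases b <;> simp

theorem testBit_leaf {K L B c j i : ℕ} (hi : i < L) : (leaf K L B c j).testBit i = true ↔
    (use B (6 * j + 5) = true ∧ 6 * j + 5 ∣ 6 * (K + i) + c) ∨
    (use B (6 * j + 7) = true ∧ 6 * j + 7 ∣ 6 * (K + i) + c) := by
  have h : leaf K L B c j = (cond (use B (6 * j + 5)) (mark K L c (6 * j + 5) (j + 1)) 0) |||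
    (cond (use B (6 * j + 7)) (mark K L c (6 * j + 7) (6 * j + 7 - (j + 1))) 0) := rfl
  rw [h, Nat.testBit_or, Bool.or_eq_true, testBit_cond, testBit_cond,
    testBit_mark (by omega) ⟨1, by omega⟩ (by omega) hi,
    testBit_mark (by omega) ⟨5, by omega⟩ (by omega) hi]

theorem testBit_sv {K L B d c i : ℕ} (hi : i < L) : (sv K L B d c).testBit i = true ↔
    ∃ j < 2 ^ d, (use B (6 * j + 5) = true ∧ 6 * j + 5 ∣ 6 * (K + i) + c) ∨
      (use B (6 * j + 7) = true ∧ 6 * j + 7 ∣ 6 * (K + i) + c) := by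
  have h : sv K L B d c = tree (leaf K L B c) d 0 := rfl
  rw [h, testBit_tree]
  constructor
  · rintro ⟨j, _, h2, h3⟩
    exact ⟨j, by omega, (testBit_leaf hi).1 h3⟩
  · rintro ⟨j, h2, h3⟩
    exact ⟨j, by omega, by omega, (testBit_leaf hi).2 h3⟩

theorem use_le {B q : ℕ} (h : use B q = true) : q ≤ B := by
  unfold use at h
  rw [Bool.and_eq_true] at h
  exact Nat.le_of_ble_eq_true h.1

theorem use_of_prime {B q : ℕ} (hq : q.Prime) (h : q ≤ B) : use B q = true := by
  unfold use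
  rw [Bool.and_eq_true, Bool.or_eq_true]
  refine ⟨Nat.ble_eq_true_of_le h, ?_⟩
  by_cases h1 : q ≤ 141
  · exact Or.inl (Nat.ble_eq_true_of_le h1)
  · right
    have : Nat.Coprime q fac := by
      rw [fac_eq, Nat.Prime.coprime_iff_not_dvd hq, Nat.Prime.dvd_factorial hq]
      exact h1
    rw [this]
    rfl

/-- an unmarked number is prime -/
theorem prime_of_sv {K L B d c i : ℕ} (hi : i < L) (hc : c = 1 ∨ c = 5) (hK : 1 ≤ K)
    (hd : B < 6 * 2 ^ d) (hB : 6 * (K + L) ≤ (B + 1) ^ 2)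
    (h : (sv K L B d c).testBit i = false) : (6 * (K + i) + c).Prime := by
  by_contra hp
  set n := 6 * (K + i) + c with hn
  have hn1 : n < 6 * (K + L) := by omega
  have h2 := Nat.minFac_sq_le_self (show 0 < n by omega) hp
  have h3 : n.minFac < B + 1 := by
    by_contra h4
    have h5 : B + 1 ≤ n.minFac := by omega
    have h6 := Nat.pow_le_pow_left h5 2
    omega
  have hq := Nat.minFac_prime (show n ≠ 1 by omega)
  have hdvd := Nat.minFac_dvd n
  set q := n.minFac with hqdef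
  have hq2 : q ≠ 2 := by
    intro h7
    rw [h7] at hdvd
    omega
  have hq3 : q ≠ 3 := by
    intro h7
    rw [h7] at hdvd
    omega
  have hq4 : q ≠ 4 := by
    intro h7
    rw [h7] at hq
    exact absurd hq (by norm_num)
  have h5 : 5 ≤ q := by
    have := hq.two_le
    omega
  have hm2 : q % 2 ≠ 0 := by
    intro h7
    have h8 : 2 ∣ q := Nat.dvd_of_mod_eq_zero h7
    exact hq2 ((Nat.prime_dvd_prime_iff_eq Nat.prime_two hq).1 h8).symm
  have hm3 : q % 3 ≠ 0 := by
    intro h7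
    have h8 : 3 ∣ q := Nat.dvd_of_mod_eq_zero h7
    exact hq3 ((Nat.prime_dvd_prime_iff_eq Nat.prime_three hq).1 h8).symm
  have huse := use_of_prime hq (show q ≤ B by omega)
  have hno : ¬ ∃ j < 2 ^ d, (use B (6 * j + 5) = true ∧ 6 * j + 5 ∣ 6 * (K + i) + c) ∨
      (use B (6 * j + 7) = true ∧ 6 * j + 7 ∣ 6 * (K + i) + c) := by
    rw [← testBit_sv hi, h]
    simp
  apply hno
  have hcases : q % 6 = 5 ∨ q % 6 = 1 := by omega
  rcases hcases with h6 | h6
  · refine ⟨(q - 5) / 6, by omega, Or.inl ?_⟩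
    have e : 6 * ((q - 5) / 6) + 5 = q := by omega
    rw [e]
    exact ⟨huse, hdvd⟩
  · refine ⟨(q - 7) / 6, by omega, Or.inr ?_⟩
    have e : 6 * ((q - 7) / 6) + 7 = q := by omega
    rw [e]
    exact ⟨huse, hdvd⟩

/-- a marked number is composite -/
theorem not_prime_of_sv {K L B d c i : ℕ} (hi : i < L) (hBK : B < 6 * K)
    (h : (sv K L B d c).testBit i = true) : ¬ (6 * (K + i) + c).Prime := by
  rw [testBit_sv hi] at h
  obtain ⟨j, _, h1⟩ := h
  intro hp
  rcases h1 with ⟨h1, h2⟩ | ⟨h1, h2⟩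
  · have h3 := use_le h1
    rcases (Nat.dvd_prime hp).1 h2 with h4 | h4 <;> omega
  · have h3 := use_le h1
    rcases (Nat.dvd_prime hp).1 h2 with h4 | h4 <;> omega

/-- `p` and `p + h` are consecutive primes -/
def IsGap (h p : ℕ) : Prop := p.Prime ∧ (p + h).Prime ∧ ∀ m : ℕ, p < m → m < p + h → ¬ m.Prime

theorem not_prime_of_dvd {d n : ℕ} (hd : 2 ≤ d) (hdn : d < n) (h : d ∣ n) : ¬ n.Prime := by
  intro hp
  rcases (Nat.dvd_prime hp).1 h with h4 | h4 <;> omega

theorem gap_one {k : ℕ} (hk : 1 ≤ k) (h1 : (6 * k + 1).Prime) (h2 : (6 * k + 7).Prime)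
    (h3 : ¬ (6 * k + 5).Prime) : IsGap 6 (6 * k + 1) := by
  refine ⟨h1, h2, fun m hm1 hm2 => ?_⟩
  have : m = 6 * k + 2 ∨ m = 6 * k + 3 ∨ m = 6 * k + 4 ∨ m = 6 * k + 5 ∨ m = 6 * k + 6 := by omega
  rcases this with rfl | rfl | rfl | rfl | rfl
  · exact not_prime_of_dvd (d := 2) le_rfl (by omega) (by omega)
  · exact not_prime_of_dvd (d := 3) (by omega) (by omega) (by omega)
  · exact not_prime_of_dvd (d := 2) le_rfl (by omega) (by omega)
  · exact h3
  · exact not_prime_of_dvd (d := 2) le_rfl (by omega) (by omega)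

theorem gap_five {k : ℕ} (h1 : (6 * k + 5).Prime) (h2 : (6 * k + 11).Prime)
    (h3 : ¬ (6 * k + 7).Prime) : IsGap 6 (6 * k + 5) := by
  refine ⟨h1, h2, fun m hm1 hm2 => ?_⟩
  have : m = 6 * k + 6 ∨ m = 6 * k + 7 ∨ m = 6 * k + 8 ∨ m = 6 * k + 9 ∨ m = 6 * k + 10 := by omega
  rcases this with rfl | rfl | rfl | rfl | rfl
  · exact not_prime_of_dvd (d := 2) le_rfl (by omega) (by omega)
  · exact h3
  · exact not_prime_of_dvd (d := 2) le_rfl (by omega) (by omega)
  · exact not_prime_of_dvd (d := 3) (by omega) (by omega) (by omega)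
  · exact not_prime_of_dvd (d := 2) le_rfl (by omega) (by omega)

theorem gap_of_g1 {K L B d i : ℕ} (hK : 1 ≤ K) (hBK : B < 6 * K) (hd : B < 6 * 2 ^ d)
    (hB : 6 * (K + L) ≤ (B + 1) ^ 2)
    (h : (g1 L (sv K L B d 1) (sv K L B d 5)).testBit i = true) : IsGap 6 (6 * (K + i) + 1) := by
  obtain ⟨h1, h2, h3, h4⟩ := testBit_g1 h
  have a1 := prime_of_sv (by omega) (Or.inl rfl) hK hd hB h2
  have a2 := prime_of_sv (by omega) (Or.inl rfl) hK hd hB h3
  have a3 := not_prime_of_sv (by omega) hBK h4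
  refine gap_one (by omega) a1 ?_ a3
  have e : 6 * (K + i) + 7 = 6 * (K + (i + 1)) + 1 := by ring
  rw [e]
  exact a2

theorem gap_of_g5 {K L B d i : ℕ} (hK : 1 ≤ K) (hBK : B < 6 * K) (hd : B < 6 * 2 ^ d)
    (hB : 6 * (K + L) ≤ (B + 1) ^ 2)
    (h : (g5 L (sv K L B d 1) (sv K L B d 5)).testBit i = true) : IsGap 6 (6 * (K + i) + 5) := by
  obtain ⟨h1, h2, h3, h4⟩ := testBit_g5 h
  have a1 := prime_of_sv (by omega) (Or.inr rfl) hK hd hB h2
  have a2 := prime_of_sv (by omega) (Or.inr rfl) hK hd hB h3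
  have a3 := not_prime_of_sv (by omega) hBK h4
  refine gap_five a1 ?_ ?_
  · have e : 6 * (K + i) + 11 = 6 * (K + (i + 1)) + 5 := by ring
    rw [e]
    exact a2
  · have e : 6 * (K + i) + 7 = 6 * (K + (i + 1)) + 1 := by ring
    rw [e]
    exact a3

open Classical in
/-- the summand of the generalised Brun constant -/
noncomputable def F (p : ℕ) : ℝ := if IsGap 6 p then 1 / (p : ℝ) + 1 / ((p : ℝ) + 6) else 0

theorem F_nonneg (p : ℕ) : 0 ≤ F p := by
  unfold F
  split_ifs <;> positivity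

theorem F_ge {p N : ℕ} (h : IsGap 6 p) (hN : p + 6 ≤ N) : 2 / (N : ℝ) ≤ F p := by
  unfold F
  rw [if_pos h]
  have hp : (0 : ℝ) < p := by exact_mod_cast h.1.pos
  have hN' : (p : ℝ) + 6 ≤ N := by exact_mod_cast hN
  have h1 : 1 / (N : ℝ) ≤ 1 / (p : ℝ) := one_div_le_one_div_of_le hp (by linarith)
  have h2 : 1 / (N : ℝ) ≤ 1 / ((p : ℝ) + 6) := one_div_le_one_div_of_le (by linarith) hN'
  calc 2 / (N : ℝ) = 1 / (N : ℝ) + 1 / (N : ℝ) := by ring
    _ ≤ _ := add_le_add h1 h2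

/-- the sum over `[a, b)` -/
noncomputable def S (a b : ℕ) : ℝ := ∑ p ∈ Finset.Ico a b, F p

theorem S_add {a b c : ℕ} (h1 : a ≤ b) (h2 : b ≤ c) : S a b + S b c = S a c :=
  Finset.sum_Ico_consecutive _ h1 h2

theorem S_six (k : ℕ) : F (6 * k + 1) + F (6 * k + 5) ≤ S (6 * k) (6 * (k + 1)) := by
  unfold S
  have e : Finset.Ico (6 * k) (6 * (k + 1)) = {6 * k, 6 * k + 1, 6 * k + 2, 6 * k + 3, 6 * k + 4, 6 * k + 5} := by
    ext x
    simp only [Finset.mem_Ico, Finset.mem_insert, Finset.mem_singleton]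
    omega
  rw [e]
  have hs : ({6 * k + 1, 6 * k + 5} : Finset ℕ) ⊆
      {6 * k, 6 * k + 1, 6 * k + 2, 6 * k + 3, 6 * k + 4, 6 * k + 5} := by
    intro x hx
    simp only [Finset.mem_insert, Finset.mem_singleton] at hx ⊢
    omega
  refine le_trans (le_of_eq ?_) (Finset.sum_le_sum_of_subset_of_nonneg hs fun p _ _ => F_nonneg p)
  rw [Finset.sum_pair (by omega)]

theorem S_block (k1 n : ℕ) : ∑ j ∈ Finset.range n, (F (6 * (k1 + j) + 1) + F (6 * (k1 + j) + 5)) ≤
    S (6 * k1) (6 * (k1 + n)) := by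
  induction n with
  | zero => simp [S]
  | succ n ih =>
    rw [Finset.sum_range_succ, ← S_add (show 6 * k1 ≤ 6 * (k1 + n) by omega)
      (show 6 * (k1 + n) ≤ 6 * (k1 + (n + 1)) by omega)]
    exact add_le_add ih (S_six (k1 + n))

theorem term_le {E K L B d m i : ℕ} (hK : 1 ≤ K) (hBK : B < 6 * K) (hd : B < 6 * 2 ^ d)
    (hB : 6 * (K + L) ≤ (B + 1) ^ 2) :
    ((term E K m (g1 L (sv K L B d 1) (sv K L B d 5)) (g5 L (sv K L B d 1) (sv K L B d 5)) i : ℕ) : ℝ) ≤
      E * S (6 * (K + i * 2 ^ m)) (6 * (K + (i + 1) * 2 ^ m)) := by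
  set G1 := g1 L (sv K L B d 1) (sv K L B d 5) with hG1
  set G5 := g5 L (sv K L B d 1) (sv K L B d 5) with hG5
  have h : term E K m G1 G5 i = (E * (pc m (blk (2 ^ m) G1 i) + pc m (blk (2 ^ m) G5 i))) /
      (3 * (K + (i + 1) * 2 ^ m + 1)) := rfl
  rw [h, pc_eq, pc_eq, ← Finset.sum_add_distrib]
  refine Nat.cast_div_le.trans ?_
  rw [Nat.cast_mul, mul_div_assoc]
  apply mul_le_mul_of_nonneg_left _ (Nat.cast_nonneg _)
  have hend : 6 * (K + (i + 1) * 2 ^ m) = 6 * ((K + i * 2 ^ m) + 2 ^ m) := by ring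
  rw [hend]
  refine le_trans ?_ (S_block (K + i * 2 ^ m) (2 ^ m))
  rw [Nat.cast_sum, Finset.sum_div]
  apply Finset.sum_le_sum
  intro j hj
  rw [Finset.mem_range] at hj
  rw [testBit_blk hj, testBit_blk hj, Nat.cast_add, add_div]
  set N : ℕ := 3 * (K + (i + 1) * 2 ^ m + 1) with hN
  have hNj : 6 * (K + i * 2 ^ m + j) + 5 + 6 ≤ 2 * N := by
    rw [hN]
    have : (i + 1) * 2 ^ m = i * 2 ^ m + 2 ^ m := by ring
    rw [this]
    omega
  have hNpos : (0 : ℝ) < N := by
    have : 0 < N := by omega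
    exact_mod_cast this
  have h2N : (2 : ℝ) / ((2 * N : ℕ) : ℝ) = 1 / N := by
    push_cast
    field_simp
  have e1 : ∀ i' : ℕ, K + i' = K + i' := fun _ => rfl
  apply add_le_add
  · cases hb : G1.testBit (i * 2 ^ m + j)
    · simp only [Bool.toNat_false, Nat.cast_zero, zero_div]
      exact F_nonneg _
    · simp only [Bool.toNat_true, Nat.cast_one]
      have hg := gap_of_g1 hK hBK hd hB hb
      rw [← h2N]
      have e : K + i * 2 ^ m + j = K + (i * 2 ^ m + j) := by ring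
      rw [e]
      exact F_ge hg (by omega)
  · cases hb : G5.testBit (i * 2 ^ m + j)
    · simp only [Bool.toNat_false, Nat.cast_zero, zero_div]
      exact F_nonneg _
    · simp only [Bool.toNat_true, Nat.cast_one]
      have hg := gap_of_g5 hK hBK hd hB hb
      rw [← h2N]
      have e : K + i * 2 ^ m + j = K + (i * 2 ^ m + j) := by ring
      rw [e]
      exact F_ge hg (by omega)

/-- the segment theorem -/
theorem val_le {E K e m B d : ℕ} (hK : 1 ≤ K) (hBK : B < 6 * K) (hd : B < 6 * 2 ^ d)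
    (hB : 6 * (K + 2 ^ (e + m)) ≤ (B + 1) ^ 2) :
    ((val E K e m B d : ℕ) : ℝ) ≤ E * S (6 * K) (6 * (K + 2 ^ (e + m))) := by
  set L := 2 ^ (e + m) with hL
  have h : val E K e m B d = treeSum (term E K m (g1 L (sv K L B d 1) (sv K L B d 5))
    (g5 L (sv K L B d 1) (sv K L B d 5))) e 0 := rfl
  rw [h, treeSum_eq, zero_add, Nat.Ico_zero_eq_range, Nat.cast_sum]
  have key : ∀ n : ℕ, ∑ i ∈ Finset.range n, ((term E K m (g1 L (sv K L B d 1) (sv K L B d 5))
      (g5 L (sv K L B d 1) (sv K L B d 5)) i : ℕ) : ℝ) ≤ E * S (6 * K) (6 * (K + n * 2 ^ m)) := by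
    intro n
    induction n with
    | zero => simp [S]
    | succ n ih =>
      rw [Finset.sum_range_succ, ← S_add (show 6 * K ≤ 6 * (K + n * 2 ^ m) by omega)
        (Nat.mul_le_mul_left 6 (Nat.add_le_add_left
          (Nat.mul_le_mul_right (2 ^ m) (Nat.le_succ n)) K)), mul_add]
      exact add_le_add ih (term_le hK hBK hd hB)
  have := key (2 ^ e)
  rwa [← pow_add] at this

end Pool.Agent.X28.Wolf
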