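import Mathlib
import Pool.Agent.X28.Wolf.Sieve

/-!
An upper bound of the twin prime constant by a finite product.
-/

set_option autoImplicit false

namespace Pool.Agent.X28.Wolf

/-- the factor of the twin prime constant -/
noncomputable def tf (n : ℕ) : ℝ := 1 - 1 / ((n : ℝ) - 1) ^ 2

theorem tf_nonneg {n : ℕ} (hn : 2 < n) : 0 ≤ tf n := by
  unfold tf
  have h : (3 : ℝ) ≤ n := by exact_mod_cast hn
  rw [sub_nonneg, div_le_one (by nlinarith)]
  nlinarith

theorem tf_le {n : ℕ} : tf n ≤ 1 := by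
  unfold tf
  have : 0 ≤ 1 / ((n : ℝ) - 1) ^ 2 := by positivity
  linarith

theorem summable_aux : Summable (fun p : {p : ℕ // p.Prime ∧ 2 < p} => 1 / (((p : ℕ) : ℝ) - 1) ^ 2) := by
  have h1 : Summable (fun n : ℕ => 4 * (1 / (n : ℝ) ^ 2)) :=
    (Real.summable_one_div_nat_pow.2 (by norm_num)).mul_left 4
  have h2 : Summable (fun p : {p : ℕ // p.Prime ∧ 2 < p} => 4 * (1 / ((p : ℕ) : ℝ) ^ 2)) :=
    h1.comp_injective Subtype.val_injective
  refine Summable.of_nonneg_of_le (fun p => by positivity) (fun p => ?_) h2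
  have h3 : (3 : ℝ) ≤ (p : ℕ) := by exact_mod_cast p.2.2
  rw [mul_one_div, div_le_div_iff₀ (by nlinarith) (by positivity)]
  nlinarith

theorem multipliable_tf : Multipliable (fun p : {p : ℕ // p.Prime ∧ 2 < p} => tf p) := by
  have h := Real.multipliable_one_add_of_summable (summable_aux.neg)
  refine h.congr fun p => ?_
  unfold tf
  ring

theorem tprod_le (s0 : Finset {p : ℕ // p.Prime ∧ 2 < p}) :
    ∏' p : {p : ℕ // p.Prime ∧ 2 < p}, tf p ≤ ∏ p ∈ s0, tf p := by
  have h : Filter.Tendsto (fun s : Finset {p : ℕ // p.Prime ∧ 2 < p} => ∏ p ∈ s, tf p)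
      Filter.atTop (nhds (∏' p : {p : ℕ // p.Prime ∧ 2 < p}, tf p)) := by
    have := multipliable_tf.hasProd
    simpa [HasProd] using this
  refine le_of_tendsto h ?_
  filter_upwards [Filter.eventually_ge_atTop s0] with s hs
  exact Finset.prod_le_prod_of_subset_of_le_one hs (fun p _ => tf_nonneg p.2.2) (fun _ _ _ => tf_le)

theorem tprod_nonneg : 0 ≤ ∏' p : {p : ℕ // p.Prime ∧ 2 < p}, tf p := by
  have h : Filter.Tendsto (fun s : Finset {p : ℕ // p.Prime ∧ 2 < p} => ∏ p ∈ s, tf p)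
      Filter.atTop (nhds (∏' p : {p : ℕ // p.Prime ∧ 2 < p}, tf p)) := by
    have := multipliable_tf.hasProd
    simpa [HasProd] using this
  exact ge_of_tendsto' h fun s => Finset.prod_nonneg fun p _ => tf_nonneg p.2.2

/-- primes between 3 and 139 -/
def l1 : List ℕ := [3, 5, 7, 11, 13, 17, 19, 23, 29, 31, 37, 41, 43, 47, 53, 59, 61, 67, 71, 73, 79,
  83, 89, 97, 101, 103, 107, 109, 113, 127, 131, 137, 139]

/-- primes between 142 and 4000 -/
def l2 : List ℕ := (List.range' 142 3858).filter (fun q => Nat.beq (Nat.gcd q fac) 1)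

theorem l1_prime : ∀ p ∈ l1, p.Prime ∧ 2 < p := by
  intro p hp
  simp only [l1, List.mem_cons, List.not_mem_nil, or_false] at hp
  rcases hp with rfl | rfl | rfl | rfl | rfl | rfl | rfl | rfl | rfl | rfl | rfl | rfl | rfl | rfl |
    rfl | rfl | rfl | rfl | rfl | rfl | rfl | rfl | rfl | rfl | rfl | rfl | rfl | rfl | rfl | rfl |
    rfl | rfl | rfl <;> norm_num

theorem l2_prime : ∀ p ∈ l2, p.Prime ∧ 2 < p := by
  intro p hp
  rw [l2, List.mem_filter, List.mem_range'_1] at hp
  obtain ⟨⟨h1, h2⟩, h3⟩ := hp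
  refine ⟨?_, by omega⟩
  by_contra hn
  have h4 : Nat.gcd p fac = 1 := Nat.eq_of_beq_eq_true h3
  have h5 := Nat.minFac_sq_le_self (show 0 < p by omega) hn
  have h6 : p.minFac ≤ 141 := by
    by_contra h7
    have h8 : 142 ≤ p.minFac := by omega
    have := Nat.pow_le_pow_left h8 2
    omega
  have h9 := Nat.minFac_prime (show p ≠ 1 by omega)
  have h10 : p.minFac ∣ Nat.gcd p fac := by
    apply Nat.dvd_gcd (Nat.minFac_dvd p)
    rw [fac_eq]
    exact (Nat.Prime.dvd_factorial h9).2 h6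
  rw [h4] at h10
  exact absurd (Nat.dvd_one.1 h10) h9.one_lt.ne'

theorem l_nodup : (l1 ++ l2).Nodup := by
  rw [List.nodup_append]
  refine ⟨by decide +kernel, (List.nodup_range').filter _, ?_⟩
  intro a ha b hb hab
  have h1 : a ≤ 139 := by
    simp only [l1, List.mem_cons, List.not_mem_nil, or_false] at ha
    omega
  rw [l2, List.mem_filter, List.mem_range'_1] at hb
  omega

theorem list_prod (l : List ℕ) (hl : ∀ p ∈ l, 2 < p) :
    (l.map tf).prod * ((l.map (fun p => (p - 1) ^ 2)).prod : ℕ) = ((l.map (fun p => p * (p - 2))).prod : ℕ) := by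
  induction l with
  | nil => simp
  | cons p l ih =>
    have h1 := ih (fun q hq => hl q (List.mem_cons_of_mem _ hq))
    have h2 : 2 < p := hl p List.mem_cons_self
    rw [List.map_cons, List.map_cons, List.map_cons, List.prod_cons, List.prod_cons, List.prod_cons,
      Nat.cast_mul, Nat.cast_mul, ← h1]
    have h3 : tf p * (((p - 1) ^ 2 : ℕ) : ℝ) = ((p * (p - 2) : ℕ) : ℝ) := by
      unfold tf
      have h4 : (3 : ℝ) ≤ p := by exact_mod_cast h2
      rw [Nat.cast_pow, Nat.cast_mul, Nat.cast_sub (by omega), Nat.cast_sub (by omega)]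
      have h5 : ((p : ℝ) - 1) ≠ 0 := by linarith
      push_cast
      field_simp
      ring
    calc _ = (tf p * (((p - 1) ^ 2 : ℕ) : ℝ)) *
          ((l.map tf).prod * ((l.map (fun p => (p - 1) ^ 2)).prod : ℕ)) := by ring
      _ = _ := by rw [h3, h1]

theorem num_check : 4 * 10000000 * ((l1 ++ l2).map (fun p => p * (p - 2))).prod ≤
    3 * 8802396 * ((l1 ++ l2).map (fun p => (p - 1) ^ 2)).prod := by
  decide +kernel

theorem den_pos : 0 < ((l1 ++ l2).map (fun p => (p - 1) ^ 2)).prod := by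
  decide +kernel

theorem twin_le : 4 / 3 * ∏' p : {p : ℕ // p.Prime ∧ 2 < p}, tf p ≤ 8802396 / 10000000 := by
  have hmem : ∀ p ∈ (l1 ++ l2), p.Prime ∧ 2 < p := by
    intro p hp
    rcases List.mem_append.1 hp with h | h
    · exact l1_prime p h
    · exact l2_prime p h
  have h1 := tprod_le ((l1 ++ l2).toFinset.subtype (fun p => p.Prime ∧ 2 < p))
  rw [Finset.prod_subtype_of_mem (f := tf) (s := (l1 ++ l2).toFinset)
    (fun p hp => hmem p (List.mem_toFinset.1 hp)), List.prod_toFinset tf l_nodup] at h1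
  have h2 := list_prod (l1 ++ l2) (fun p hp => (hmem p hp).2)
  have h3 : (0 : ℝ) < (((l1 ++ l2).map (fun p => (p - 1) ^ 2)).prod : ℕ) := by
    exact_mod_cast den_pos
  have h4 : (4 * 10000000 * (((l1 ++ l2).map (fun p => p * (p - 2))).prod : ℕ) : ℝ) ≤
      3 * 8802396 * (((l1 ++ l2).map (fun p => (p - 1) ^ 2)).prod : ℕ) := by
    exact_mod_cast num_check
  rw [← h2] at h4
  set D : ℝ := ((((l1 ++ l2).map (fun p => (p - 1) ^ 2)).prod : ℕ) : ℝ) with hD
  set P := ((l1 ++ l2).map tf).prod with hP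
  have h5 : (4 * 10000000 * P) * D ≤ (3 * 8802396) * D := by
    calc (4 * 10000000 * P) * D = 4 * 10000000 * (P * D) := by ring
      _ ≤ _ := h4
  have h6 := le_of_mul_le_mul_right h5 h3
  linarith

end Pool.Agent.X28.Wolf
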