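/-!
Kernel-friendly bit sieve for pairs of consecutive primes with difference 6.
-/

set_option autoImplicit false

namespace Pool.Agent.X28.Wolf

/-- the number with the bits `0, q, 2 q, ..., (2 ^ t - 1) q` -/
noncomputable def rep (q t : Nat) : Nat :=
  Nat.rec (motive := fun _ => Nat) 1
    (fun i ih => Nat.lor ih (Nat.shiftLeft ih (Nat.mul q (Nat.pow 2 i)))) t

/-- the bitwise or of `f lo, ..., f (lo + 2 ^ d - 1)` -/
noncomputable def tree (f : Nat → Nat) (d : Nat) : Nat → Nat :=
  Nat.rec (motive := fun _ => Nat → Nat) (fun lo => f lo)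
    (fun i ih lo => Nat.lor (ih lo) (ih (Nat.add lo (Nat.pow 2 i)))) d

/-- the sum of `f lo, ..., f (lo + 2 ^ d - 1)` -/
noncomputable def treeSum (f : Nat → Nat) (d : Nat) : Nat → Nat :=
  Nat.rec (motive := fun _ => Nat → Nat) (fun lo => f lo)
    (fun i ih lo => Nat.add (ih lo) (ih (Nat.add lo (Nat.pow 2 i)))) d

/-- `141!` -/
def fac : Nat := 0x11ca9fcdf6532135c84f389264079a39b7507ed284d359d1a42cec7d152d9cd1fb17ed860561c83e2bf6ae7b5cbac6ce2ab6a2f780be90c2134db515eeb0a839b2283da6de8eeb37fd8514c5e71628a8b4250d0020000000000000000000000000000000000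

/-- `q` is used as a sieving number -/
def use (B q : Nat) : Bool :=
  and (Nat.ble q B) (or (Nat.ble q 141) (Nat.beq (Nat.gcd q fac) 1))

/-- the least `r` with `q ∣ 6 (K + r) + c`, where `u` is an inverse of `6` modulo `q` -/
def res (K c q u : Nat) : Nat :=
  Nat.mod (Nat.mul (Nat.sub q (Nat.mod (Nat.add (Nat.mul 6 K) c) q)) u) q

/-- the bits `k < L` (and some more) with `q ∣ 6 (K + k) + c` -/
noncomputable def mark (K L c q u : Nat) : Nat :=
  Nat.shiftLeft (rep q (Nat.add (Nat.log2 (Nat.div L q)) 1)) (res K c q u)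

/-- the marks of `6 j + 5` and `6 j + 7` -/
noncomputable def leaf (K L B c j : Nat) : Nat :=
  Nat.lor
    (cond (use B (Nat.add (Nat.mul 6 j) 5))
      (mark K L c (Nat.add (Nat.mul 6 j) 5) (Nat.add j 1)) 0)
    (cond (use B (Nat.add (Nat.mul 6 j) 7))
      (mark K L c (Nat.add (Nat.mul 6 j) 7) (Nat.sub (Nat.add (Nat.mul 6 j) 7) (Nat.add j 1))) 0)

/-- the bits `k < L` for which `6 (K + k) + c` has a factor among the sieving numbers -/
noncomputable def sv (K L B d c : Nat) : Nat := tree (leaf K L B c) d 0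

/-- the complement -/
def compl (L x : Nat) : Nat := Nat.xor (Nat.sub (Nat.pow 2 L) 1) (Nat.land x (Nat.sub (Nat.pow 2 L) 1))

/-- bits `k` for which `6 k + 1`, `6 k + 7` are primes and `6 k + 5` is not (shifted by `K`) -/
def g1 (L CA CB : Nat) : Nat :=
  Nat.land (Nat.land (compl L CA) (Nat.shiftRight (compl L CA) 1)) CB

/-- bits `k` for which `6 k + 5`, `6 k + 11` are primes and `6 k + 7` is not (shifted by `K`) -/
def g5 (L CA CB : Nat) : Nat :=
  Nat.land (Nat.land (compl L CB) (Nat.shiftRight (compl L CB) 1)) (Nat.shiftRight CA 1)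

/-- mask: blocks of `w` ones at distance `2 w`, below `b` -/
def mask (b w : Nat) : Nat := Nat.div (Nat.sub (Nat.pow 2 b) 1) (Nat.add (Nat.pow 2 w) 1)

/-- add neighbouring digits -/
def step (b w x : Nat) : Nat :=
  Nat.add (Nat.land x (mask b w)) (Nat.land (Nat.shiftRight x w) (mask b w))

/-- digit sums in base `2 ^ (2 ^ i)` -/
noncomputable def lev (b x i : Nat) : Nat :=
  Nat.rec (motive := fun _ => Nat) x (fun i ih => step b (Nat.pow 2 i) ih) i

/-- number of the bits below `2 ^ m` -/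
noncomputable def pc (m x : Nat) : Nat := Nat.mod (lev (Nat.pow 2 m) x m) (Nat.pow 2 (Nat.pow 2 m))

/-- the `i`-th block of `b` bits -/
def blk (b g i : Nat) : Nat := Nat.land (Nat.shiftRight g (Nat.mul i b)) (Nat.sub (Nat.pow 2 b) 1)

/-- lower bound of `E` times the sum of the reciprocals over the block -/
noncomputable def term (E K m G1 G5 i : Nat) : Nat :=
  Nat.div (Nat.mul E (Nat.add (pc m (blk (Nat.pow 2 m) G1 i)) (pc m (blk (Nat.pow 2 m) G5 i))))
    (Nat.mul 3 (Nat.add (Nat.add K (Nat.mul (Nat.add i 1) (Nat.pow 2 m))) 1))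

/-- lower bound of `E` times the sum of the reciprocals over the segment of length `2 ^ (e + m)` -/
noncomputable def val (E K e m B d : Nat) : Nat :=
  (fun CA CB => (fun G1 G5 => treeSum (term E K m G1 G5) e 0)
    (g1 (Nat.pow 2 (Nat.add e m)) CA CB) (g5 (Nat.pow 2 (Nat.add e m)) CA CB))
    (sv K (Nat.pow 2 (Nat.add e m)) B d 1) (sv K (Nat.pow 2 (Nat.add e m)) B d 5)

end Pool.Agent.X28.Wolf
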