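import Mathlib
import Pool.Agent.X28.Wolf.Defs

/-!
Correctness of the bit manipulations.
-/

set_option autoImplicit false

namespace Pool.Agent.X28.Wolf

theorem rep_zero (q : ℕ) : rep q 0 = 1 := rfl
theorem rep_succ (q t : ℕ) : rep q (t + 1) = rep q t ||| (rep q t <<< (q * 2 ^ t)) := rfl

theorem testBit_rep {q : ℕ} (hq : 1 ≤ q) (t i : ℕ) :
    (rep q t).testBit i = true ↔ q ∣ i ∧ i < q * 2 ^ t := by
  induction t generalizing i with
  | zero =>
    rw [rep_zero, pow_zero, mul_one]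
    constructor
    · intro h
      have : i = 0 := by
        by_contra h0
        rw [Nat.testBit_one_eq_true_iff_self_eq_zero] at h
        exact h0 h
      subst this
      exact ⟨dvd_zero _, by omega⟩
    · rintro ⟨h1, h2⟩
      have : i = 0 := Nat.eq_zero_of_dvd_of_lt h1 h2
      subst this
      rfl
  | succ t ih =>
    rw [rep_succ, Nat.testBit_or, Nat.testBit_shiftLeft, Bool.or_eq_true, Bool.and_eq_true,
      decide_eq_true_eq, ih, ih, pow_succ]
    have e : q * (2 ^ t * 2) = q * 2 ^ t + q * 2 ^ t := by ring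
    rw [e]
    have hd : q ∣ q * 2 ^ t := dvd_mul_right _ _
    constructor
    · rintro (⟨h1, h2⟩ | ⟨h1, h2, h3⟩)
      · exact ⟨h1, by omega⟩
      · refine ⟨?_, by omega⟩
        have := (Nat.dvd_add h2 hd)
        rwa [Nat.sub_add_cancel h1] at this
    · rintro ⟨h1, h2⟩
      by_cases h3 : i < q * 2 ^ t
      · exact Or.inl ⟨h1, h3⟩
      · exact Or.inr ⟨by omega, Nat.dvd_sub h1 hd, by omega⟩

theorem tree_zero (f : ℕ → ℕ) (lo : ℕ) : tree f 0 lo = f lo := rfl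
theorem tree_succ (f : ℕ → ℕ) (d lo : ℕ) :
    tree f (d + 1) lo = tree f d lo ||| tree f d (lo + 2 ^ d) := rfl

theorem testBit_tree (f : ℕ → ℕ) (d lo i : ℕ) :
    (tree f d lo).testBit i = true ↔ ∃ j, lo ≤ j ∧ j < lo + 2 ^ d ∧ (f j).testBit i = true := by
  induction d generalizing lo with
  | zero =>
    rw [tree_zero, pow_zero]
    constructor
    · intro h
      exact ⟨lo, le_rfl, by omega, h⟩
    · rintro ⟨j, h1, h2, h3⟩
      have : j = lo := by omega
      rwa [this] at h3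
  | succ d ih =>
    rw [tree_succ, Nat.testBit_or, Bool.or_eq_true, ih, ih, pow_succ]
    constructor
    · rintro (⟨j, h1, h2, h3⟩ | ⟨j, h1, h2, h3⟩)
      · exact ⟨j, h1, by omega, h3⟩
      · exact ⟨j, by omega, by omega, h3⟩
    · rintro ⟨j, h1, h2, h3⟩
      by_cases h : j < lo + 2 ^ d
      · exact Or.inl ⟨j, h1, h, h3⟩
      · exact Or.inr ⟨j, by omega, by omega, h3⟩

theorem treeSum_zero (f : ℕ → ℕ) (lo : ℕ) : treeSum f 0 lo = f lo := rfl
theorem treeSum_succ (f : ℕ → ℕ) (d lo : ℕ) :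
    treeSum f (d + 1) lo = treeSum f d lo + treeSum f d (lo + 2 ^ d) := rfl

theorem treeSum_eq (f : ℕ → ℕ) (d lo : ℕ) :
    treeSum f d lo = ∑ j ∈ Finset.Ico lo (lo + 2 ^ d), f j := by
  induction d generalizing lo with
  | zero => rw [treeSum_zero, pow_zero, Nat.Ico_succ_singleton, Finset.sum_singleton]
  | succ d ih =>
    rw [treeSum_succ, ih, ih, pow_succ,
      Finset.sum_Ico_consecutive _ (Nat.le_add_right _ _) (Nat.le_add_right _ _)]
    congr 2
    omega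

/-! ### digit sums -/

/-- the sum of the first `n` digits in base `2 ^ w` -/
def dsum (w n x : ℕ) : ℕ := ∑ j ∈ Finset.range n, (x / 2 ^ (w * j)) % 2 ^ w

theorem dsum_succ (w n x : ℕ) : dsum w (n + 1) x = x % 2 ^ w + dsum w n (x / 2 ^ w) := by
  unfold dsum
  rw [Finset.sum_range_succ', mul_zero, pow_zero, Nat.div_one, add_comm]
  congr 1
  apply Finset.sum_congr rfl
  intro j _
  rw [Nat.div_div_eq_div_mul, ← pow_add]
  congr 3
  ring

theorem mask_mul (w n : ℕ) : (2 ^ w + 1) * mask (2 * w * n) w = 2 ^ (2 * w * n) - 1 := by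
  have h : ∀ n : ℕ, (2 ^ w + 1) ∣ 2 ^ (2 * w * n) - 1 := by
    intro n
    have h1 : (2 ^ w + 1) ∣ 2 ^ (2 * w) - 1 := by
      refine ⟨2 ^ w - 1, ?_⟩
      have h2 : 1 ≤ 2 ^ w := Nat.one_le_two_pow
      have h3 : 2 ^ (2 * w) = 2 ^ w * 2 ^ w := by rw [two_mul, pow_add]
      rw [h3]
      zify [h2, Nat.one_le_iff_ne_zero.2 (Nat.mul_ne_zero (Nat.pos_iff_ne_zero.1 h2) (Nat.pos_iff_ne_zero.1 h2))]
      ring
    rw [pow_mul]
    exact h1.trans (by simpa using Nat.sub_dvd_pow_sub_pow (2 ^ (2 * w)) 1 n)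
  exact Nat.mul_div_cancel' (h n)

theorem mask_succ (w n : ℕ) :
    mask (2 * w * (n + 1)) w = (2 ^ w - 1) + 2 ^ (2 * w) * mask (2 * w * n) w := by
  have h1 := mask_mul w n
  have h2 := mask_mul w (n + 1)
  have h3 : 1 ≤ 2 ^ w := Nat.one_le_two_pow
  have h4 : 1 ≤ 2 ^ (2 * w * n) := Nat.one_le_two_pow
  have h5 : 1 ≤ 2 ^ (2 * w * (n + 1)) := Nat.one_le_two_pow
  have h6 : 2 ^ (2 * w * (n + 1)) = 2 ^ w * 2 ^ w * 2 ^ (2 * w * n) := by
    rw [← pow_add, ← pow_add]; congr 1; ring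
  have h7 : 2 ^ (2 * w) = 2 ^ w * 2 ^ w := by rw [two_mul, pow_add]
  apply Nat.eq_of_mul_eq_mul_left (show 0 < 2 ^ w + 1 by omega)
  rw [h2, h7]
  generalize mask (2 * w * n) w = M at *
  generalize 2 ^ w = a at *
  rw [h6]
  rw [h6] at h5
  generalize 2 ^ (2 * w * n) = c at *
  have h8 : (a + 1) * M + 1 = c := by omega
  obtain ⟨a', rfl⟩ : ∃ a', a = a' + 1 := ⟨a - 1, by omega⟩
  rw [← h8, Nat.add_sub_cancel]
  apply Nat.sub_eq_of_eq_add
  ring

theorem step_eq (b w x : ℕ) : step b w x = (x &&& mask b w) + ((x >>> w) &&& mask b w) := rfl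

theorem dsum_step {w : ℕ} (hw : 1 ≤ w) (n x : ℕ) :
    dsum (2 * w) n (step (2 * w * n) w x) = dsum w (2 * n) x := by
  induction n generalizing x with
  | zero => rfl
  | succ n ih =>
    have e2 : 2 * (n + 1) = (2 * n + 1) + 1 := by ring
    rw [dsum_succ, e2, dsum_succ, dsum_succ]
    set M := mask (2 * w * n) w with hM
    have hm : mask (2 * w * (n + 1)) w = (2 ^ w - 1) + 2 ^ (2 * w) * M := mask_succ w n
    have h1 : 1 ≤ 2 ^ w := Nat.one_le_two_pow
    have h2w : 2 ≤ 2 ^ w := by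
      calc 2 = 2 ^ 1 := rfl
        _ ≤ 2 ^ w := Nat.pow_le_pow_right (by norm_num) hw
    have hsq : 2 ^ (2 * w) = 2 ^ w * 2 ^ w := by rw [two_mul, pow_add]
    have hlt : 2 ^ w - 1 < 2 ^ (2 * w) := by
      rw [hsq]
      have : 2 ^ w ≤ 2 ^ w * 2 ^ w := Nat.le_mul_of_pos_right _ (by omega)
      omega
    have hmm : ((2 ^ w - 1) + 2 ^ (2 * w) * M) % 2 ^ (2 * w) = 2 ^ w - 1 := by
      rw [Nat.add_mul_mod_self_left, Nat.mod_eq_of_lt hlt]
    have hmd : ((2 ^ w - 1) + 2 ^ (2 * w) * M) / 2 ^ (2 * w) = M := by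
      rw [Nat.add_mul_div_left _ _ (by positivity), Nat.div_eq_of_lt hlt, zero_add]
    have a1 : ∀ z : ℕ, (z &&& ((2 ^ w - 1) + 2 ^ (2 * w) * M)) % 2 ^ (2 * w) = z % 2 ^ w := by
      intro z
      rw [Nat.and_mod_two_pow, hmm, Nat.and_two_pow_sub_one_eq_mod, Nat.mod_mod_of_dvd]
      rw [hsq]; exact dvd_mul_right _ _
    have a2 : ∀ z : ℕ, (z &&& ((2 ^ w - 1) + 2 ^ (2 * w) * M)) / 2 ^ (2 * w) =
        (z / 2 ^ (2 * w)) &&& M := by
      intro z
      rw [Nat.and_div_two_pow, hmd]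
    have b1 := a1 x
    have b2 := a2 x
    have b3 := a1 (x >>> w)
    have b4 := a2 (x >>> w)
    rw [Nat.shiftRight_eq_div_pow] at b3 b4
    rw [step_eq, hm, Nat.shiftRight_eq_div_pow]
    have c1 := Nat.div_add_mod (x &&& ((2 ^ w - 1) + 2 ^ (2 * w) * M)) (2 ^ (2 * w))
    have c2 := Nat.div_add_mod ((x / 2 ^ w) &&& ((2 ^ w - 1) + 2 ^ (2 * w) * M)) (2 ^ (2 * w))
    rw [b1, b2] at c1
    rw [b3, b4] at c2
    rw [← c1, ← c2]
    have d1 : x % 2 ^ w < 2 ^ w := Nat.mod_lt _ (by positivity)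
    have d2 : x / 2 ^ w % 2 ^ w < 2 ^ w := Nat.mod_lt _ (by positivity)
    have hsum : x % 2 ^ w + x / 2 ^ w % 2 ^ w < 2 ^ (2 * w) := by rw [hsq]; nlinarith
    have e3 : 2 ^ (2 * w) * (x / 2 ^ (2 * w) &&& M) + x % 2 ^ w +
        (2 ^ (2 * w) * (x / 2 ^ w / 2 ^ (2 * w) &&& M) + x / 2 ^ w % 2 ^ w) =
        (x % 2 ^ w + x / 2 ^ w % 2 ^ w) +
          2 ^ (2 * w) * ((x / 2 ^ (2 * w) &&& M) + (x / 2 ^ w / 2 ^ (2 * w) &&& M)) := by ring
    rw [e3, Nat.add_mul_mod_self_left, Nat.mod_eq_of_lt hsum,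
      Nat.add_mul_div_left _ _ (by positivity), Nat.div_eq_of_lt hsum, zero_add]
    have e4 : x / 2 ^ w / 2 ^ (2 * w) = (x / 2 ^ (2 * w)) >>> w := by
      rw [Nat.shiftRight_eq_div_pow, Nat.div_div_eq_div_mul, Nat.div_div_eq_div_mul, mul_comm]
    have e5 : x / 2 ^ w / 2 ^ w = x / 2 ^ (2 * w) := by
      rw [Nat.div_div_eq_div_mul, hsq]
    rw [e4, ← step_eq, ih, e5]
    ring

theorem lev_zero (b x : ℕ) : lev b x 0 = x := rfl
theorem lev_succ (b x i : ℕ) : lev b x (i + 1) = step b (2 ^ i) (lev b x i) := rfl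

theorem dsum_lev (m x i : ℕ) (hi : i ≤ m) :
    dsum (2 ^ i) (2 ^ (m - i)) (lev (2 ^ m) x i) = dsum 1 (2 ^ m) x := by
  induction i with
  | zero => rw [lev_zero, pow_zero, Nat.sub_zero]
  | succ i ih =>
    rw [lev_succ, ← ih (by omega)]
    have h1 : 2 ^ m = 2 * 2 ^ i * 2 ^ (m - (i + 1)) := by
      rw [mul_assoc, ← pow_add, ← pow_succ']
      congr 1
      omega
    have h2 : 2 ^ (m - i) = 2 * 2 ^ (m - (i + 1)) := by
      rw [← pow_succ']
      congr 1
      omega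
    rw [h2, pow_succ']
    conv_lhs => rw [h1]
    rw [dsum_step Nat.one_le_two_pow]
    rw [← h1]

theorem pc_eq (m x : ℕ) : pc m x = ∑ j ∈ Finset.range (2 ^ m), (x.testBit j).toNat := by
  have h := dsum_lev m x m le_rfl
  rw [Nat.sub_self, pow_zero] at h
  have h1 : dsum (2 ^ m) 1 (lev (2 ^ m) x m) = pc m x := by
    unfold dsum
    rw [Finset.sum_range_one, mul_zero, pow_zero, Nat.div_one]
    rfl
  rw [← h1, h]
  unfold dsum
  apply Finset.sum_congr rfl
  intro j _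
  rw [one_mul, pow_one, Nat.toNat_testBit]

theorem testBit_blk {b g i j : ℕ} (hj : j < b) : (blk b g i).testBit j = g.testBit (i * b + j) := by
  have h : blk b g i = (g >>> (i * b)) &&& (2 ^ b - 1) := rfl
  rw [h, Nat.testBit_and, Nat.testBit_shiftRight, Nat.testBit_two_pow_sub_one]
  simp [hj]

theorem testBit_compl {L x i : ℕ} : (compl L x).testBit i = true ↔ i < L ∧ x.testBit i = false := by
  have h : compl L x = (2 ^ L - 1) ^^^ (x &&& (2 ^ L - 1)) := rfl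
  rw [h, Nat.testBit_xor, Nat.testBit_and, Nat.testBit_two_pow_sub_one]
  by_cases h1 : i < L
  · simp [h1]
  · simp [h1]

theorem testBit_g1 {L CA CB i : ℕ} (h : (g1 L CA CB).testBit i = true) :
    i + 1 < L ∧ CA.testBit i = false ∧ CA.testBit (i + 1) = false ∧ CB.testBit i = true := by
  have h0 : g1 L CA CB = (compl L CA &&& (compl L CA >>> 1)) &&& CB := rfl
  rw [h0, Nat.testBit_and, Nat.testBit_and, Nat.testBit_shiftRight, Bool.and_eq_true,
    Bool.and_eq_true, testBit_compl, testBit_compl, add_comm 1 i] at h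
  exact ⟨h.1.2.1, h.1.1.2, h.1.2.2, h.2⟩

theorem testBit_g5 {L CA CB i : ℕ} (h : (g5 L CA CB).testBit i = true) :
    i + 1 < L ∧ CB.testBit i = false ∧ CB.testBit (i + 1) = false ∧ CA.testBit (i + 1) = true := by
  have h0 : g5 L CA CB = (compl L CB &&& (compl L CB >>> 1)) &&& (CA >>> 1) := rfl
  rw [h0, Nat.testBit_and, Nat.testBit_and, Nat.testBit_shiftRight, Nat.testBit_shiftRight,
    Bool.and_eq_true, Bool.and_eq_true, testBit_compl, testBit_compl, add_comm 1 i] at h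
  exact ⟨h.1.2.1, h.1.1.2, h.1.2.2, h.2⟩

end Pool.Agent.X28.Wolf
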