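/-!
Kernel-friendly verification of a list of pairs of consecutive primes with difference 6.
-/

set_option autoImplicit false

namespace Pool.Agent.X28.Wolf

/-- the sum of `f lo, ..., f (lo + 2 ^ d - 1)` -/
noncomputable def tsum (f : Nat → Nat) (d : Nat) : Nat → Nat :=
  Nat.rec (motive := fun _ => Nat → Nat) (fun lo => f lo)
    (fun i ih lo => Nat.add (ih lo) (ih (Nat.add lo (Nat.pow 2 i)))) d

/-- the product of `f lo, ..., f (lo + 2 ^ d - 1)` -/
noncomputable def tmul (f : Nat → Nat) (d : Nat) : Nat → Nat :=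
  Nat.rec (motive := fun _ => Nat → Nat) (fun lo => f lo)
    (fun i ih lo => Nat.mul (ih lo) (ih (Nat.add lo (Nat.pow 2 i)))) d

/-- the gcd of `x` and `Q` -/
def gm (Q x : Nat) : Nat := Nat.gcd (Nat.mod Q x) x

/-- `1` if `q ≤ B` is coprime to `P`, else `0` -/
def bad (P B q : Nat) : Nat := cond (Nat.ble q B) (Nat.div 1 (gm P q)) 0

/-- the bad numbers among `6 j + 5` and `6 j + 7` -/
def badj (P B j : Nat) : Nat :=
  Nat.add (bad P B (Nat.add (Nat.mul 6 j) 5)) (bad P B (Nat.add (Nat.mul 6 j) 7))

/-- `q` if `q ≤ B`, else `1` -/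
def cut (B q : Nat) : Nat := cond (Nat.ble q B) q 1

/-- the product of `6 j + 5` and `6 j + 7` as far as they are at most `B` -/
def cutj (B j : Nat) : Nat :=
  Nat.mul (cut B (Nat.add (Nat.mul 6 j) 5)) (cut B (Nat.add (Nat.mul 6 j) 7))

/-- the check that the primes dividing `P` are those between `5` and `B` -/
noncomputable def goodP (P B d : Nat) : Bool :=
  and (Nat.beq (tsum (badj P B) d 0) 0) (Nat.beq (Nat.mod (tmul (cutj B) d 0) P) 0)

/-- the number among `p + 2`, `p + 4` that is prime to `3` -/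
def mid (p : Nat) : Nat := Nat.sub (Nat.add p 6) (Nat.mul 2 (Nat.mod p 3))

/-- the value of a claimed pair, times `2 ^ 32` -/
def fv (P p : Nat) : Nat :=
  Nat.shiftLeft
    (Nat.mul (Nat.div 1 (gm (Nat.mul 6 P) (Nat.mul p (Nat.add p 6))))
      (Nat.mul (Nat.sub 1 (Nat.div 1 (gm P (mid p))))
        (Nat.div 2000000000000000000 (Nat.add p 3)))) 32

/-- the values of `n` pairs starting at `pos`, plus the end position -/
noncomputable def go (P n : Nat) : Nat → Nat → Nat :=
  Nat.rec (motive := fun _ => Nat → Nat → Nat) (fun _ pos => pos)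
    (fun _ ih c pos => Nat.add (fv P pos)
      (ih (Nat.shiftRight c 11) (Nat.succ (Nat.add pos (Nat.mod c 2048))))) n

/-- start position of the `j`-th chunk -/
def hd (C j : Nat) : Nat := Nat.mod (Nat.shiftRight C (Nat.mul 736 j)) 4294967296

/-- the digits of the `j`-th chunk -/
def bd (C j : Nat) : Nat :=
  Nat.shiftRight (Nat.mod (Nat.shiftRight C (Nat.mul 736 j)) (Nat.pow 2 736)) 32

/-- the value of a chunk from the result of `go` -/
def fin (R h : Nat) : Nat := cond (Nat.ble (Nat.mod R 4294967296) h) (Nat.shiftRight R 32) 0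

/-- the value of the `j`-th chunk -/
noncomputable def cv (P C j : Nat) : Nat := fin (go P 64 (bd C j) (hd C j)) (hd C (Nat.succ j))

/-- `0` if the `j`-th start is at most the next one and below `2 ^ 31` -/
def mono (C j : Nat) : Nat :=
  cond (and (Nat.ble (hd C j) (hd C (Nat.succ j))) (Nat.ble (hd C j) 2147483648)) 0 1

/-- the value of the whole list -/
noncomputable def cval (P X Y d C : Nat) : Nat :=
  cond (and (Nat.ble X (hd C 0)) (and (Nat.ble (hd C (Nat.pow 2 d)) Y)
    (Nat.beq (tsum (mono C) d 0) 0))) (tsum (cv P C) d 0) 0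

end Pool.Agent.X28.Wolf
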