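import Pool.Agent.X28.Wolf.Sieve
import Pool.Agent.X28.Wolf.Cert

/-!
Correctness of the verification of a list of pairs.
-/

set_option autoImplicit false

namespace Pool.Agent.X28.Wolf

theorem tsum_zero (f : ℕ → ℕ) (lo : ℕ) : tsum f 0 lo = f lo := rfl
theorem tsum_succ (f : ℕ → ℕ) (d lo : ℕ) :
    tsum f (d + 1) lo = tsum f d lo + tsum f d (lo + 2 ^ d) := rfl

theorem tsum_eq (f : ℕ → ℕ) (d lo : ℕ) :
    tsum f d lo = ∑ j ∈ Finset.Ico lo (lo + 2 ^ d), f j := by
  induction d generalizing lo with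
  | zero => rw [tsum_zero, pow_zero, Nat.Ico_succ_singleton, Finset.sum_singleton]
  | succ d ih =>
    rw [tsum_succ, ih, ih, pow_succ,
      Finset.sum_Ico_consecutive _ (Nat.le_add_right _ _) (Nat.le_add_right _ _)]
    congr 2
    omega

theorem tmul_zero (f : ℕ → ℕ) (lo : ℕ) : tmul f 0 lo = f lo := rfl
theorem tmul_succ (f : ℕ → ℕ) (d lo : ℕ) :
    tmul f (d + 1) lo = tmul f d lo * tmul f d (lo + 2 ^ d) := rfl

theorem tmul_eq (f : ℕ → ℕ) (d lo : ℕ) :
    tmul f d lo = ∏ j ∈ Finset.Ico lo (lo + 2 ^ d), f j := by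
  induction d generalizing lo with
  | zero => rw [tmul_zero, pow_zero, Nat.Ico_succ_singleton, Finset.prod_singleton]
  | succ d ih =>
    rw [tmul_succ, ih, ih, pow_succ,
      Finset.prod_Ico_consecutive _ (Nat.le_add_right _ _) (Nat.le_add_right _ _)]
    congr 2
    omega

/-- the primes dividing `P` are those between `5` and `B` -/
structure Good (P B : ℕ) : Prop where
  dvd : ∀ r : ℕ, r.Prime → 5 ≤ r → r ≤ B → r ∣ P
  le : ∀ r : ℕ, r.Prime → r ∣ P → r ≤ B

theorem gm_eq (Q x : ℕ) : gm Q x = Nat.gcd x Q := (Nat.gcd_rec x Q).symm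

theorem prime_cases {r : ℕ} (hr : r.Prime) (h5 : 5 ≤ r) :
    ∃ j, r = 6 * j + 5 ∨ r = 6 * j + 7 := by
  have hm2 : r % 2 ≠ 0 := by
    intro h7
    have h8 : 2 ∣ r := Nat.dvd_of_mod_eq_zero h7
    have := (Nat.prime_dvd_prime_iff_eq Nat.prime_two hr).1 h8
    omega
  have hm3 : r % 3 ≠ 0 := by
    intro h7
    have h8 : 3 ∣ r := Nat.dvd_of_mod_eq_zero h7
    have := (Nat.prime_dvd_prime_iff_eq Nat.prime_three hr).1 h8
    omega
  have hcases : r % 6 = 5 ∨ r % 6 = 1 := by omega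
  rcases hcases with h6 | h6
  · exact ⟨(r - 5) / 6, Or.inl (by omega)⟩
  · exact ⟨(r - 7) / 6, Or.inr (by omega)⟩

theorem dvd_of_bad {P B r : ℕ} (hr : r.Prime) (hB : r ≤ B) (h : bad P B r = 0) : r ∣ P := by
  unfold bad at h
  rw [Nat.ble_eq_true_of_le hB, cond_true, gm_eq] at h
  by_contra hn
  have h1 : Nat.gcd r P = 1 := (Nat.Prime.coprime_iff_not_dvd hr).2 hn
  rw [h1] at h
  exact absurd h (by decide)

theorem le_of_cut {B q r : ℕ} (hr : r.Prime) (hq : 1 ≤ q) (h : r ∣ cut B q) : r ≤ B := by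
  unfold cut at h
  by_cases h1 : q ≤ B
  · rw [Nat.ble_eq_true_of_le h1, cond_true] at h
    exact (Nat.le_of_dvd hq h).trans h1
  · have h2 : Nat.ble q B = false := by
      cases hb : Nat.ble q B
      · rfl
      · exact absurd (Nat.le_of_ble_eq_true hb) h1
    rw [h2, cond_false] at h
    exact absurd (Nat.dvd_one.1 h) hr.one_lt.ne'

theorem good_of_goodP {P B d : ℕ} (hd : B < 6 * 2 ^ d) (h : goodP P B d = true) : Good P B := by
  unfold goodP at h
  rw [Bool.and_eq_true] at h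
  obtain ⟨h1, h2⟩ := h
  have h1 := Nat.eq_of_beq_eq_true h1
  have h2 : tmul (cutj B) d 0 % P = 0 := Nat.eq_of_beq_eq_true h2
  rw [tsum_eq, zero_add, Finset.sum_eq_zero_iff] at h1
  constructor
  · intro r hr h5 hB
    obtain ⟨j, hj⟩ := prime_cases hr h5
    have hjd : j ∈ Finset.Ico 0 (2 ^ d) := by
      rw [Finset.mem_Ico]
      omega
    have h3 : bad P B (6 * j + 5) + bad P B (6 * j + 7) = 0 := h1 j hjd
    rcases hj with hj | hj
    · apply dvd_of_bad hr hB
      rw [hj]; omega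
    · apply dvd_of_bad hr hB
      rw [hj]; omega
  · intro r hr hrP
    have h3 : r ∣ tmul (cutj B) d 0 := hrP.trans (Nat.dvd_of_mod_eq_zero h2)
    rw [tmul_eq] at h3
    obtain ⟨j, _, hj⟩ := (Prime.dvd_finsetProd_iff hr.prime _).1 h3
    have h4 : r ∣ cut B (6 * j + 5) * cut B (6 * j + 7) := hj
    rcases (Nat.Prime.dvd_mul hr).1 h4 with h5 | h5
    · exact le_of_cut hr (by omega) h5
    · exact le_of_cut hr (by omega) h5

theorem prime_of_good {P B n : ℕ} (hP : Good P B) (hn : 2 ≤ n) (hB : n < (B + 1) ^ 2)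
    (h : Nat.Coprime n (6 * P)) : n.Prime := by
  by_contra hp
  have h2 := Nat.minFac_sq_le_self (show 0 < n by omega) hp
  have h3 : n.minFac < B + 1 := by
    by_contra h4
    have h5 : B + 1 ≤ n.minFac := by omega
    have h6 := Nat.pow_le_pow_left h5 2
    omega
  have hq := Nat.minFac_prime (show n ≠ 1 by omega)
  have hdvd := Nat.minFac_dvd n
  set q := n.minFac with hqdef
  have hno : ¬ q ∣ 6 * P := by
    intro hc
    have := Nat.dvd_gcd hdvd hc
    rw [h] at this
    exact absurd (Nat.dvd_one.1 this) hq.one_lt.ne'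
  by_cases h5 : 5 ≤ q
  · exact hno ((hP.dvd q hq h5 (by omega)).trans (dvd_mul_left _ _))
  · have h2 := hq.two_le
    have : q = 2 ∨ q = 3 ∨ q = 4 := by omega
    rcases this with h6 | h6 | h6
    · exact hno (by rw [h6]; exact Dvd.dvd.mul_right (by norm_num) P)
    · exact hno (by rw [h6]; exact Dvd.dvd.mul_right (by norm_num) P)
    · rw [h6] at hq
      exact absurd hq (by norm_num)

theorem gap_of_good {P B p : ℕ} (hP : Good P B) (hBp : B < p) (hp2 : 2 ≤ p)
    (hpB : p + 6 < (B + 1) ^ 2) (h1 : Nat.Coprime (p * (p + 6)) (6 * P))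
    (h2 : Nat.gcd (mid p) P ≠ 1) : IsGap 6 p := by
  have hc1 : Nat.Coprime p (6 * P) := Nat.Coprime.coprime_dvd_left (dvd_mul_right _ _) h1
  have hc2 : Nat.Coprime (p + 6) (6 * P) := Nat.Coprime.coprime_dvd_left (dvd_mul_left _ _) h1
  have hp := prime_of_good hP hp2 (by omega) hc1
  have hp6 := prime_of_good hP (by omega) hpB hc2
  have hc6 : Nat.Coprime p 6 := Nat.Coprime.coprime_dvd_right (dvd_mul_right _ _) hc1
  have hodd : p % 2 = 1 := by
    by_contra h
    have h3 : 2 ∣ p := by omega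
    have := Nat.dvd_gcd h3 (show 2 ∣ 6 by norm_num)
    rw [hc6] at this
    omega
  have h3 : p % 3 ≠ 0 := by
    intro h
    have h3 : 3 ∣ p := by omega
    have := Nat.dvd_gcd h3 (show 3 ∣ 6 by norm_num)
    rw [hc6] at this
    omega
  have hp7 : 5 ≤ p := by
    by_contra h
    have : p = 3 := by omega
    omega
  have hm : mid p = p + 6 - 2 * (p % 3) := rfl
  have hmid : ¬ (mid p).Prime := by
    intro hmp
    obtain ⟨r, hr, hrg⟩ := Nat.exists_prime_and_dvd h2
    have h4 : r ∣ mid p := hrg.trans (Nat.gcd_dvd_left _ _)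
    have h5 : r ∣ P := hrg.trans (Nat.gcd_dvd_right _ _)
    have h6 := hP.le r hr h5
    have h7 := (Nat.prime_dvd_prime_iff_eq hr hmp).1 h4
    omega
  refine ⟨hp, hp6, fun m hm1 hm2 => ?_⟩
  have hcases : m = p + 1 ∨ m = p + 2 ∨ m = p + 3 ∨ m = p + 4 ∨ m = p + 5 := by omega
  rcases hcases with h4 | h4 | h4 | h4 | h4
  · exact not_prime_of_dvd (d := 2) le_rfl (by omega) (by omega)
  · by_cases h5 : p % 3 = 1
    · exact not_prime_of_dvd (d := 3) (by omega) (by omega) (by omega)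
    · have h6 : mid p = p + 2 := by omega
      rw [h4, ← h6]; exact hmid
  · exact not_prime_of_dvd (d := 2) le_rfl (by omega) (by omega)
  · by_cases h5 : p % 3 = 1
    · have h6 : mid p = p + 4 := by omega
      rw [h4, ← h6]; exact hmid
    · exact not_prime_of_dvd (d := 3) (by omega) (by omega) (by omega)
  · exact not_prime_of_dvd (d := 2) le_rfl (by omega) (by omega)

theorem F_ge' {p : ℕ} (h : IsGap 6 p) : 2 / ((p : ℝ) + 3) ≤ F p := by
  unfold F
  rw [if_pos h]
  have hp : (0 : ℝ) < p := by exact_mod_cast h.1.pos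
  rw [div_add_div _ _ hp.ne' (by linarith), div_le_div_iff₀ (by linarith) (by positivity)]
  nlinarith

theorem fv_spec {P B p : ℕ} (hP : Good P B) (hBp : B < p) (hp2 : 2 ≤ p) :
    ∃ v : ℕ, fv P p = v * 4294967296 ∧
      (p + 6 < (B + 1) ^ 2 → (v : ℝ) ≤ ((1000000000000000000 : ℕ) : ℝ) * F p) := by
  refine ⟨(1 / gm (6 * P) (p * (p + 6))) * ((1 - 1 / gm P (mid p)) *
    (2000000000000000000 / (p + 3))), ?_, fun hpB => ?_⟩
  · have : fv P p = ((1 / gm (6 * P) (p * (p + 6))) * ((1 - 1 / gm P (mid p)) *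
      (2000000000000000000 / (p + 3)))) <<< 32 := rfl
    rw [this, Nat.shiftLeft_eq]
  · rw [gm_eq, gm_eq]
    have hF := F_nonneg p
    have hE : (0 : ℝ) ≤ ((1000000000000000000 : ℕ) : ℝ) := Nat.cast_nonneg _
    by_cases h1 : Nat.gcd (p * (p + 6)) (6 * P) = 1
    · by_cases h2 : Nat.gcd (mid p) P = 1
      · rw [h2]
        simp only [Nat.div_self (show 0 < 1 by norm_num), Nat.sub_self, zero_mul, mul_zero,
          Nat.cast_zero]
        exact mul_nonneg hE hF
      · rw [h1]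
        have h3 : Nat.gcd (mid p) P ≠ 0 := by
          intro h4
          have h5 := Nat.eq_zero_of_gcd_eq_zero_left h4
          have h6 : mid p = p + 6 - 2 * (p % 3) := rfl
          omega
        have h4 : 1 / Nat.gcd (mid p) P = 0 := Nat.div_eq_of_lt (by omega)
        rw [h4, Nat.div_self (show 0 < 1 by norm_num), Nat.sub_zero, one_mul, one_mul]
        have hg := gap_of_good hP hBp hp2 hpB h1 h2
        refine Nat.cast_div_le.trans ?_
        have h5 := F_ge' hg
        calc ((2000000000000000000 : ℕ) : ℝ) / ((p + 3 : ℕ) : ℝ)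
            = ((1000000000000000000 : ℕ) : ℝ) * (2 / ((p : ℝ) + 3)) := by
              push_cast
              ring
          _ ≤ _ := mul_le_mul_of_nonneg_left h5 hE
    · have h4 : 1 / Nat.gcd (p * (p + 6)) (6 * P) = 0 := by
        rcases Nat.eq_zero_or_pos (Nat.gcd (p * (p + 6)) (6 * P)) with h | h
        · rw [h]
        · exact Nat.div_eq_of_lt (by omega)
      rw [h4, zero_mul, Nat.cast_zero]
      exact mul_nonneg hE hF

theorem S_nonneg (a b : ℕ) : 0 ≤ S a b := Finset.sum_nonneg fun p _ => F_nonneg p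

theorem S_mono {a b a' b' : ℕ} (h1 : a' ≤ a) (h2 : b ≤ b') : S a b ≤ S a' b' :=
  Finset.sum_le_sum_of_subset_of_nonneg (Finset.Ico_subset_Ico h1 h2) fun p _ _ => F_nonneg p

theorem F_le_S {a b : ℕ} (h : a < b) : F a ≤ S a b := by
  unfold S
  exact Finset.single_le_sum (f := F) (fun p _ => F_nonneg p) (Finset.mem_Ico.2 ⟨le_rfl, h⟩)

theorem go_zero (P c pos : ℕ) : go P 0 c pos = pos := rfl
theorem go_succ (P n c pos : ℕ) :
    go P (n + 1) c pos = fv P pos + go P n (c >>> 11) (pos + c % 2048 + 1) := rfl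

theorem go_spec {P B : ℕ} (hP : Good P B) (n : ℕ) : ∀ c pos : ℕ, B < pos → 2 ≤ pos →
    ∃ v e : ℕ, go P n c pos = v * 4294967296 + e ∧ pos ≤ e ∧ e ≤ pos + 2048 * n ∧
      (e + 6 ≤ (B + 1) ^ 2 → (v : ℝ) ≤ ((1000000000000000000 : ℕ) : ℝ) * S pos e) := by
  induction n with
  | zero =>
    intro c pos _ _
    refine ⟨0, pos, by rw [go_zero]; omega, le_rfl, by omega, fun _ => ?_⟩
    simp [S]
  | succ n ih =>
    intro c pos hB h2
    obtain ⟨v, e, h3, h4, h5, h6⟩ := ih (c >>> 11) (pos + c % 2048 + 1) (by omega) (by omega)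
    obtain ⟨w, h7, h8⟩ := fv_spec hP hB h2
    have hm : c % 2048 < 2048 := Nat.mod_lt _ (by norm_num)
    refine ⟨w + v, e, ?_, by omega, by omega, fun he => ?_⟩
    · rw [go_succ, h3, h7]; ring
    · have h9 := h8 (by omega)
      have h10 := h6 he
      rw [← S_add (show pos ≤ pos + c % 2048 + 1 by omega) h4, Nat.cast_add, mul_add]
      have h11 : F pos ≤ S pos (pos + c % 2048 + 1) := F_le_S (by omega)
      exact add_le_add (h9.trans (mul_le_mul_of_nonneg_left h11 (Nat.cast_nonneg _))) h10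

theorem cv_spec {P B C j : ℕ} (hP : Good P B) (h1 : B < hd C j) (h2 : 2 ≤ hd C j)
    (h4 : hd C j ≤ 2147483648)
    (h5 : hd C (j + 1) + 6 ≤ (B + 1) ^ 2) :
    ((cv P C j : ℕ) : ℝ) ≤ ((1000000000000000000 : ℕ) : ℝ) * S (hd C j) (hd C (j + 1)) := by
  obtain ⟨v, e, h6, h7, h8, h9⟩ := go_spec hP 64 (bd C j) (hd C j) h1 h2
  have hcv : cv P C j = fin (go P 64 (bd C j) (hd C j)) (hd C (j + 1)) := rfl
  rw [hcv, h6]
  unfold fin
  have he : (v * 4294967296 + e) % 4294967296 = e := by omega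
  have hv : Nat.shiftRight (v * 4294967296 + e) 32 = v := by
    show (v * 4294967296 + e) >>> 32 = v
    rw [Nat.shiftRight_eq_div_pow]
    norm_num
    omega
  have he' : Nat.mod (v * 4294967296 + e) 4294967296 = e := he
  rw [he', hv]
  by_cases hle : e ≤ hd C (j + 1)
  · rw [Nat.ble_eq_true_of_le hle, cond_true]
    exact (h9 (by omega)).trans (mul_le_mul_of_nonneg_left (S_mono le_rfl hle) (Nat.cast_nonneg _))
  · have : Nat.ble e (hd C (j + 1)) = false := by
      cases hb : Nat.ble e (hd C (j + 1))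
      · rfl
      · exact absurd (Nat.le_of_ble_eq_true hb) hle
    rw [this, cond_false, Nat.cast_zero]
    exact mul_nonneg (Nat.cast_nonneg _) (S_nonneg _ _)

theorem mono_spec {C j : ℕ} (h : mono C j = 0) : hd C j ≤ hd C (j + 1) ∧ hd C j ≤ 2147483648 := by
  unfold mono at h
  cases hb : (Nat.ble (hd C j) (hd C (Nat.succ j)) && Nat.ble (hd C j) 2147483648)
  · rw [hb, cond_false] at h
    exact absurd h (by norm_num)
  · rw [Bool.and_eq_true] at hb
    exact ⟨Nat.le_of_ble_eq_true hb.1, Nat.le_of_ble_eq_true hb.2⟩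

/-- the segment theorem -/
theorem cval_le {P B X Y d C : ℕ} (hP : Good P B) (h1 : B < X) (h2 : 2 ≤ X)
    (h5 : Y + 6 ≤ (B + 1) ^ 2) :
    ((cval P X Y d C : ℕ) : ℝ) ≤ ((1000000000000000000 : ℕ) : ℝ) * S X Y := by
  unfold cval
  cases hb : (Nat.ble X (hd C 0) && (Nat.ble (hd C (Nat.pow 2 d)) Y && Nat.beq (tsum (mono C) d 0) 0))
  · rw [cond_false, Nat.cast_zero]
    exact mul_nonneg (Nat.cast_nonneg _) (S_nonneg _ _)
  · rw [cond_true]
    rw [Bool.and_eq_true, Bool.and_eq_true] at hb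
    obtain ⟨b1, b2, b3⟩ := hb
    have b1 := Nat.le_of_ble_eq_true b1
    have b2 : hd C (2 ^ d) ≤ Y := Nat.le_of_ble_eq_true b2
    have b3 := Nat.eq_of_beq_eq_true b3
    rw [tsum_eq, zero_add, Finset.sum_eq_zero_iff] at b3
    have hm : ∀ j, j < 2 ^ d → hd C j ≤ hd C (j + 1) ∧ hd C j ≤ 2147483648 := fun j hj =>
      mono_spec (b3 j (Finset.mem_Ico.2 ⟨Nat.zero_le _, hj⟩))
    have hle : ∀ i, i ≤ 2 ^ d → hd C 0 ≤ hd C i := by
      intro i hi
      induction i with
      | zero => exact le_rfl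
      | succ i ih => exact (ih (by omega)).trans (hm i (by omega)).1
    have hge : ∀ i, i ≤ 2 ^ d → hd C (2 ^ d - i) ≤ hd C (2 ^ d) := by
      intro i hi
      induction i with
      | zero => exact le_rfl
      | succ i ih =>
        have h6 := (hm (2 ^ d - (i + 1)) (by omega)).1
        have e : 2 ^ d - (i + 1) + 1 = 2 ^ d - i := by omega
        rw [e] at h6
        exact h6.trans (ih (by omega))
    have hge' : ∀ i, i ≤ 2 ^ d → hd C i ≤ hd C (2 ^ d) := by
      intro i hi
      have := hge (2 ^ d - i) (by omega)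
      have e : 2 ^ d - (2 ^ d - i) = i := by omega
      rwa [e] at this
    have key : ∀ n, n ≤ 2 ^ d → ((∑ j ∈ Finset.range n, cv P C j : ℕ) : ℝ) ≤
        ((1000000000000000000 : ℕ) : ℝ) * S (hd C 0) (hd C n) := by
      intro n hn
      induction n with
      | zero => simp [S]
      | succ n ih =>
        have h7 := hm n (by omega)
        have h8 := hle n (by omega)
        have h9 := hge' (n + 1) hn
        rw [Finset.sum_range_succ, Nat.cast_add, ← S_add h8 h7.1, mul_add]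
        exact add_le_add (ih (by omega))
          (cv_spec hP (by omega) (by omega) h7.2 (by omega))
    have h10 := key (2 ^ d) le_rfl
    rw [tsum_eq, zero_add, Nat.Ico_zero_eq_range]
    exact h10.trans (mul_le_mul_of_nonneg_left (S_mono b1 b2) (Nat.cast_nonneg _))

end Pool.Agent.X28.Wolf
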